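import Mathlib

/-!
# Minkowski endomorphisms: basic definitions

Convex bodies in `ℝⁿ` (`ConvexBody (E n)` of Mathlib, with the Hausdorff metric and Minkowski addition),
support functions on the unit sphere, smooth functions on the sphere (through the extension to
`ℝⁿ ∖ {0}` which is constant on rays), rotations, zonal distributions, admissible maps.
-/

set_option autoImplicit false

namespace Pool.Agent.Helper115_ME

open MeasureTheory Metric Set
open scoped ContDiff

noncomputable section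

/-- `ℝⁿ` -/
abbrev E (n : ℕ) := EuclideanSpace ℝ (Fin n)

/-- the unit sphere `S^{n-1}` of `ℝⁿ` -/
abbrev Sph (n : ℕ) := Metric.sphere (0 : E n) 1

/-- the extension of a function on the sphere to `ℝⁿ` which is constant on the open rays
(and `0` at the origin) -/
def ext0 {n : ℕ} (f : Sph n → ℝ) (x : E n) : ℝ :=
  if hx : x = 0 then 0 else f ⟨‖x‖⁻¹ • x, by simp [norm_smul, hx]⟩

/-- `C^∞` functions on the sphere: the extension constant on rays is `C^∞` on `ℝⁿ ∖ {0}` -/
def IsSmooth {n : ℕ} (f : Sph n → ℝ) : Prop := ContDiffOn ℝ ∞ (ext0 f) {0}ᶜ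

theorem ext0_apply {n : ℕ} (f : Sph n → ℝ) {x : E n} (hx : x ≠ 0) :
    ext0 f x = f ⟨‖x‖⁻¹ • x, by simp [norm_smul, hx]⟩ := by
  simp [ext0, hx]

theorem ext0_sphere {n : ℕ} (f : Sph n → ℝ) (v : Sph n) : ext0 f (v : E n) = f v := by
  have hv : ‖(v : E n)‖ = 1 := by simp
  have hv0 : (v : E n) ≠ 0 := by
    intro h; rw [h, norm_zero] at hv; exact zero_ne_one hv
  rw [ext0_apply f hv0]
  congr 1
  ext1
  simp [hv]

theorem ext0_smul {n : ℕ} (f : Sph n → ℝ) {c : ℝ} (hc : 0 < c) (x : E n) :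
    ext0 f (c • x) = ext0 f x := by
  by_cases hx : x = 0
  · simp [hx]
  · rw [ext0_apply f hx, ext0_apply f (smul_ne_zero hc.ne' hx)]
    congr 2
    rw [norm_smul, Real.norm_of_nonneg hc.le, smul_smul, mul_inv]
    congr 1
    field_simp

theorem ext0_zero {n : ℕ} : ext0 (0 : Sph n → ℝ) = 0 := by
  ext x; by_cases hx : x = 0 <;> simp [ext0, hx]

theorem ext0_add {n : ℕ} (f g : Sph n → ℝ) : ext0 (f + g) = ext0 f + ext0 g := by
  ext x; by_cases hx : x = 0 <;> simp [ext0, hx]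

theorem ext0_const_smul {n : ℕ} (c : ℝ) (f : Sph n → ℝ) : ext0 (c • f) = c • ext0 f := by
  ext x; by_cases hx : x = 0 <;> simp [ext0, hx]

/-- the real vector space `C^∞(S^{n-1})` -/
def SmoothFun (n : ℕ) : Submodule ℝ (Sph n → ℝ) where
  carrier := {f | IsSmooth f}
  add_mem' := by
    intro f g hf hg
    simp only [Set.mem_ofPred_eq, IsSmooth, ext0_add] at *
    exact hf.add hg
  zero_mem' := by
    simp only [Set.mem_ofPred_eq, IsSmooth, ext0_zero]
    exact contDiffOn_const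
  smul_mem' := by
    intro c f hf
    simp only [Set.mem_ofPred_eq, IsSmooth, ext0_const_smul] at *
    exact hf.const_smul c

/-- an isometry of `ℝⁿ` acting on the sphere -/
def act {n : ℕ} (ϑ : E n ≃ₗᵢ[ℝ] E n) (v : Sph n) : Sph n := ⟨ϑ v, by simp⟩

theorem ext0_comp_act {n : ℕ} (f : Sph n → ℝ) (ϑ : E n ≃ₗᵢ[ℝ] E n) (x : E n) :
    ext0 (fun v => f (act ϑ v)) x = ext0 f (ϑ x) := by
  by_cases hx : x = 0
  · simp [ext0, hx]
  · have hx' : ϑ x ≠ 0 := by simpa using hx
    rw [ext0_apply _ hx, ext0_apply _ hx']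
    congr 1
    ext1
    simp [act]

/-- `f ∘ ϑ` for `f ∈ C^∞(S^{n-1})` and an isometry `ϑ` -/
def smComp {n : ℕ} (f : SmoothFun n) (ϑ : E n ≃ₗᵢ[ℝ] E n) : SmoothFun n :=
  ⟨fun v => f.1 (act ϑ v), by
    have h : ContDiffOn ℝ ∞ (ext0 f.1) {0}ᶜ := f.2
    show ContDiffOn ℝ ∞ (ext0 fun v => f.1 (act ϑ v)) {0}ᶜ
    have h2 : (ext0 fun v => f.1 (act ϑ v)) = ext0 f.1 ∘ ϑ := by
      ext x; exact ext0_comp_act f.1 ϑ x
    rw [h2]
    refine h.comp ϑ.contDiff.contDiffOn ?_
    intro x hx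
    simpa using hx⟩

/-- `ϑ ∈ SO(n)` -/
def IsRot {n : ℕ} (ϑ : E n ≃ₗᵢ[ℝ] E n) : Prop :=
  LinearMap.det (ϑ.toLinearEquiv : E n →ₗ[ℝ] E n) = 1

/-- linear functionals on `C^∞(S^{n-1})` -/
abbrev Distr (n : ℕ) := SmoothFun n →ₗ[ℝ] ℝ

/-- the value `μ(f)` -/
def val {n : ℕ} (μ : Distr n) (f : SmoothFun n) : ℝ := μ f

/-- continuity of a linear functional on `C^∞(S^{n-1})`: it is bounded by a `C^k` norm of the extension
constant on rays -/
def IsContFun {n : ℕ} (μ : Distr n) : Prop :=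
  ∃ (k : ℕ) (C : ℝ), ∀ (f : SmoothFun n) (M : ℝ),
    (∀ j ≤ k, ∀ x : E n, ‖x‖ = 1 → ‖iteratedFDeriv ℝ j (ext0 f.1) x‖ ≤ M) → |val μ f| ≤ C * M

/-- invariance under the rotations which fix `e` -/
def IsZonalFun {n : ℕ} (e : E n) (μ : Distr n) : Prop :=
  ∀ ϑ : E n ≃ₗᵢ[ℝ] E n, IsRot ϑ → ϑ e = e → ∀ f : SmoothFun n, val μ (smComp f ϑ) = val μ f

/-- A zonal distribution with pole `e`: a linear functional on `C^∞(S^{n-1})`, continuous (bounded by a
`C^k` norm of the extension constant on rays), and invariant under the rotations which fix `e`. -/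
structure IsZonalDistribution {n : ℕ} (e : E n) (μ : Distr n) : Prop where
  continuous : IsContFun μ
  zonal : IsZonalFun e μ

/-- the support function of a convex body, on all of `ℝⁿ` -/
def supp {n : ℕ} (K : ConvexBody (E n)) (u : E n) : ℝ :=
  sSup ((fun x => inner ℝ x u) '' (K : Set (E n)))

/-- the support function of a convex body, on the sphere -/
def hS {n : ℕ} (K : ConvexBody (E n)) (u : Sph n) : ℝ := supp K (u : E n)

/-- convex bodies of `ℝⁿ` (Mathlib: nonempty compact convex sets, Hausdorff metric, Minkowski sum) -/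
abbrev Body (n : ℕ) := ConvexBody (E n)

/-- `T(ϑ K) = ϑ (T K)` for all rotations `ϑ` -/
def RotEquivariant {n : ℕ} (T : Body n → Body n) : Prop :=
  ∀ ϑ : E n ≃ₗᵢ[ℝ] E n, IsRot ϑ → ∀ K L : Body n,
    (L : Set (E n)) = ϑ '' (K : Set (E n)) → (T L : Set (E n)) = ϑ '' (T K : Set (E n))

/-- Admissible maps: continuous for the Hausdorff metric, Minkowski additive and equivariant under
the rotations. -/
structure Admissible {n : ℕ} (T : Body n → Body n) : Prop where
  continuous : Continuous T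
  add : ∀ (K L : Body n) (u : Sph n), hS (T (K + L)) u = hS (T K) u + hS (T L) u
  equivariant : RotEquivariant T

/-- the support function of a body, as an element of `C^∞(S^{n-1})` when it is smooth -/
def suppS {n : ℕ} (K : Body n) (hK : IsSmooth (hS K)) : SmoothFun n := ⟨hS K, hK⟩

/-- `μ` generates `T`: `h_{TK} = h_K * μ` for every body `K` with `C^∞` support function, that is
`h_{TK}(ϑ e) = μ (h_K ∘ ϑ)` for all rotations `ϑ`. -/
def Generates {n : ℕ} (e : Sph n) (μ : Distr n) (T : Body n → Body n) : Prop :=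
  ∀ (K : Body n) (hK : IsSmooth (hS K)) (ϑ : E n ≃ₗᵢ[ℝ] E n), IsRot ϑ →
    hS (T K) (act ϑ e) = val μ (smComp (suppS K hK) ϑ)

end

end Pool.Agent.Helper115_ME
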