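import Mathlib
import Pool.Agent.Helper115_ME.Base

/-!
# The rotations in the plane of two orthonormal vectors
-/

set_option autoImplicit false

namespace Pool.Agent.Helper115_ME

open MeasureTheory Metric Set
open scoped ContDiff

noncomputable section

variable {n : ℕ}

/-- the linear map which rotates the plane of `e, w` by the angle `θ` (from `e` towards `w`) and
fixes its orthogonal complement -/
def planeRotLin (e w : E n) (θ : ℝ) : E n →ₗ[ℝ] E n where
  toFun x := x + ((Real.cos θ - 1) * inner ℝ e x - Real.sin θ * inner ℝ w x) • e +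
    ((Real.cos θ - 1) * inner ℝ w x + Real.sin θ * inner ℝ e x) • w
  map_add' x y := by
    simp only [inner_add_right]
    module
  map_smul' c x := by
    simp only [inner_smul_right, RingHom.id_apply]
    module

theorem pair_orthonormal {e w : E n} (h : Orthonormal ℝ ![e, w]) :
    ‖e‖ = 1 ∧ ‖w‖ = 1 ∧ inner ℝ e w = (0 : ℝ) := by
  refine ⟨h.1 0, h.1 1, h.2 (i := 0) (j := 1) (by decide)⟩

theorem orthonormal_pair {e w : E n} (he : ‖e‖ = 1) (hw : ‖w‖ = 1) (hew : inner ℝ e w = (0 : ℝ)) :
    Orthonormal ℝ ![e, w] := by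
  refine ⟨fun i => ?_, fun i j hij => ?_⟩
  · fin_cases i
    · exact he
    · exact hw
  · fin_cases i <;> fin_cases j
    · exact absurd rfl hij
    · exact hew
    · show inner ℝ w e = 0
      rw [real_inner_comm]; exact hew
    · exact absurd rfl hij

theorem norm_planeRotLin {e w : E n} (h : Orthonormal ℝ ![e, w]) (θ : ℝ) (x : E n) :
    ‖planeRotLin e w θ x‖ = ‖x‖ := by
  obtain ⟨he, hw, hew⟩ := pair_orthonormal h
  have hwe : inner ℝ w e = (0 : ℝ) := by rw [real_inner_comm]; exact hew
  have hee : inner ℝ e e = (1 : ℝ) := by rw [real_inner_self_eq_norm_sq, he]; norm_num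
  have hww : inner ℝ w w = (1 : ℝ) := by rw [real_inner_self_eq_norm_sq, hw]; norm_num
  have h1 : ‖planeRotLin e w θ x‖ ^ 2 = ‖x‖ ^ 2 := by
    rw [← real_inner_self_eq_norm_sq, ← real_inner_self_eq_norm_sq]
    show inner ℝ (x + ((Real.cos θ - 1) * inner ℝ e x - Real.sin θ * inner ℝ w x) • e +
      ((Real.cos θ - 1) * inner ℝ w x + Real.sin θ * inner ℝ e x) • w)
      (x + ((Real.cos θ - 1) * inner ℝ e x - Real.sin θ * inner ℝ w x) • e +
      ((Real.cos θ - 1) * inner ℝ w x + Real.sin θ * inner ℝ e x) • w) = _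
    simp only [inner_add_left, inner_add_right, inner_smul_left, inner_smul_right, hee, hww, hew, hwe,
      RCLike.conj_to_real, real_inner_comm e x, real_inner_comm w x]
    have hcs := Real.sin_sq_add_cos_sq θ
    rw [real_inner_comm x e, real_inner_comm x w]
    ring_nf
    nlinarith [hcs]
  have := congrArg Real.sqrt h1
  rwa [Real.sqrt_sq (norm_nonneg _), Real.sqrt_sq (norm_nonneg _)] at this

/-- the rotation of `ℝⁿ` by the angle `θ` in the plane of the orthonormal pair `e, w`: it maps `e` to
`cos θ • e + sin θ • w` and `w` to `- sin θ • e + cos θ • w` -/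
def planeRot {e w : E n} (h : Orthonormal ℝ ![e, w]) (θ : ℝ) : E n ≃ₗᵢ[ℝ] E n :=
  LinearIsometry.toLinearIsometryEquiv ⟨planeRotLin e w θ, norm_planeRotLin h θ⟩ rfl

theorem planeRot_apply {e w : E n} (h : Orthonormal ℝ ![e, w]) (θ : ℝ) (x : E n) :
    planeRot h θ x = x + ((Real.cos θ - 1) * inner ℝ e x - Real.sin θ * inner ℝ w x) • e +
      ((Real.cos θ - 1) * inner ℝ w x + Real.sin θ * inner ℝ e x) • w := rfl

end

end Pool.Agent.Helper115_ME
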