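import Mathlib
import Pool.Agent.Helper115_ME.Rot

/-!
# Polynomials and zonal polynomials on the sphere
-/

set_option autoImplicit false

namespace Pool.Agent.Helper115_ME

open MeasureTheory Metric Set
open scoped ContDiff

noncomputable section

variable {n : ℕ}

theorem contDiffOn_normalize : ContDiffOn ℝ ∞ (fun x : E n => ‖x‖⁻¹ • x) {0}ᶜ := by
  intro x hx
  have hx0 : x ≠ 0 := by simpa using hx
  have h1 : ContDiffAt ℝ ∞ (fun x : E n => ‖x‖) x := contDiffAt_norm ℝ hx0
  exact ((h1.inv (norm_ne_zero_iff.2 hx0)).smul contDiffAt_id).contDiffWithinAt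

theorem isSmooth_of_contDiff {F : E n → ℝ} (hF : ContDiff ℝ ∞ F) :
    IsSmooth (fun v : Sph n => F (v : E n)) := by
  have h : ∀ x ∈ ({0}ᶜ : Set (E n)), (ext0 fun v : Sph n => F (v : E n)) x = F (‖x‖⁻¹ • x) := by
    intro x hx
    rw [ext0_apply _ (by simpa using hx)]
  exact ContDiffOn.congr (hF.comp_contDiffOn contDiffOn_normalize) h

theorem contDiff_mvPolynomial (P : MvPolynomial (Fin n) ℝ) :
    ContDiff ℝ ∞ (fun x : E n => MvPolynomial.eval x.ofLp P) := by
  induction P using MvPolynomial.induction_on with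
  | C a => simpa using contDiff_const
  | add p q hp hq =>
    simp only [map_add]
    exact hp.add hq
  | mul_X p i hp =>
    simp only [map_mul, MvPolynomial.eval_X]
    exact hp.mul (contDiff_piLp_apply (p := 2) (i := i))

theorem contDiff_zonal (e : E n) (q : Polynomial ℝ) :
    ContDiff ℝ ∞ (fun x : E n => q.eval (inner ℝ e x)) := by
  have h : ContDiff ℝ ∞ (fun t : ℝ => q.eval t) := by
    simpa using (Polynomial.contDiff_aeval q ∞ : ContDiff ℝ ∞ (fun t : ℝ => Polynomial.aeval t q))
  exact h.comp (contDiff_const.inner ℝ contDiff_id)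

/-- the restriction to the sphere of a polynomial of `ℝⁿ` -/
def polyS (P : MvPolynomial (Fin n) ℝ) : SmoothFun n :=
  ⟨fun v => MvPolynomial.eval (v : E n).ofLp P, isSmooth_of_contDiff (contDiff_mvPolynomial P)⟩

/-- the zonal function `v ↦ q(⟨e, v⟩)` -/
def zonS (e : E n) (q : Polynomial ℝ) : SmoothFun n :=
  ⟨fun v => q.eval (inner ℝ e (v : E n)), isSmooth_of_contDiff (contDiff_zonal e q)⟩

end

end Pool.Agent.Helper115_ME
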