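import Mathlib
import Pool.Agent.Helper115_ME.Rot

set_option autoImplicit false

namespace Pool.Agent.Helper115_ME

open MeasureTheory Metric Set
open scoped ContDiff

noncomputable section

variable {n : ℕ}

theorem planeRot_zero {e w : E n} (h : Orthonormal ℝ ![e, w]) (x : E n) : planeRot h 0 x = x := by
  rw [planeRot_apply, Real.cos_zero, Real.sin_zero]
  simp

theorem planeRot_add {e w : E n} (h : Orthonormal ℝ ![e, w]) (s t : ℝ) (x : E n) :
    planeRot h (s + t) x = planeRot h s (planeRot h t x) := by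
  obtain ⟨he, hw, hew⟩ := pair_orthonormal h
  have hwe : inner ℝ w e = (0 : ℝ) := by rw [real_inner_comm]; exact hew
  have hee : inner ℝ e e = (1 : ℝ) := by rw [real_inner_self_eq_norm_sq, he]; norm_num
  have hww : inner ℝ w w = (1 : ℝ) := by rw [real_inner_self_eq_norm_sq, hw]; norm_num
  rw [planeRot_apply h (s + t), planeRot_apply h s, planeRot_apply h t, Real.cos_add, Real.sin_add]
  simp only [inner_add_right, inner_smul_right, hee, hww, hew, hwe]
  module

theorem planeRot_fst {e w : E n} (h : Orthonormal ℝ ![e, w]) (s : ℝ) :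
    planeRot h s e = Real.cos s • e + Real.sin s • w := by
  obtain ⟨he, hw, hew⟩ := pair_orthonormal h
  have hwe : inner ℝ w e = (0 : ℝ) := by rw [real_inner_comm]; exact hew
  have hee : inner ℝ e e = (1 : ℝ) := by rw [real_inner_self_eq_norm_sq, he]; norm_num
  rw [planeRot_apply, hee, hwe]
  module

theorem planeRot_snd {e w : E n} (h : Orthonormal ℝ ![e, w]) (s : ℝ) :
    planeRot h s w = - Real.sin s • e + Real.cos s • w := by
  obtain ⟨he, hw, hew⟩ := pair_orthonormal h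
  have hww : inner ℝ w w = (1 : ℝ) := by rw [real_inner_self_eq_norm_sq, hw]; norm_num
  rw [planeRot_apply, hew, hww]
  module

theorem A13_det_pm (ϑ : E n ≃ₗᵢ[ℝ] E n) :
    LinearMap.det (ϑ.toLinearEquiv : E n →ₗ[ℝ] E n) = 1 ∨
      LinearMap.det (ϑ.toLinearEquiv : E n →ₗ[ℝ] E n) = -1 := by
  have b := EuclideanSpace.basisFun (Fin n) ℝ
  have h1 := b.det_to_matrix_orthonormalBasis_real (b.map ϑ)
  have h2 : ((b.map ϑ : OrthonormalBasis (Fin n) ℝ (E n)) : Fin n → E n) =
      (ϑ.toLinearEquiv : E n →ₗ[ℝ] E n) ∘ (b.toBasis : Fin n → E n) := by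
    funext i
    simp
  rw [h2, Module.Basis.det_comp, Module.Basis.det_self, mul_one] at h1
  exact h1

theorem isRot_trans {ϑ η : E n ≃ₗᵢ[ℝ] E n} (h1 : IsRot ϑ) (h2 : IsRot η) : IsRot (ϑ.trans η) := by
  unfold IsRot at *
  have h3 : ((ϑ.trans η).toLinearEquiv : E n →ₗ[ℝ] E n) =
      (η.toLinearEquiv : E n →ₗ[ℝ] E n) ∘ₗ (ϑ.toLinearEquiv : E n →ₗ[ℝ] E n) := rfl
  rw [h3, LinearMap.det_comp, h1, h2, mul_one]

theorem A13_trans_det (ϑ η : E n ≃ₗᵢ[ℝ] E n) :
    LinearMap.det ((ϑ.trans η).toLinearEquiv : E n →ₗ[ℝ] E n) =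
      LinearMap.det (η.toLinearEquiv : E n →ₗ[ℝ] E n) *
        LinearMap.det (ϑ.toLinearEquiv : E n →ₗ[ℝ] E n) := by
  have h3 : ((ϑ.trans η).toLinearEquiv : E n →ₗ[ℝ] E n) =
      (η.toLinearEquiv : E n →ₗ[ℝ] E n) ∘ₗ (ϑ.toLinearEquiv : E n →ₗ[ℝ] E n) := rfl
  rw [h3, LinearMap.det_comp]

theorem isRot_planeRot {e w : E n} (h : Orthonormal ℝ ![e, w]) (s : ℝ) : IsRot (planeRot h s) := by
  have h1 : planeRot h s = (planeRot h (s / 2)).trans (planeRot h (s / 2)) := by
    ext1 x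
    rw [LinearIsometryEquiv.trans_apply, ← planeRot_add, add_halves]
  unfold IsRot
  rw [h1, A13_trans_det]
  rcases A13_det_pm (planeRot h (s / 2)) with h2 | h2 <;> rw [h2] <;> norm_num

theorem isRot_symm {ϑ : E n ≃ₗᵢ[ℝ] E n} (h1 : IsRot ϑ) : IsRot ϑ.symm := by
  have h2 : LinearMap.det ((ϑ.trans ϑ.symm).toLinearEquiv : E n →ₗ[ℝ] E n) = 1 := by
    rw [LinearIsometryEquiv.self_trans_symm]
    exact LinearMap.det_id
  rw [A13_trans_det] at h2
  unfold IsRot at h1
  rw [h1, mul_one] at h2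
  exact h2

theorem A13_ext (b b' : OrthonormalBasis (Fin n) ℝ (E n)) (j : Fin n) :
    ∃ ϑ : E n ≃ₗᵢ[ℝ] E n, IsRot ϑ ∧ ∀ i, i ≠ j → ϑ (b i) = b' i := by
  have h0 : ∀ i, b.equiv b' (Equiv.refl _) (b i) = b' i := fun i => by simp
  rcases A13_det_pm (b.equiv b' (Equiv.refl _)) with h1 | h1
  · exact ⟨_, h1, fun i _ => h0 i⟩
  · refine ⟨(b.equiv b' (Equiv.refl _)).trans (Submodule.reflection (Submodule.span ℝ {b' j})ᗮ),
      ?_, fun i hi => ?_⟩
    · unfold IsRot
      rw [A13_trans_det, h1]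
      have h2 : LinearMap.det ((Submodule.reflection (Submodule.span ℝ {b' j})ᗮ).toLinearEquiv :
          E n →ₗ[ℝ] E n) = (-1) ^ Module.finrank ℝ ((Submodule.span ℝ {b' j})ᗮᗮ : Submodule ℝ (E n)) :=
        Submodule.det_reflection _
      have h3 : b' j ≠ 0 := b'.orthonormal.ne_zero j
      rw [h2, Submodule.orthogonal_orthogonal, finrank_span_singleton h3]
      norm_num
    · rw [LinearIsometryEquiv.trans_apply, h0]
      apply Submodule.reflection_mem_subspace_eq_self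
      rw [Submodule.mem_orthogonal_singleton_iff_inner_right]
      exact b'.orthonormal.2 (Ne.symm hi)

theorem exists_rot_one (hn : 2 ≤ n) {e u : E n} (he : ‖e‖ = 1) (hu : ‖u‖ = 1) :
    ∃ ϑ : E n ≃ₗᵢ[ℝ] E n, IsRot ϑ ∧ ϑ e = u := by
  have key : ∀ e : E n, ‖e‖ = 1 → ∃ b : OrthonormalBasis (Fin n) ℝ (E n),
      b ⟨0, by omega⟩ = e := by
    intro e he
    obtain ⟨b, hb⟩ := Orthonormal.exists_orthonormalBasis_extension_of_card_eq
      (𝕜 := ℝ) (E := E n) (ι := Fin n) (by simp) (v := fun _ => e) (s := {⟨0, by omega⟩}) (by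
        refine ⟨fun i => he, fun i j hij => ?_⟩
        exact absurd (Subsingleton.elim i j) hij)
    exact ⟨b, hb _ rfl⟩
  obtain ⟨b, hb⟩ := key e he
  obtain ⟨b', hb'⟩ := key u hu
  obtain ⟨ϑ, h1, h2⟩ := A13_ext b b' ⟨1, by omega⟩
  refine ⟨ϑ, h1, ?_⟩
  rw [← hb, ← hb']
  exact h2 _ (by simp [Fin.ext_iff])

theorem exists_rot_two (hn : 3 ≤ n) {e w u v : E n} (h : Orthonormal ℝ ![e, w]) (h' : Orthonormal ℝ ![u, v]) :
    ∃ ϑ : E n ≃ₗᵢ[ℝ] E n, IsRot ϑ ∧ ϑ e = u ∧ ϑ w = v := by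
  have key : ∀ e w : E n, Orthonormal ℝ ![e, w] → ∃ b : OrthonormalBasis (Fin n) ℝ (E n),
      b ⟨0, by omega⟩ = e ∧ b ⟨1, by omega⟩ = w := by
    intro e w h
    obtain ⟨he, hw, hew⟩ := pair_orthonormal h
    obtain ⟨b, hb⟩ := Orthonormal.exists_orthonormalBasis_extension_of_card_eq
      (𝕜 := ℝ) (E := E n) (ι := Fin n) (by simp) (v := fun i => if (i : ℕ) = 0 then e else w)
      (s := {⟨0, by omega⟩, ⟨1, by omega⟩}) (by
        refine ⟨fun i => ?_, fun i j hij => ?_⟩
        · obtain ⟨i, hi⟩ := i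
          simp only [Set.domRestrict_apply]
          split_ifs
          · exact he
          · exact hw
        · obtain ⟨i, hi⟩ := i
          obtain ⟨j, hj⟩ := j
          simp only [Set.domRestrict_apply]
          rcases hi with rfl | hi
          · rcases hj with rfl | hj
            · exact absurd rfl hij
            · rw [Set.mem_singleton_iff] at hj
              subst hj
              simpa using hew
          · rw [Set.mem_singleton_iff] at hi
            subst hi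
            rcases hj with rfl | hj
            · simp
              rw [real_inner_comm]
              exact hew
            · rw [Set.mem_singleton_iff] at hj
              subst hj
              exact absurd rfl hij)
    refine ⟨b, ?_, ?_⟩
    · rw [hb _ (by simp)]; simp
    · rw [hb _ (by simp)]; simp
  obtain ⟨b, hb0, hb1⟩ := key e w h
  obtain ⟨b', hb0', hb1'⟩ := key u v h'
  obtain ⟨ϑ, h1, h2⟩ := A13_ext b b' ⟨2, by omega⟩
  refine ⟨ϑ, h1, ?_, ?_⟩
  · rw [← hb0, ← hb0']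
    exact h2 _ (by simp [Fin.ext_iff])
  · rw [← hb1, ← hb1']
    exact h2 _ (by simp [Fin.ext_iff])

end

end Pool.Agent.Helper115_ME
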