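import Mathlib
import Pool.Agent.Helper115_ME.PolyS
import Pool.Agent.Helper115_ME.RotFacts

set_option autoImplicit false

namespace Pool.Agent.Helper115_ME

open MeasureTheory Metric Set
open scoped ContDiff

noncomputable section

variable {n : ℕ}


namespace AvgAux

/-- evaluation of polynomials as functions -/
def evalLin (n : ℕ) : MvPolynomial (Fin n) ℝ →ₗ[ℝ] (E n → ℝ) where
  toFun p := fun x => MvPolynomial.eval x.ofLp p
  map_add' p q := by ext x; simp
  map_smul' c p := by ext x; simp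

/-- polynomial functions of bounded degree -/
def PV (n D : ℕ) : Submodule ℝ (E n → ℝ) :=
  (MvPolynomial.restrictTotalDegree (Fin n) ℝ D).map (evalLin n)

instance (n D : ℕ) : FiniteDimensional ℝ (PV n D) := by
  unfold PV; infer_instance

theorem mem_PV {D : ℕ} {f : E n → ℝ} :
    f ∈ PV n D ↔ ∃ p : MvPolynomial (Fin n) ℝ, p.totalDegree ≤ D ∧
      ∀ x, f x = MvPolynomial.eval x.ofLp p := by
  unfold PV
  rw [Submodule.mem_map]
  constructor
  · rintro ⟨p, hp, rfl⟩
    exact ⟨p, (MvPolynomial.mem_restrictTotalDegree _ _ _).mp hp, fun x => rfl⟩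
  · rintro ⟨p, hp, hf⟩
    exact ⟨p, (MvPolynomial.mem_restrictTotalDegree _ _ _).mpr hp, by ext x; exact (hf x).symm⟩

theorem PV_continuous {D : ℕ} (f : PV n D) : Continuous f.1 := by
  obtain ⟨p, -, hp⟩ := mem_PV.mp f.2
  have : f.1 = fun x : E n => MvPolynomial.eval x.ofLp p := funext hp
  rw [this]
  exact (contDiff_mvPolynomial p).continuous

/-- substituting linear forms does not raise the degree -/
theorem comp_mem {D : ℕ} {f : E n → ℝ} (hf : f ∈ PV n D) (ϑ : E n ≃ₗᵢ[ℝ] E n) :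
    (fun x => f (ϑ x)) ∈ PV n D := by
  obtain ⟨p, hp, hpf⟩ := mem_PV.mp hf
  let ℓ : Fin n → MvPolynomial (Fin n) ℝ := fun i =>
    ∑ j, MvPolynomial.C ((ϑ (EuclideanSpace.single j (1 : ℝ))).ofLp i) * MvPolynomial.X j
  have hℓ : ∀ i, (ℓ i).totalDegree ≤ 1 := by
    intro i
    apply MvPolynomial.totalDegree_finsetSum_le
    intro j _
    refine (MvPolynomial.totalDegree_mul _ _).trans ?_
    rw [MvPolynomial.totalDegree_C]
    simp
  have hℓe : ∀ (x : E n) i, MvPolynomial.eval x.ofLp (ℓ i) = (ϑ x).ofLp i := by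
    intro x i
    have hx : x = ∑ j, x.ofLp j • EuclideanSpace.single j (1 : ℝ) := by
      ext k
      simp [Finset.sum_apply, Pi.single_apply]
    conv_rhs => rw [hx]
    simp only [ℓ, map_sum, map_mul, MvPolynomial.eval_C, MvPolynomial.eval_X, map_smul]
    simp only [WithLp.ofLp_sum, WithLp.ofLp_smul, Finset.sum_apply, Pi.smul_apply, smul_eq_mul]
    exact Finset.sum_congr rfl fun j _ => mul_comm _ _
  refine mem_PV.mpr ⟨MvPolynomial.aeval ℓ p, ?_, ?_⟩
  · rw [MvPolynomial.aeval_def, MvPolynomial.eval₂_eq]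
    apply MvPolynomial.totalDegree_finsetSum_le
    intro d hd
    refine (MvPolynomial.totalDegree_mul _ _).trans ?_
    have h1 : (algebraMap ℝ (MvPolynomial (Fin n) ℝ) (MvPolynomial.coeff d p)).totalDegree = 0 := by
      rw [MvPolynomial.algebraMap_eq, MvPolynomial.totalDegree_C]
    rw [h1, zero_add]
    refine (MvPolynomial.totalDegree_finsetProd _ _).trans ?_
    refine le_trans ?_ ((MvPolynomial.le_totalDegree hd).trans hp)
    rw [Finsupp.sum]
    apply Finset.sum_le_sum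
    intro i _
    refine (MvPolynomial.totalDegree_pow _ _).trans ?_
    have := hℓ i
    nlinarith
  · intro x
    rw [hpf (ϑ x)]
    have h2 : MvPolynomial.eval x.ofLp (MvPolynomial.aeval ℓ p) =
        MvPolynomial.eval (fun i => MvPolynomial.eval x.ofLp (ℓ i)) p := by
      have : (MvPolynomial.eval x.ofLp).comp (MvPolynomial.aeval ℓ : _ →ₐ[ℝ] _).toRingHom =
          MvPolynomial.eval (fun i => MvPolynomial.eval x.ofLp (ℓ i)) := by
        apply MvPolynomial.ringHom_ext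
        · intro r; simp
        · intro i; simp
      exact congrArg (fun g => g p) this
    rw [h2]
    congr 2
    funext i
    exact (hℓe x i).symm

/-- composition with an isometry on polynomial functions -/
def compV (D : ℕ) (ϑ : E n ≃ₗᵢ[ℝ] E n) : PV n D →ₗ[ℝ] PV n D where
  toFun f := ⟨fun x => f.1 (ϑ x), comp_mem f.2 ϑ⟩
  map_add' _ _ := rfl
  map_smul' _ _ := rfl

/-- restriction to the sphere -/
def resV (D : ℕ) : PV n D →ₗ[ℝ] SmoothFun n where
  toFun f := ⟨fun v => f.1 (v : E n), by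
    obtain ⟨p, -, hp⟩ := mem_PV.mp f.2
    have : f.1 = fun x : E n => MvPolynomial.eval x.ofLp p := funext hp
    rw [this]
    exact isSmooth_of_contDiff (contDiff_mvPolynomial p)⟩
  map_add' _ _ := rfl
  map_smul' _ _ := rfl

/-- evaluation at a point -/
def evV (D : ℕ) (x : E n) : PV n D →ₗ[ℝ] ℝ where
  toFun f := f.1 x
  map_add' _ _ := rfl
  map_smul' _ _ := rfl

/-- the volume of the ball -/
def bm (n : ℕ) : Measure (E n) := (volume : Measure (E n)).restrict (closedBall 0 1)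

instance : IsFiniteMeasure (bm n) := by
  unfold bm
  constructor
  rw [Measure.restrict_apply MeasurableSet.univ, Set.univ_inter]
  exact measure_closedBall_lt_top

theorem memLp_PV {D : ℕ} (f : PV n D) : MemLp f.1 2 (bm n) := by
  obtain ⟨C, hC⟩ := (isCompact_closedBall (0 : E n) 1).exists_bound_of_continuousOn
    (PV_continuous f).continuousOn
  refine MemLp.of_bound (PV_continuous f).aestronglyMeasurable C ?_
  unfold bm
  rw [ae_restrict_iff' measurableSet_closedBall]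
  exact Filter.Eventually.of_forall hC

/-- the `L²` class -/
def lpV (D : ℕ) : PV n D →ₗ[ℝ] Lp ℝ 2 (bm n) where
  toFun f := (memLp_PV f).toLp f.1
  map_add' f g := (memLp_PV f).toLp_add (memLp_PV g)
  map_smul' c f := (memLp_PV f).toLp_const_smul c

theorem norm_lpV_comp {D : ℕ} (f : PV n D) (ϑ : E n ≃ₗᵢ[ℝ] E n) :
    ‖lpV D (compV D ϑ f)‖ = ‖lpV D f‖ := by
  have h1 : MeasurePreserving ϑ (bm n) (bm n) := by
    have h2 : MeasurePreserving ϑ (volume : Measure (E n)) volume := ϑ.measurePreserving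
    have h3 := h2.restrict_preimage (s := closedBall (0 : E n) 1) measurableSet_closedBall
    have h4 : ϑ ⁻¹' (closedBall (0 : E n) 1) = closedBall (0 : E n) 1 := by
      ext x; simp
    rw [h4] at h3
    exact h3
  show ‖(memLp_PV (compV D ϑ f)).toLp _‖ = ‖(memLp_PV f).toLp _‖
  rw [Lp.norm_toLp, Lp.norm_toLp]
  congr 1
  exact eLpNorm_comp_measurePreserving (PV_continuous f).aestronglyMeasurable h1

theorem eq_of_lpV {D : ℕ} {f g : PV n D} (h : lpV D f = lpV D g) (x : E n) (hx : ‖x‖ ≤ 1) :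
    f.1 x = g.1 x := by
  have h1 : f.1 =ᵐ[bm n] g.1 := ((memLp_PV f).toLp_eq_toLp_iff (memLp_PV g)).mp h
  have h2 : f.1 =ᵐ[(volume : Measure (E n)).restrict (ball 0 1)] g.1 :=
    ae_restrict_of_ae_restrict_of_subset ball_subset_closedBall h1
  have h3 : EqOn f.1 g.1 (ball 0 1) :=
    Measure.eqOn_open_of_ae_eq h2 isOpen_ball (PV_continuous f).continuousOn
      (PV_continuous g).continuousOn
  have h4 : EqOn f.1 g.1 (closure (ball 0 1)) := h3.closure (PV_continuous f) (PV_continuous g)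
  rw [closure_ball (0 : E n) one_ne_zero] at h4
  exact h4 (by simpa using hx)

/-- on a circle a polynomial is `A(t) + s B(t)` -/
theorem circle_form (e w : E n) (P : MvPolynomial (Fin n) ℝ) :
    ∃ A B : Polynomial ℝ, ∀ s t : ℝ, s ^ 2 + t ^ 2 = 1 →
      MvPolynomial.eval (s • w + t • e).ofLp P = A.eval t + s * B.eval t := by
  induction P using MvPolynomial.induction_on with
  | C a => exact ⟨Polynomial.C a, 0, fun s t _ => by simp⟩
  | add p q hp hq =>
    obtain ⟨A, B, h⟩ := hp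
    obtain ⟨A', B', h'⟩ := hq
    refine ⟨A + A', B + B', fun s t hst => ?_⟩
    rw [map_add, h s t hst, h' s t hst]
    simp only [Polynomial.eval_add]
    ring
  | mul_X p i hp =>
    obtain ⟨A, B, h⟩ := hp
    refine ⟨Polynomial.X * Polynomial.C (e.ofLp i) * A +
      (1 - Polynomial.X ^ 2) * Polynomial.C (w.ofLp i) * B,
      Polynomial.C (w.ofLp i) * A + Polynomial.X * Polynomial.C (e.ofLp i) * B,
      fun s t hst => ?_⟩
    rw [map_mul, h s t hst, MvPolynomial.eval_X]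
    simp only [WithLp.ofLp_add, WithLp.ofLp_smul, Pi.add_apply, Pi.smul_apply, smul_eq_mul,
      Polynomial.eval_add, Polynomial.eval_mul, Polynomial.eval_X, Polynomial.eval_C,
      Polynomial.eval_sub, Polynomial.eval_one, Polynomial.eval_pow]
    have hs : s ^ 2 = 1 - t ^ 2 := by linarith
    rw [← hs]
    ring

/-- there is a unit vector orthogonal to two given vectors -/
theorem exists_perp (hn : 3 ≤ n) (e w : E n) :
    ∃ z : E n, ‖z‖ = 1 ∧ inner ℝ e z = (0 : ℝ) ∧ inner ℝ w z = (0 : ℝ) := by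
  let S : Submodule ℝ (E n) := Submodule.span ℝ {e, w}
  have h1 : Module.finrank ℝ S ≤ 2 := by
    have h0 : Module.finrank ℝ (Submodule.span ℝ (Set.range ![e, w])) ≤ 2 := by
      have := finrank_range_le_card (R := ℝ) ![e, w]
      simpa [Set.finrank] using this
    have h00 : Set.range ![e, w] = {e, w} := by
      rw [Matrix.range_cons, Matrix.range_cons, Matrix.range_empty, Set.union_empty]
      rfl
    rw [h00] at h0
    exact h0
  have h2 : Module.finrank ℝ S + Module.finrank ℝ Sᗮ = n := by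
    rw [Submodule.finrank_add_finrank_orthogonal]; simp
  have h3 : 0 < Module.finrank ℝ Sᗮ := by omega
  obtain ⟨z, hz⟩ := (Module.finrank_pos_iff_exists_ne_zero (R := ℝ) (M := Sᗮ)).mp h3
  have hz0 : (z : E n) ≠ 0 := by simpa using hz
  refine ⟨(‖(z : E n)‖)⁻¹ • (z : E n), ?_, ?_, ?_⟩
  · rw [norm_smul, norm_inv, norm_norm, inv_mul_cancel₀ (norm_ne_zero_iff.mpr hz0)]
  · rw [inner_smul_right, (Submodule.mem_orthogonal _ _).mp z.2 e
      (Submodule.subset_span (by simp)), mul_zero]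
  · rw [inner_smul_right, (Submodule.mem_orthogonal _ _).mp z.2 w
      (Submodule.subset_span (by simp)), mul_zero]

theorem refl_det {z : E n} (hz : z ≠ 0) :
    LinearMap.det ((Submodule.reflection (ℝ ∙ z)ᗮ).toLinearEquiv : E n →ₗ[ℝ] E n) = -1 := by
  have h := Submodule.det_reflection (ℝ ∙ z)ᗮ
  rw [Submodule.orthogonal_orthogonal, finrank_span_singleton hz, pow_one] at h
  exact h

theorem refl_fix {z x : E n} (h : inner ℝ z x = (0 : ℝ)) :
    Submodule.reflection (ℝ ∙ z)ᗮ x = x := by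
  rw [Submodule.reflection_mem_subspace_eq_self]
  rw [Submodule.mem_orthogonal_singleton_iff_inner_right]
  exact h

/-- rotations fixing `e` act transitively on the unit vectors orthogonal to `e` -/
theorem exists_rot (hn : 3 ≤ n) {e u w : E n} (hu : ‖u‖ = 1) (hw : ‖w‖ = 1)
    (heu : inner ℝ e u = (0 : ℝ)) (hew : inner ℝ e w = (0 : ℝ)) :
    ∃ ϑ : E n ≃ₗᵢ[ℝ] E n, IsRot ϑ ∧ ϑ e = e ∧ ϑ u = w := by
  by_cases huw : u = w
  · subst huw
    refine ⟨LinearIsometryEquiv.refl ℝ _, ?_, rfl, rfl⟩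
    unfold IsRot
    exact LinearMap.det_id
  · obtain ⟨z, hz, hez, hwz⟩ := exists_perp hn e w
    have hz0 : z ≠ 0 := by
      intro h; rw [h, norm_zero] at hz; exact zero_ne_one hz
    have huw0 : u - w ≠ 0 := sub_ne_zero.mpr huw
    refine ⟨(Submodule.reflection (ℝ ∙ (u - w))ᗮ).trans (Submodule.reflection (ℝ ∙ z)ᗮ),
      ?_, ?_, ?_⟩
    · unfold IsRot
      have h1 := refl_det hz0
      have h2 := refl_det huw0
      have h3 : (((Submodule.reflection (ℝ ∙ (u - w))ᗮ).trans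
          (Submodule.reflection (ℝ ∙ z)ᗮ)).toLinearEquiv : E n →ₗ[ℝ] E n) =
          ((Submodule.reflection (ℝ ∙ z)ᗮ).toLinearEquiv : E n →ₗ[ℝ] E n) ∘ₗ
          ((Submodule.reflection (ℝ ∙ (u - w))ᗮ).toLinearEquiv : E n →ₗ[ℝ] E n) := rfl
      rw [h3, LinearMap.det_comp, h1, h2]
      norm_num
    · show Submodule.reflection (ℝ ∙ z)ᗮ (Submodule.reflection (ℝ ∙ (u - w))ᗮ e) = e
      rw [refl_fix (x := e) (z := u - w), refl_fix]
      · rw [real_inner_comm]; exact hez
      · rw [real_inner_comm, inner_sub_right, heu, hew, sub_zero]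
    · show Submodule.reflection (ℝ ∙ z)ᗮ (Submodule.reflection (ℝ ∙ (u - w))ᗮ u) = w
      rw [Submodule.reflection_sub (by rw [hu, hw]), refl_fix]
      rw [real_inner_comm]; exact hwz

end AvgAux

/-! ### TARGET -/

theorem average_poly (hn : 3 ≤ n) (e : E n) (he : ‖e‖ = 1) (P : MvPolynomial (Fin n) ℝ) {M : ℝ}
    (hM : ∀ v : Sph n, |MvPolynomial.eval (v : E n).ofLp P| ≤ M) :
    ∃ q : Polynomial ℝ, (∀ t ∈ Set.Icc (-1 : ℝ) 1, |q.eval t| ≤ M) ∧
      ∀ μ : SmoothFun n →ₗ[ℝ] ℝ,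
        (∀ ϑ : E n ≃ₗᵢ[ℝ] E n, IsRot ϑ → ϑ e = e → ∀ f : SmoothFun n, μ (smComp f ϑ) = μ f) →
        μ (polyS P) = μ (zonS e q) := by
  classical
  set D := P.totalDegree with hD
  -- the polynomial function
  let f₁ : AvgAux.PV n D := ⟨fun x => MvPolynomial.eval x.ofLp P, AvgAux.mem_PV.mpr
    ⟨P, le_refl _, fun x => rfl⟩⟩
  let Ge : Set (E n ≃ₗᵢ[ℝ] E n) := {ϑ | IsRot ϑ ∧ ϑ e = e}
  have hGe1 : LinearIsometryEquiv.refl ℝ (E n) ∈ Ge := ⟨by
    show LinearMap.det _ = _
    exact LinearMap.det_id, rfl⟩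
  have hGe2 : ∀ ϑ ∈ Ge, ∀ ϑ' ∈ Ge, ϑ.trans ϑ' ∈ Ge := by
    rintro ϑ ⟨h1, h2⟩ ϑ' ⟨h1', h2'⟩
    refine ⟨?_, ?_⟩
    · have h3 : ((ϑ.trans ϑ').toLinearEquiv : E n →ₗ[ℝ] E n) =
          (ϑ'.toLinearEquiv : E n →ₗ[ℝ] E n) ∘ₗ (ϑ.toLinearEquiv : E n →ₗ[ℝ] E n) := rfl
      unfold IsRot at h1 h1' ⊢
      rw [h3, LinearMap.det_comp, h1, h1', one_mul]
    · show ϑ' (ϑ e) = e
      rw [h2, h2']
  let O : Set (AvgAux.PV n D) := (fun ϑ => AvgAux.compV D ϑ f₁) '' Ge
  let K : Set (AvgAux.PV n D) := closure (convexHull ℝ O)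
  have hOK : O ⊆ K := (subset_convexHull ℝ O).trans subset_closure
  have hKconv : Convex ℝ K := (convex_convexHull ℝ O).closure
  have hKmin : ∀ S : Set (AvgAux.PV n D), IsClosed S → Convex ℝ S → O ⊆ S → K ⊆ S :=
    fun S h1 h2 h3 => closure_minimal (convexHull_min h3 h2) h1
  have hKne : K.Nonempty := ⟨_, hOK ⟨_, hGe1, rfl⟩⟩
  -- compactness
  have hcont1 : Continuous f₁.1 := AvgAux.PV_continuous f₁
  have hbd : ∀ x : E n, ∃ C : ℝ, ∀ y : E n, ‖y‖ ≤ ‖x‖ → |f₁.1 y| ≤ C := by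
    intro x
    obtain ⟨C, hC⟩ := (isCompact_closedBall (0 : E n) ‖x‖).exists_bound_of_continuousOn
      hcont1.continuousOn
    exact ⟨C, fun y hy => hC y (by simpa using hy)⟩
  choose C hC using hbd
  let B : Set (E n → ℝ) := Set.pi Set.univ (fun x => Set.Icc (-C x) (C x))
  have hBcomp : IsCompact B := isCompact_univ_pi fun x => isCompact_Icc
  have hBconv : Convex ℝ B := convex_pi fun x _ => convex_Icc _ _
  have hVclosed : IsClosed ((AvgAux.PV n D : Submodule ℝ (E n → ℝ)) : Set (E n → ℝ)) :=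
    Submodule.closed_of_finiteDimensional _
  have hemb : Topology.IsClosedEmbedding (Subtype.val : AvgAux.PV n D → (E n → ℝ)) :=
    hVclosed.isClosedEmbedding_subtypeVal
  have hB'comp : IsCompact ((Subtype.val : AvgAux.PV n D → (E n → ℝ)) ⁻¹' B) :=
    hemb.isCompact_preimage hBcomp
  have hKB : K ⊆ (Subtype.val : AvgAux.PV n D → (E n → ℝ)) ⁻¹' B := by
    apply hKmin
    · exact hB'comp.isClosed
    · exact hBconv.linear_preimage (AvgAux.PV n D).subtype
    · rintro _ ⟨ϑ, -, rfl⟩ x _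
      have := hC x (ϑ x) (by simp)
      exact abs_le.mp this
  have hKcomp : IsCompact K := hB'comp.of_isClosed_subset isClosed_closure hKB
  -- least norm element
  have hlpcont : Continuous (AvgAux.lpV (n := n) D) := LinearMap.continuous_of_finiteDimensional _
  obtain ⟨f₀, hf₀K, hf₀min⟩ := hKcomp.exists_isMinOn hKne (hlpcont.norm.continuousOn)
  have hmin : ∀ g ∈ K, ‖AvgAux.lpV D f₀‖ ≤ ‖AvgAux.lpV D g‖ := fun g hg => hf₀min hg
  have huniq : ∀ g ∈ K, ‖AvgAux.lpV D g‖ = ‖AvgAux.lpV D f₀‖ →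
      AvgAux.lpV D g = AvgAux.lpV D f₀ := by
    intro g hg hgn
    have h1 : (1 / 2 : ℝ) • g + (1 / 2 : ℝ) • f₀ ∈ K :=
      hKconv hg hf₀K (by norm_num) (by norm_num) (by norm_num)
    have h2 := hmin _ h1
    rw [map_add, map_smul, map_smul, ← smul_add, norm_smul] at h2
    have h3 := parallelogram_law_with_norm ℝ (AvgAux.lpV D g) (AvgAux.lpV D f₀)
    rw [hgn] at h3
    have h4 : ‖(1 / 2 : ℝ)‖ = 1 / 2 := by norm_num
    rw [h4] at h2
    have h5 : ‖AvgAux.lpV D g - AvgAux.lpV D f₀‖ * ‖AvgAux.lpV D g - AvgAux.lpV D f₀‖ ≤ 0 := by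
      have h6 : 0 ≤ ‖AvgAux.lpV D f₀‖ := norm_nonneg _
      have h7 : 2 * ‖AvgAux.lpV D f₀‖ ≤ ‖AvgAux.lpV D g + AvgAux.lpV D f₀‖ := by linarith
      nlinarith
    have h8 : ‖AvgAux.lpV D g - AvgAux.lpV D f₀‖ = 0 := by
      have := norm_nonneg (AvgAux.lpV D g - AvgAux.lpV D f₀)
      nlinarith
    exact sub_eq_zero.mp (norm_eq_zero.mp h8)
  -- invariance of the hull
  have hKinv : ∀ ϑ ∈ Ge, ∀ g ∈ K, AvgAux.compV D ϑ g ∈ K := by
    intro ϑ hϑ g hg
    have hc : Continuous (AvgAux.compV (n := n) D ϑ) :=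
      LinearMap.continuous_of_finiteDimensional _
    have h1 : K ⊆ (AvgAux.compV D ϑ) ⁻¹' K := by
      apply hKmin
      · exact isClosed_closure.preimage hc
      · exact hKconv.linear_preimage _
      · rintro _ ⟨ϑ', hϑ', rfl⟩
        apply hOK
        exact ⟨ϑ.trans ϑ', hGe2 ϑ hϑ ϑ' hϑ', rfl⟩
    exact h1 hg
  have hinv : ∀ ϑ ∈ Ge, ∀ x : E n, ‖x‖ ≤ 1 → f₀.1 (ϑ x) = f₀.1 x := by
    intro ϑ hϑ x hx
    have h1 := huniq _ (hKinv ϑ hϑ f₀ hf₀K) (AvgAux.norm_lpV_comp f₀ ϑ)
    exact AvgAux.eq_of_lpV h1 x hx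
  -- bound
  have hbound : ∀ v : Sph n, |f₀.1 (v : E n)| ≤ M := by
    intro v
    have hc : Continuous (AvgAux.evV D (v : E n)) := LinearMap.continuous_of_finiteDimensional _
    have h1 : K ⊆ (AvgAux.evV D (v : E n)) ⁻¹' (Set.Icc (-M) M) := by
      apply hKmin
      · exact isClosed_Icc.preimage hc
      · exact (convex_Icc _ _).linear_preimage _
      · rintro _ ⟨ϑ, -, rfl⟩
        exact abs_le.mp (hM (act ϑ v))
    exact abs_le.mpr (h1 hf₀K)
  -- the polynomial in one variable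
  obtain ⟨w, hw, hew, -⟩ := AvgAux.exists_perp hn e e
  obtain ⟨p, -, hp⟩ := AvgAux.mem_PV.mp f₀.2
  obtain ⟨A, B', hAB⟩ := AvgAux.circle_form e w p
  have hnorm : ∀ s t : ℝ, s ^ 2 + t ^ 2 = 1 → ‖s • w + t • e‖ = 1 := by
    intro s t hst
    have h1 : ‖s • w + t • e‖ ^ 2 = 1 := by
      rw [← real_inner_self_eq_norm_sq]
      simp only [inner_add_left, inner_add_right, inner_smul_left, inner_smul_right,
        RCLike.conj_to_real]
      rw [real_inner_self_eq_norm_sq, real_inner_self_eq_norm_sq, real_inner_comm e w, hw, he]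
      rw [hew]
      linarith
    have h2 : 0 ≤ ‖s • w + t • e‖ := norm_nonneg _
    nlinarith
  have hA : ∀ s t : ℝ, s ^ 2 + t ^ 2 = 1 → f₀.1 (s • w + t • e) = A.eval t := by
    intro s t hst
    obtain ⟨ϑ, hϑ1, hϑ2, hϑ3⟩ := AvgAux.exists_rot hn (e := e) (u := w) (w := -w) hw
      (by rw [norm_neg]; exact hw) hew (by rw [inner_neg_right, hew, neg_zero])
    have h1 := hinv ϑ ⟨hϑ1, hϑ2⟩ (s • w + t • e) (hnorm s t hst).le
    have h2 : ϑ (s • w + t • e) = (-s) • w + t • e := by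
      rw [map_add, map_smul, map_smul, hϑ3, hϑ2, smul_neg, neg_smul]
    rw [h2] at h1
    have h3 := hAB s t hst
    have h4 := hAB (-s) t (by rw [neg_sq]; exact hst)
    rw [← hp] at h3 h4
    linarith
  refine ⟨A, ?_, ?_⟩
  · intro t ht
    have hst : (Real.sqrt (1 - t ^ 2)) ^ 2 + t ^ 2 = 1 := by
      rw [Real.sq_sqrt (by nlinarith [ht.1, ht.2])]
      ring
    rw [← hA _ t hst]
    exact hbound ⟨Real.sqrt (1 - t ^ 2) • w + t • e, by simpa using hnorm _ t hst⟩
  · intro μ hμ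
    have hzon : zonS e A = AvgAux.resV D f₀ := by
      apply Subtype.ext
      funext v
      show A.eval (inner ℝ e (v : E n)) = f₀.1 (v : E n)
      have hv : ‖(v : E n)‖ = 1 := by simp
      set t : ℝ := inner ℝ e (v : E n) with ht
      let y : E n := (v : E n) - t • e
      have hee : inner ℝ e e = (1 : ℝ) := by rw [real_inner_self_eq_norm_sq, he]; norm_num
      have hey : inner ℝ e y = (0 : ℝ) := by
        show inner ℝ e ((v : E n) - t • e) = 0
        rw [inner_sub_right, inner_smul_right, hee, ← ht]; ring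
      have hvy : (v : E n) = y + t • e := by
        show (v : E n) = (v : E n) - t • e + t • e
        simp
      have hy2 : ‖y‖ ^ 2 + t ^ 2 = 1 := by
        have h1 : ‖(v : E n)‖ ^ 2 = ‖y‖ ^ 2 + t ^ 2 := by
          rw [hvy, ← real_inner_self_eq_norm_sq, ← real_inner_self_eq_norm_sq]
          simp only [inner_add_left, inner_add_right, inner_smul_left, inner_smul_right,
            RCLike.conj_to_real, real_inner_comm e y, hee]
          rw [hey]
          ring
        rw [hv] at h1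
        linarith
      by_cases hy0 : y = 0
      · rw [hy0, norm_zero] at hy2
        have h1 := hA 0 t (by linarith)
        rw [zero_smul, zero_add] at h1
        rw [hvy, hy0, zero_add, h1]
      · have hyn : ‖y‖ ≠ 0 := norm_ne_zero_iff.mpr hy0
        obtain ⟨ϑ, hϑ1, hϑ2, hϑ3⟩ := AvgAux.exists_rot hn (e := e) (u := ‖y‖⁻¹ • y) (w := w)
          (by rw [norm_smul, norm_inv, norm_norm, inv_mul_cancel₀ hyn]) hw
          (by rw [inner_smul_right, hey, mul_zero]) hew
        have h1 := hinv ϑ ⟨hϑ1, hϑ2⟩ (v : E n) hv.le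
        have h2 : ϑ (v : E n) = ‖y‖ • w + t • e := by
          have h3 : y = ‖y‖ • (‖y‖⁻¹ • y) := by
            rw [smul_smul, mul_inv_cancel₀ hyn, one_smul]
          rw [hvy, map_add, map_smul, hϑ2]
          congr 1
          conv_lhs => rw [h3]
          rw [map_smul, hϑ3]
        rw [← h1, h2, hA _ t hy2]
    have hc : Continuous (μ ∘ₗ AvgAux.resV (n := n) D) :=
      LinearMap.continuous_of_finiteDimensional _
    have h1 : K ⊆ (μ ∘ₗ AvgAux.resV (n := n) D) ⁻¹' {μ (polyS P)} := by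
      apply hKmin
      · exact isClosed_singleton.preimage hc
      · exact (convex_singleton _).linear_preimage _
      · rintro _ ⟨ϑ, ⟨h2, h3⟩, rfl⟩
        exact hμ ϑ h2 h3 (polyS P)
    have h2 : μ (AvgAux.resV D f₀) = μ (polyS P) := h1 hf₀K
    rw [hzon, h2]

end

end Pool.Agent.Helper115_ME
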