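import Mathlib
set_option autoImplicit false

namespace Pool.Agent.Helper115_ME

/-- convexity of `t ↦ √(1+t²) q(arctan t)` -/
theorem convex_aux (q : ℝ → ℝ) (hq : ContDiff ℝ 2 q)
    (hpos : ∀ θ, 0 ≤ q θ + iteratedDeriv 2 q θ) :
    ConvexOn ℝ Set.univ (fun t : ℝ => Real.sqrt (1 + t^2) * q (Real.arctan t)) := by
  have hd1 : ∀ θ, HasDerivAt q (deriv q θ) θ := fun θ =>
    (hq.differentiable (by norm_num) θ).hasDerivAt
  have hq1 : ContDiff ℝ 1 (deriv q) := by
    have : ContDiff ℝ (1 + 1) q := by simpa [one_add_one_eq_two] using hq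
    exact (contDiff_succ_iff_deriv.1 this).2.2
  have hd2 : ∀ θ, HasDerivAt (deriv q) (deriv (deriv q) θ) θ := fun θ =>
    (hq1.differentiable (by norm_num) θ).hasDerivAt
  have hit : ∀ θ, iteratedDeriv 2 q θ = deriv (deriv q) θ := by
    intro θ
    rw [iteratedDeriv_succ, iteratedDeriv_one]
  have hs : ∀ t : ℝ, 0 < 1 + t^2 := fun t => by positivity
  have hsq : ∀ t : ℝ, HasDerivAt (fun t : ℝ => Real.sqrt (1 + t^2)) (t / Real.sqrt (1 + t^2)) t := by
    intro t
    have h1 : HasDerivAt (fun t : ℝ => 1 + t^2) (2 * t) t := by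
      simpa using ((hasDerivAt_id t).pow 2).const_add 1
    have h2 := h1.sqrt (hs t).ne'
    refine h2.congr_deriv ?_
    rw [mul_div_mul_left _ _ (by norm_num : (2:ℝ) ≠ 0)]
  have hf1 : ∀ t : ℝ, HasDerivAt (fun t : ℝ => Real.sqrt (1 + t^2) * q (Real.arctan t))
      ((t * q (Real.arctan t) + deriv q (Real.arctan t)) / Real.sqrt (1 + t^2)) t := by
    intro t
    have hqa : HasDerivAt (fun t : ℝ => q (Real.arctan t)) (deriv q (Real.arctan t) * (1 / (1 + t^2))) t :=
      (hd1 (Real.arctan t)).comp t (Real.hasDerivAt_arctan t)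
    refine ((hsq t).mul hqa).congr_deriv ?_
    have hpos' : 0 < Real.sqrt (1 + t^2) := Real.sqrt_pos.2 (hs t)
    have hsqr : Real.sqrt (1 + t^2) * Real.sqrt (1 + t^2) = 1 + t^2 := Real.mul_self_sqrt (hs t).le
    have hne := hpos'.ne'
    have hne2 := (hs t).ne'
    field_simp
    rw [Real.sq_sqrt (hs t).le]
    ring
  have hf2 : ∀ t : ℝ, HasDerivAt
      (fun t : ℝ => (t * q (Real.arctan t) + deriv q (Real.arctan t)) / Real.sqrt (1 + t^2))
      ((q (Real.arctan t) + deriv (deriv q) (Real.arctan t)) / ((1 + t^2) * Real.sqrt (1 + t^2))) t := by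
    intro t
    have hqa : HasDerivAt (fun t : ℝ => q (Real.arctan t)) (deriv q (Real.arctan t) * (1 / (1 + t^2))) t :=
      (hd1 (Real.arctan t)).comp t (Real.hasDerivAt_arctan t)
    have hqb : HasDerivAt (fun t : ℝ => deriv q (Real.arctan t))
        (deriv (deriv q) (Real.arctan t) * (1 / (1 + t^2))) t :=
      (hd2 (Real.arctan t)).comp t (Real.hasDerivAt_arctan t)
    have hpos' : 0 < Real.sqrt (1 + t^2) := Real.sqrt_pos.2 (hs t)
    have hsqr : Real.sqrt (1 + t^2) * Real.sqrt (1 + t^2) = 1 + t^2 := Real.mul_self_sqrt (hs t).le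
    have hne := hpos'.ne'
    have hne2 := (hs t).ne'
    refine ((((hasDerivAt_id t).mul hqa).add hqb).div (hsq t) hne).congr_deriv ?_
    simp only [Pi.add_apply, Pi.mul_apply, id]
    have h3 : Real.sqrt (1 + t^2) ^ 2 = 1 + t^2 := Real.sq_sqrt (hs t).le
    field_simp
    rw [h3]
    ring_nf
  have e1 : deriv (fun t : ℝ => Real.sqrt (1 + t^2) * q (Real.arctan t)) =
      fun t : ℝ => (t * q (Real.arctan t) + deriv q (Real.arctan t)) / Real.sqrt (1 + t^2) := by
    funext t; exact (hf1 t).deriv
  refine convexOn_univ_of_deriv2_nonneg (fun t => (hf1 t).differentiableAt) ?_ ?_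
  · rw [e1]; exact fun t => (hf2 t).differentiableAt
  · intro t
    simp only [Function.iterate_succ, Function.iterate_zero, Function.comp, id]
    rw [e1, (hf2 t).deriv]
    apply div_nonneg
    · rw [← hit]; exact hpos _
    · positivity

/-- convexity of `p` along a line at distance one from the origin -/
theorem convex_line {n : ℕ} (p : EuclideanSpace ℝ (Fin n) → ℝ)
    (hhom : ∀ c : ℝ, 0 ≤ c → ∀ x, p (c • x) = c * p x)
    (hdiff : ∀ u w : EuclideanSpace ℝ (Fin n), Orthonormal ℝ ![u, w] →
      ContDiff ℝ 2 (fun θ : ℝ => p (Real.cos θ • u + Real.sin θ • w)))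
    (hpos : ∀ u w : EuclideanSpace ℝ (Fin n), Orthonormal ℝ ![u, w] →
      0 ≤ p u + iteratedDeriv 2 (fun θ : ℝ => p (Real.cos θ • u + Real.sin θ • w)) 0)
    (u w : EuclideanSpace ℝ (Fin n)) (huw : Orthonormal ℝ ![u, w]) :
    ConvexOn ℝ Set.univ (fun t : ℝ => p (u + t • w)) := by
  have h := convex_aux (fun θ : ℝ => p (Real.cos θ • u + Real.sin θ • w)) (hdiff u w huw) ?_
  · refine h.congr ?_
    intro t _
    simp only
    have hs : 0 < 1 + t^2 := by positivity
    have hne : Real.sqrt (1 + t^2) ≠ 0 := (Real.sqrt_pos.2 hs).ne'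
    rw [← hhom _ (Real.sqrt_nonneg _), Real.cos_arctan, Real.sin_arctan, smul_add, smul_smul, smul_smul]
    congr 2
    · rw [mul_one_div_cancel hne, one_smul]
    · rw [mul_div_cancel₀ _ hne]
  · intro θ
    have h1 : inner ℝ u u = (1:ℝ) := by
      rw [real_inner_self_eq_norm_sq]
      have := huw.1 0
      simp at this
      rw [this]; norm_num
    have h2 : inner ℝ w w = (1:ℝ) := by
      rw [real_inner_self_eq_norm_sq]
      have := huw.1 1
      simp at this
      rw [this]; norm_num
    have h3 : inner ℝ u w = (0:ℝ) := by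
      have := huw.2 (show (0 : Fin 2) ≠ 1 by decide)
      simpa using this
    have h4 : inner ℝ w u = (0:ℝ) := by rw [real_inner_comm]; exact h3
    set u' := Real.cos θ • u + Real.sin θ • w with hu'
    set w' := -Real.sin θ • u + Real.cos θ • w with hw'
    have hcs := Real.cos_sq_add_sin_sq θ
    have i1 : inner ℝ u' u' = (1:ℝ) := by
      simp only [hu', inner_add_left, inner_add_right, real_inner_smul_left, real_inner_smul_right, h1, h2, h3, h4]
      linarith
    have i2 : inner ℝ w' w' = (1:ℝ) := by
      simp only [hw', inner_add_left, inner_add_right, real_inner_smul_left, real_inner_smul_right, h1, h2, h3, h4]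
      linarith
    have i3 : inner ℝ u' w' = (0:ℝ) := by
      simp only [hu', hw', inner_add_left, inner_add_right, real_inner_smul_left, real_inner_smul_right, h1, h2, h3, h4]
      ring
    have hon : Orthonormal ℝ ![u', w'] := by
      constructor
      · intro i
        fin_cases i
        · simp
          have := real_inner_self_eq_norm_sq u'
          rw [i1] at this
          nlinarith [norm_nonneg u']
        · simp
          have := real_inner_self_eq_norm_sq w'
          rw [i2] at this
          nlinarith [norm_nonneg w']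
      · intro i j hij
        fin_cases i <;> fin_cases j
        · exact absurd rfl hij
        · simpa using i3
        · have : inner ℝ w' u' = (0:ℝ) := by rw [real_inner_comm]; exact i3
          simpa using this
        · exact absurd rfl hij
    have h5 := hpos u' w' hon
    have h6 : (fun s : ℝ => p (Real.cos s • u' + Real.sin s • w')) =
        fun s : ℝ => (fun θ : ℝ => p (Real.cos θ • u + Real.sin θ • w)) (θ + s) := by
      funext s
      simp only
      congr 1
      rw [Real.cos_add, Real.sin_add, hu', hw']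
      module
    rw [h6, iteratedDeriv_comp_const_add 2 (fun θ : ℝ => p (Real.cos θ • u + Real.sin θ • w)) θ] at h5
    simpa using h5

theorem subadditive_of_great_circles {n : ℕ} (hn : 2 ≤ n) (p : EuclideanSpace ℝ (Fin n) → ℝ)
    (hcont : Continuous p)
    (hhom : ∀ c : ℝ, 0 ≤ c → ∀ x, p (c • x) = c * p x)
    (hdiff : ∀ u w : EuclideanSpace ℝ (Fin n), Orthonormal ℝ ![u, w] →
      ContDiff ℝ 2 (fun θ : ℝ => p (Real.cos θ • u + Real.sin θ • w)))
    (hpos : ∀ u w : EuclideanSpace ℝ (Fin n), Orthonormal ℝ ![u, w] →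
      0 ≤ p u + iteratedDeriv 2 (fun θ : ℝ => p (Real.cos θ • u + Real.sin θ • w)) 0) :
    ∀ x y, p (x + y) ≤ p x + p y := by
  -- the independent case
  have hind : ∀ x y, LinearIndependent ℝ ![x, y] → p (x + y) ≤ p x + p y := by
    intro x y hxy
    have hne : y - x ≠ 0 := by
      intro h
      have := LinearIndependent.pair_iff.1 hxy 1 (-1) (by rw [← neg_eq_zero, ← h]; module)
      norm_num at this
    have hv : 0 < ‖y - x‖ := norm_pos_iff.2 hne
    set w := (‖y - x‖)⁻¹ • (y - x) with hw
    have hww : inner ℝ w w = (1:ℝ) := by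
      rw [hw, real_inner_smul_left, real_inner_smul_right, real_inner_self_eq_norm_sq]
      field_simp
    set c := x - (inner ℝ x w : ℝ) • w with hc
    have hc0 : c ≠ 0 := by
      intro h
      have h1 : x - ((inner ℝ x w : ℝ) * (‖y - x‖)⁻¹) • (y - x) = 0 := by
        rw [mul_smul, ← hw]; exact h
      set m := ((inner ℝ x w : ℝ) * (‖y - x‖)⁻¹) with hm
      have := LinearIndependent.pair_iff.1 hxy (1 + m) (-m) (by rw [← h1]; module)
      have h2 := this.1
      have h3 := this.2
      linarith
    have hd : 0 < ‖c‖ := norm_pos_iff.2 hc0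
    have hcw : inner ℝ c w = (0:ℝ) := by
      rw [hc, inner_sub_left, real_inner_smul_left, hww]; ring
    set u := (‖c‖)⁻¹ • c with hu
    have huu : inner ℝ u u = (1:ℝ) := by
      rw [hu, real_inner_smul_left, real_inner_smul_right, real_inner_self_eq_norm_sq]
      field_simp
    have huw0 : inner ℝ u w = (0:ℝ) := by rw [hu, real_inner_smul_left, hcw, mul_zero]
    have hon : Orthonormal ℝ ![u, w] := by
      constructor
      · intro i
        fin_cases i
        · simp
          have := real_inner_self_eq_norm_sq u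
          rw [huu] at this
          nlinarith [norm_nonneg u]
        · simp
          have := real_inner_self_eq_norm_sq w
          rw [hww] at this
          nlinarith [norm_nonneg w]
      · intro i j hij
        fin_cases i <;> fin_cases j
        · exact absurd rfl hij
        · simpa using huw0
        · have : inner ℝ w u = (0:ℝ) := by rw [real_inner_comm]; exact huw0
          simpa using this
        · exact absurd rfl hij
    have hconv := convex_line p hhom hdiff hpos u w hon
    set a := (inner ℝ x w : ℝ) / ‖c‖ with ha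
    set b := ((inner ℝ x w : ℝ) + ‖y - x‖) / ‖c‖ with hb
    have hx : x = ‖c‖ • (u + a • w) := by
      rw [hu, smul_add, smul_smul, smul_smul, ha, mul_inv_cancel₀ hd.ne', one_smul,
        mul_div_cancel₀ _ hd.ne', hc]
      module
    have hy : y = ‖c‖ • (u + b • w) := by
      have e1 : ‖y - x‖ • w = y - x := by
        rw [hw, smul_smul, mul_inv_cancel₀ hv.ne', one_smul]
      rw [hu, smul_add, smul_smul, smul_smul, hb, mul_inv_cancel₀ hd.ne', one_smul,
        mul_div_cancel₀ _ hd.ne', hc, add_smul, e1]
      module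
    have hmid := hconv.2 (Set.mem_univ a) (Set.mem_univ b) (show (0:ℝ) ≤ 1/2 by norm_num)
      (show (0:ℝ) ≤ 1/2 by norm_num) (by norm_num)
    simp only [smul_eq_mul] at hmid
    have hsum : x + y = (2 * ‖c‖) • (u + (1/2 * a + 1/2 * b) • w) := by
      conv_lhs => rw [hx, hy]
      module
    have h1 : p (x + y) = 2 * ‖c‖ * p (u + (1/2 * a + 1/2 * b) • w) := by
      rw [hsum, hhom _ (by positivity)]
    have h2 : p x = ‖c‖ * p (u + a • w) := by
      conv_lhs => rw [hx]
      rw [hhom _ hd.le]
    have h3 : p y = ‖c‖ * p (u + b • w) := by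
      conv_lhs => rw [hy]
      rw [hhom _ hd.le]
    rw [h1, h2, h3]
    nlinarith
  intro x y
  by_cases hxy : LinearIndependent ℝ ![x, y]
  · exact hind x y hxy
  by_cases hy0 : y = 0
  · have : p 0 = 0 := by simpa using hhom 0 le_rfl 0
    rw [hy0, this, add_zero, add_zero]
  -- x is a multiple of y
  have hxy' : ∃ m : ℝ, x = m • y := by
    by_contra hcon
    push Not at hcon
    apply hxy
    rw [LinearIndependent.pair_symm_iff, LinearIndependent.pair_iff' hy0]
    intro a h
    exact hcon a h.symm
  obtain ⟨m, hm⟩ := hxy'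
  -- a vector outside the line of y
  have hz : ∃ z : EuclideanSpace ℝ (Fin n), LinearIndependent ℝ ![y, z] := by
    have hfr : 1 < Module.finrank ℝ (EuclideanSpace ℝ (Fin n)) := by simp; omega
    exact exists_linearIndependent_pair_of_one_lt_finrank hfr hy0
  obtain ⟨z, hz⟩ := hz
  have hev : ∀ ε : ℝ, ε ≠ 0 → p (x + ε • z + y) ≤ p (x + ε • z) + p y := by
    intro ε hε
    apply hind
    rw [LinearIndependent.pair_iff] at hz ⊢
    intro s t hst
    rw [hm] at hst
    have := hz (s * m + t) (s * ε) (by rw [← hst]; module)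
    have h1 : s = 0 := by
      rcases mul_eq_zero.1 this.2 with h | h
      · exact h
      · exact absurd h hε
    refine ⟨h1, ?_⟩
    have h2 := this.1
    rw [h1] at h2
    linarith
  have hl : Filter.Tendsto (fun ε : ℝ => p (x + ε • z + y)) (nhdsWithin 0 {0}ᶜ) (nhds (p (x + y))) := by
    have : Continuous (fun ε : ℝ => p (x + ε • z + y)) := by fun_prop
    have h := this.tendsto 0
    simp only [zero_smul, add_zero] at h
    exact h.mono_left nhdsWithin_le_nhds
  have hr : Filter.Tendsto (fun ε : ℝ => p (x + ε • z) + p y) (nhdsWithin 0 {0}ᶜ) (nhds (p x + p y)) := by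
    have : Continuous (fun ε : ℝ => p (x + ε • z) + p y) := by fun_prop
    have h := this.tendsto 0
    simp only [zero_smul, add_zero] at h
    exact h.mono_left nhdsWithin_le_nhds
  refine le_of_tendsto_of_tendsto hl hr ?_
  filter_upwards [self_mem_nhdsWithin] with ε hε
  exact hev ε hε

end Pool.Agent.Helper115_ME
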