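import Mathlib
import Pool.Agent.Helper115_ME.Base
set_option autoImplicit false
/-!
Basic facts on support functions of convex bodies (proofs by helper782).
-/
namespace Pool.Agent.Helper115_ME

noncomputable section

variable {n : ℕ}

theorem exists_supp_eq (K : ConvexBody (E n)) (u : E n) : ∃ x ∈ (K : Set (E n)), supp K u = inner ℝ x u := by
  have hc : Continuous fun x : E n => inner ℝ x u := by fun_prop
  obtain ⟨x, hx, h⟩ := (K.isCompact.image hc).sSup_mem (K.nonempty.image _)
  exact ⟨x, hx, h.symm⟩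

theorem inner_le_supp (K : ConvexBody (E n)) {x : E n} (hx : x ∈ (K : Set (E n))) (u : E n) :
    inner ℝ x u ≤ supp K u := by
  have hc : Continuous fun x : E n => inner ℝ x u := by fun_prop
  exact le_csSup (K.isCompact.image hc).bddAbove (Set.mem_image_of_mem _ hx)

theorem supp_add_body (K L : ConvexBody (E n)) (u : E n) : supp (K + L) u = supp K u + supp L u := by
  apply le_antisymm
  · obtain ⟨x, hx, h⟩ := exists_supp_eq (K + L) u
    rw [ConvexBody.coe_add] at hx
    obtain ⟨a, ha, b, hb, rfl⟩ := Set.mem_add.1 hx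
    rw [h, inner_add_left]
    exact add_le_add (inner_le_supp K ha u) (inner_le_supp L hb u)
  · obtain ⟨a, ha, h1⟩ := exists_supp_eq K u
    obtain ⟨b, hb, h2⟩ := exists_supp_eq L u
    rw [h1, h2, ← inner_add_left]
    refine inner_le_supp (K + L) ?_ u
    rw [ConvexBody.coe_add]
    exact Set.add_mem_add ha hb

theorem supp_add_le (K : ConvexBody (E n)) (x y : E n) : supp K (x + y) ≤ supp K x + supp K y := by
  obtain ⟨a, ha, h⟩ := exists_supp_eq K (x + y)
  rw [h, inner_add_right]
  exact add_le_add (inner_le_supp K ha x) (inner_le_supp K ha y)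

theorem supp_smul (K : ConvexBody (E n)) {c : ℝ} (hc : 0 ≤ c) (x : E n) : supp K (c • x) = c * supp K x := by
  apply le_antisymm
  · obtain ⟨a, ha, h⟩ := exists_supp_eq K (c • x)
    rw [h, real_inner_smul_right]
    exact mul_le_mul_of_nonneg_left (inner_le_supp K ha x) hc
  · obtain ⟨a, ha, h⟩ := exists_supp_eq K x
    rw [h, ← real_inner_smul_right]
    exact inner_le_supp K ha _

theorem continuous_supp (K : ConvexBody (E n)) : Continuous (supp K) := by
  obtain ⟨R, hR⟩ := K.isCompact.isBounded.exists_norm_le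
  have h : LipschitzWith (Real.toNNReal R) (supp K) := by
    refine LipschitzWith.of_le_add_mul _ fun u v => ?_
    obtain ⟨x, hx, h⟩ := exists_supp_eq K u
    have hR0 : 0 ≤ R := (norm_nonneg x).trans (hR x hx)
    have h1 : inner ℝ x u = inner ℝ x v + inner ℝ x (u - v) := by
      rw [← inner_add_right]
      congr 1
      abel
    have h2 : inner ℝ x (u - v) ≤ ‖x‖ * ‖u - v‖ := real_inner_le_norm _ _
    have h3 : ‖x‖ * ‖u - v‖ ≤ R * ‖u - v‖ := mul_le_mul_of_nonneg_right (hR x hx) (norm_nonneg _)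
    rw [Real.coe_toNNReal R hR0, dist_eq_norm]
    have h4 := inner_le_supp K hx v
    linarith
  exact h.continuous

theorem abs_supp_sub_le (K L : ConvexBody (E n)) (u : E n) : |supp K u - supp L u| ≤ dist K L * ‖u‖ := by
  have key : ∀ K L : ConvexBody (E n), supp K u - supp L u ≤ dist K L * ‖u‖ := by
    intro K L
    obtain ⟨x, hx, h⟩ := exists_supp_eq K u
    have h1 : Metric.infDist x (L : Set (E n)) ≤ dist K L := by
      rw [← ConvexBody.hausdorffDist_coe]
      exact Metric.infDist_le_hausdorffDist_of_mem hx ConvexBody.hausdorffEDist_ne_top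
    obtain ⟨y, hy, h2⟩ := L.isCompact.exists_infDist_eq_dist L.nonempty x
    rw [h2, dist_eq_norm] at h1
    have h3 := inner_le_supp L hy u
    have h4 : inner ℝ x u = inner ℝ y u + inner ℝ (x - y) u := by
      rw [← inner_add_left]
      congr 1
      abel
    have h5 : inner ℝ (x - y) u ≤ ‖x - y‖ * ‖u‖ := real_inner_le_norm _ _
    have h6 : ‖x - y‖ * ‖u‖ ≤ dist K L * ‖u‖ := mul_le_mul_of_nonneg_right h1 (norm_nonneg _)
    linarith
  rw [abs_le]
  constructor
  · have := key L K
    rw [dist_comm] at this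
    linarith
  · exact key K L

theorem dist_le_of_supp_aux {K L : ConvexBody (E n)} {ε : ℝ} (hε : 0 ≤ ε)
    (h : ∀ u : E n, ‖u‖ = 1 → |supp K u - supp L u| ≤ ε) {x : E n} (hx : x ∈ (K : Set (E n))) :
    ∃ y ∈ (L : Set (E n)), dist x y ≤ ε := by
  obtain ⟨y, hy, h1⟩ := exists_norm_eq_iInf_of_complete_convex L.nonempty
    L.isCompact.isClosed.isComplete L.convex x
  refine ⟨y, hy, ?_⟩
  have h2 := (norm_eq_iInf_iff_real_inner_le_zero L.convex hy).1 h1
  by_cases hxy : x = y
  · rw [hxy, dist_self]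
    exact hε
  · have hpos : 0 < ‖x - y‖ := norm_pos_iff.2 (sub_ne_zero.2 hxy)
    have hu : ‖(‖x - y‖⁻¹ • (x - y) : E n)‖ = 1 := by
      rw [norm_smul, norm_inv, norm_norm, inv_mul_cancel₀ hpos.ne']
    have h3 := h _ hu
    rw [abs_le] at h3
    rw [supp_smul _ (inv_nonneg.2 hpos.le), supp_smul _ (inv_nonneg.2 hpos.le)] at h3
    have h4 : supp L (x - y) ≤ inner ℝ y (x - y) := by
      obtain ⟨w, hw, h5⟩ := exists_supp_eq L (x - y)
      rw [h5]
      have h6 := h2 w hw
      rw [real_inner_comm, inner_sub_left] at h6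
      linarith
    have h7 : inner ℝ x (x - y) ≤ supp K (x - y) := inner_le_supp K hx _
    have h8 : inner ℝ x (x - y) - inner ℝ y (x - y) = ‖x - y‖ ^ 2 := by
      rw [← inner_sub_left, real_inner_self_eq_norm_sq]
    have h9 : ‖x - y‖⁻¹ * ‖x - y‖ ^ 2 ≤ ‖x - y‖⁻¹ * supp K (x - y) - ‖x - y‖⁻¹ * supp L (x - y) := by
      rw [← mul_sub]
      refine mul_le_mul_of_nonneg_left ?_ (inv_nonneg.2 hpos.le)
      linarith
    have h10 : ‖x - y‖⁻¹ * ‖x - y‖ ^ 2 = ‖x - y‖ := by
      field_simp
    rw [dist_eq_norm]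
    linarith [h3.2]

theorem dist_le_of_supp {K L : ConvexBody (E n)} {ε : ℝ} (hε : 0 ≤ ε)
    (h : ∀ u : E n, ‖u‖ = 1 → |supp K u - supp L u| ≤ ε) : dist K L ≤ ε := by
  rw [← ConvexBody.hausdorffDist_coe]
  refine Metric.hausdorffDist_le_of_mem_dist hε (fun x hx => dist_le_of_supp_aux hε h hx)
    (fun x hx => dist_le_of_supp_aux hε (fun u hu => ?_) hx)
  rw [abs_sub_comm]
  exact h u hu

theorem body_ext {K L : ConvexBody (E n)} (h : ∀ u : E n, ‖u‖ = 1 → supp K u = supp L u) : K = L := by
  have h1 : dist K L ≤ 0 := dist_le_of_supp le_rfl fun u hu => by rw [h u hu, sub_self, abs_zero]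
  exact dist_le_zero.1 h1

theorem supp_image (ϑ : E n ≃ₗᵢ[ℝ] E n) {K L : ConvexBody (E n)} (h : (L : Set (E n)) = ϑ '' (K : Set (E n)))
    (u : E n) : supp L (ϑ u) = supp K u := by
  unfold supp
  rw [h, Set.image_image]
  simp only [LinearIsometryEquiv.inner_map_map]

theorem image_of_supp (ϑ : E n ≃ₗᵢ[ℝ] E n) {K L : ConvexBody (E n)}
    (h : ∀ u : E n, ‖u‖ = 1 → supp L (ϑ u) = supp K u) : (L : Set (E n)) = ϑ '' (K : Set (E n)) := by
  let M : ConvexBody (E n) :=
    { carrier := ϑ '' (K : Set (E n))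
      convex' := K.convex.linear_image ϑ.toLinearEquiv.toLinearMap
      isCompact' := K.isCompact.image ϑ.continuous
      nonempty' := K.nonempty.image _ }
  have hM : (M : Set (E n)) = ϑ '' (K : Set (E n)) := rfl
  have h1 : L = M := by
    refine body_ext fun u hu => ?_
    have h2 : ϑ (ϑ.symm u) = u := ϑ.apply_symm_apply u
    have h3 : ‖ϑ.symm u‖ = 1 := by rw [LinearIsometryEquiv.norm_map, hu]
    rw [← h2, supp_image ϑ hM, h _ h3]
  rw [h1, hM]

theorem exists_le_eq (p : E n → ℝ) (hadd : ∀ x y, p (x + y) ≤ p x + p y)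
    (hhom : ∀ c : ℝ, 0 ≤ c → ∀ x, p (c • x) = c * p x) (u : E n) :
    ∃ x : E n, (∀ v, inner ℝ x v ≤ p v) ∧ inner ℝ x u = p u := by
  have hp0 : p 0 = 0 := by
    have := hhom 0 le_rfl 0
    rwa [zero_smul, zero_mul] at this
  have hg : ∃ g : E n →ₗ[ℝ] ℝ, (∀ x, g x ≤ p x) ∧ g u = p u := by
    by_cases hu : u = 0
    · obtain ⟨g, -, hg2⟩ := exists_extension_of_le_sublinear (⊥ : E n →ₗ.[ℝ] ℝ) p
        (fun c hc x => hhom c hc.le x) hadd (by
          rintro ⟨x, hx⟩
          have hx0 : x = 0 := (Submodule.mem_bot ℝ).1 hx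
          subst hx0
          have : (⊥ : E n →ₗ.[ℝ] ℝ) ⟨0, hx⟩ = 0 := (⊥ : E n →ₗ.[ℝ] ℝ).map_zero
          rw [this, hp0])
      refine ⟨g, hg2, ?_⟩
      rw [hu, map_zero, hp0]
    · obtain ⟨g, hg1, hg2⟩ := exists_extension_of_le_sublinear
        (LinearPMap.mkSpanSingleton u (p u) hu) p (fun c hc x => hhom c hc.le x) hadd (by
          rintro ⟨x, hx⟩
          obtain ⟨c, rfl⟩ := Submodule.mem_span_singleton.1 hx
          rw [LinearPMap.mkSpanSingleton'_apply]
          simp only [smul_eq_mul, RingHom.id_apply]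
          rcases le_total 0 c with hc | hc
          · rw [hhom c hc]
          · have h1 := hadd (c • u) ((-c) • u)
            rw [← add_smul, add_neg_cancel, zero_smul, hp0, hhom (-c) (by linarith)] at h1
            linarith)
      refine ⟨g, hg2, ?_⟩
      have hmem : u ∈ Submodule.span ℝ {u} := Submodule.mem_span_singleton_self u
      exact (hg1 ⟨u, hmem⟩).trans (LinearPMap.mkSpanSingleton'_apply_self u (p u) _ hmem)
  obtain ⟨g, hg1, hg2⟩ := hg
  refine ⟨(InnerProductSpace.toDual ℝ (E n)).symm (LinearMap.toContinuousLinearMap g), ?_, ?_⟩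
  · intro v
    rw [InnerProductSpace.toDual_symm_apply]
    exact hg1 v
  · rw [InnerProductSpace.toDual_symm_apply]
    exact hg2

theorem sublinear_bound (p : E n → ℝ) (hadd : ∀ x y, p (x + y) ≤ p x + p y)
    (hhom : ∀ c : ℝ, 0 ≤ c → ∀ x, p (c • x) = c * p x) :
    ∃ C : ℝ, 0 ≤ C ∧ ∀ x, p x ≤ C * ‖x‖ := by
  have hp0 : p 0 = 0 := by
    have := hhom 0 le_rfl 0
    rwa [zero_smul, zero_mul] at this
  let b := EuclideanSpace.basisFun (Fin n) ℝ
  let M : Fin n → ℝ := fun i => max (p (b i)) (p (-(b i)))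
  have hM : ∀ i, 0 ≤ M i := by
    intro i
    have h1 := hadd (b i) (-(b i))
    rw [add_neg_cancel, hp0] at h1
    have h2 : p (b i) ≤ M i := le_max_left _ _
    have h3 : p (-(b i)) ≤ M i := le_max_right _ _
    linarith
  have hsum : ∀ (s : Finset (Fin n)) (f : Fin n → E n), p (∑ i ∈ s, f i) ≤ ∑ i ∈ s, p (f i) := by
    intro s f
    classical
    induction s using Finset.induction_on with
    | empty => simp [hp0]
    | insert a s ha ih =>
      rw [Finset.sum_insert ha, Finset.sum_insert ha]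
      exact (hadd _ _).trans (add_le_add le_rfl ih)
  have hterm : ∀ (c : ℝ) (i : Fin n), p (c • b i) ≤ |c| * M i := by
    intro c i
    rcases le_total 0 c with hc | hc
    · rw [hhom c hc, abs_of_nonneg hc]
      exact mul_le_mul_of_nonneg_left (le_max_left _ _) hc
    · have h1 : c • b i = (-c) • (-(b i)) := by simp
      rw [h1, hhom (-c) (by linarith), abs_of_nonpos hc]
      exact mul_le_mul_of_nonneg_left (le_max_right _ _) (by linarith)
  refine ⟨∑ i, M i, Finset.sum_nonneg fun i _ => hM i, fun x => ?_⟩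
  have hx : x = ∑ i, (x i) • b i := by
    have := (b.sum_repr x).symm
    simpa [b] using this
  calc p x = p (∑ i, (x i) • b i) := by rw [← hx]
    _ ≤ ∑ i, p ((x i) • b i) := hsum _ _
    _ ≤ ∑ i, ‖x‖ * M i := by
        refine Finset.sum_le_sum fun i _ => (hterm _ _).trans ?_
        refine mul_le_mul_of_nonneg_right ?_ (hM i)
        have := PiLp.norm_apply_le x i
        simpa using this
    _ = (∑ i, M i) * ‖x‖ := by rw [← Finset.mul_sum, mul_comm]

theorem exists_body (p : E n → ℝ) (hadd : ∀ x y, p (x + y) ≤ p x + p y)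
    (hhom : ∀ c : ℝ, 0 ≤ c → ∀ x, p (c • x) = c * p x) :
    ∃ K : ConvexBody (E n), ∀ u, supp K u = p u := by
  obtain ⟨C, hC0, hC⟩ := sublinear_bound p hadd hhom
  let K : ConvexBody (E n) :=
    { carrier := {x | ∀ v, inner ℝ x v ≤ p v}
      convex' := by
        intro x hx y hy a b ha hb hab v
        rw [inner_add_left, real_inner_smul_left, real_inner_smul_left]
        have h1 := mul_le_mul_of_nonneg_left (hx v) ha
        have h2 := mul_le_mul_of_nonneg_left (hy v) hb
        have h3 : a * p v + b * p v = p v := by rw [← add_mul, hab, one_mul]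
        linarith
      isCompact' := by
        refine Metric.isCompact_of_isClosed_isBounded ?_ ?_
        · have : {x : E n | ∀ v, inner ℝ x v ≤ p v} = ⋂ v, {x | inner ℝ x v ≤ p v} := by
            ext x
            simp
          rw [this]
          refine isClosed_iInter fun v => isClosed_le (by fun_prop) continuous_const
        · refine (Metric.isBounded_closedBall (x := (0 : E n)) (r := C)).subset fun x hx => ?_
          rw [mem_closedBall_zero_iff]
          have h1 := (hx x).trans (hC x)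
          rw [real_inner_self_eq_norm_sq] at h1
          by_contra hlt
          push Not at hlt
          have h2 : 0 < ‖x‖ := hC0.trans_lt hlt
          nlinarith
      nonempty' := by
        obtain ⟨x, hx, -⟩ := exists_le_eq p hadd hhom 0
        exact ⟨x, hx⟩ }
  refine ⟨K, fun u => le_antisymm ?_ ?_⟩
  · obtain ⟨x, hx, h⟩ := exists_supp_eq K u
    rw [h]
    exact hx u
  · obtain ⟨x, hx, h⟩ := exists_le_eq p hadd hhom u
    rw [← h]
    exact inner_le_supp K hx u

end

end Pool.Agent.Helper115_ME
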