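import Mathlib
import Pool.Agent.Helper115_ME.Supp
import Pool.Agent.Helper115_ME.Circ
import Pool.Agent.Helper115_ME.RotFacts

/-!
# Functions on the sphere with nonnegative radii of curvature are support functions, and conversely
-/

set_option autoImplicit false

namespace Pool.Agent.Helper115_ME

open MeasureTheory Metric Set Filter Topology
open scoped ContDiff

noncomputable section

variable {n : ℕ}

theorem two_le_infty : (2 : ℕ∞ω) ≤ ∞ := by
  have h : ((2 : ℕ∞) : ℕ∞ω) ≤ ∞ := WithTop.coe_le_coe.2 le_top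
  exact h

/-- `f(u) + (d/ds)² f(cos s • u + sin s • w)` at `s = 0`, for a pair `(u, w)`. If `f` is the support
function of a convex body `K` and `u, w` are orthonormal, this is the radius of curvature at `u` of the
projection of `K` to the plane of `u, w`. -/
def Rc (f : Sph n → ℝ) (p : E n × E n) : ℝ :=
  ext0 f p.1 + iteratedDeriv 2 (fun s : ℝ => ext0 f (Real.cos s • p.1 + Real.sin s • p.2)) 0

theorem norm_circle {u w : E n} (h : Orthonormal ℝ ![u, w]) (θ : ℝ) :
    ‖Real.cos θ • u + Real.sin θ • w‖ = 1 := by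
  rw [← planeRot_fst h θ, LinearIsometryEquiv.norm_map]
  exact (pair_orthonormal h).1

theorem continuous_mul_ext0 {f : Sph n → ℝ} (hf : Continuous f) :
    Continuous (fun x : E n => ‖x‖ * ext0 f x) := by
  obtain ⟨C, hC⟩ : ∃ C, ∀ v, |f v| ≤ C := by
    obtain ⟨C, hC⟩ := (isCompact_univ.image hf).isBounded.subset_closedBall 0
    refine ⟨C, fun v => ?_⟩
    have := hC (mem_image_of_mem f (mem_univ v))
    simpa using this
  have hC0 : ∀ x, |ext0 f x| ≤ |C| := by
    intro x
    by_cases hx : x = 0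
    · simp [ext0, hx]
    · rw [ext0_apply f hx]; exact (hC _).trans (le_abs_self C)
  rw [continuous_iff_continuousAt]
  intro x
  by_cases hx : x = 0
  · subst hx
    rw [ContinuousAt]
    simp only [norm_zero, zero_mul]
    rw [tendsto_zero_iff_norm_tendsto_zero]
    have h1 : Tendsto (fun x : E n => ‖x‖ * |C|) (𝓝 0) (𝓝 0) := by
      have : Continuous (fun x : E n => ‖x‖ * |C|) := by fun_prop
      simpa using this.tendsto 0
    refine squeeze_zero (fun _ => norm_nonneg _) (fun y => ?_) h1
    rw [norm_mul, norm_norm, Real.norm_eq_abs]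
    exact mul_le_mul_of_nonneg_left (hC0 y) (norm_nonneg _)
  · have h1 : ContinuousAt (ext0 f) x := by
      have hopen : IsOpen ({0}ᶜ : Set (E n)) := isOpen_compl_singleton
      have h2 : ContinuousOn (ext0 f) {0}ᶜ := by
        rw [continuousOn_iff_continuous_domRestrict]
        have h3 : (Set.domRestrict {0}ᶜ (ext0 f)) = fun y : ({0}ᶜ : Set (E n)) =>
            f ⟨‖(y : E n)‖⁻¹ • (y : E n), by
              have hy : (y : E n) ≠ 0 := fun h => y.2 h
              simp [norm_smul, hy]⟩ := by
          ext y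
          have hy : (y : E n) ≠ 0 := fun h => y.2 h
          simp [Set.domRestrict, ext0_apply f hy]
        rw [h3]
        refine hf.comp (Continuous.subtype_mk ?_ _)
        refine Continuous.smul (f := fun y : ({0}ᶜ : Set (E n)) => ‖(y : E n)‖⁻¹)
          (g := fun y : ({0}ᶜ : Set (E n)) => (y : E n)) ?_ continuous_subtype_val
        have hc1 : Continuous (fun y : ({0}ᶜ : Set (E n)) => ‖(y : E n)‖) :=
          continuous_norm.comp continuous_subtype_val
        refine hc1.inv₀ fun y => ?_
        have hy : (y : E n) ≠ 0 := fun h => y.2 h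
        simpa using hy
      exact h2.continuousAt (hopen.mem_nhds (by simpa using hx))
    exact continuous_norm.continuousAt.mul h1

theorem body_of_circles (hn : 2 ≤ n) (f : Sph n → ℝ) (hf : Continuous f)
    (hdiff : ∀ u w : E n, Orthonormal ℝ ![u, w] →
      ContDiff ℝ 2 (fun θ : ℝ => ext0 f (Real.cos θ • u + Real.sin θ • w)))
    (hpos : ∀ u w : E n, Orthonormal ℝ ![u, w] → 0 ≤ Rc f (u, w)) :
    ∃ K : ConvexBody (E n), hS K = f := by
  have hhom : ∀ c : ℝ, 0 ≤ c → ∀ x : E n, ‖c • x‖ * ext0 f (c • x) = c * (‖x‖ * ext0 f x) := by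
    intro c hc x
    rcases hc.eq_or_lt with rfl | hc
    · simp
    · rw [ext0_smul f hc, norm_smul, Real.norm_of_nonneg hc.le, mul_assoc]
  have hcirc : ∀ u w : E n, Orthonormal ℝ ![u, w] →
      (fun θ : ℝ => ‖Real.cos θ • u + Real.sin θ • w‖ * ext0 f (Real.cos θ • u + Real.sin θ • w)) =
      fun θ : ℝ => ext0 f (Real.cos θ • u + Real.sin θ • w) := by
    intro u w h
    ext θ
    rw [norm_circle h, one_mul]
  obtain ⟨K, hK⟩ := exists_body (fun x : E n => ‖x‖ * ext0 f x)
    (subadditive_of_great_circles hn _ (continuous_mul_ext0 hf) hhom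
      (fun u w h => by rw [hcirc u w h]; exact hdiff u w h)
      (fun u w h => by
        rw [hcirc u w h, (pair_orthonormal h).1, one_mul]
        exact hpos u w h)) hhom
  refine ⟨K, ?_⟩
  ext u
  show supp K u = f u
  rw [hK, ext0_sphere]
  simp

theorem contDiff_circle {f : Sph n → ℝ} (hf : IsSmooth f) {u w : E n} (h : Orthonormal ℝ ![u, w]) :
    ContDiff ℝ ∞ (fun θ : ℝ => ext0 f (Real.cos θ • u + Real.sin θ • w)) := by
  have h1 : ContDiff ℝ ∞ (fun θ : ℝ => Real.cos θ • u + Real.sin θ • w) :=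
    (Real.contDiff_cos.smul contDiff_const).add (Real.contDiff_sin.smul contDiff_const)
  rw [← contDiffOn_univ]
  refine ContDiffOn.comp hf h1.contDiffOn ?_
  intro θ _
  have := norm_circle h θ
  simp only [mem_compl_iff, mem_singleton_iff]
  intro h0
  rw [h0, norm_zero] at this
  exact zero_ne_one this

theorem IsSmooth.continuous {f : Sph n → ℝ} (hf : IsSmooth f) : Continuous f := by
  have h1 : f = fun v : Sph n => ext0 f (v : E n) := by ext v; rw [ext0_sphere]
  rw [h1]
  have h2 : ContinuousOn (ext0 f) {0}ᶜ := ContDiffOn.continuousOn hf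
  refine h2.comp_continuous continuous_subtype_val fun v => ?_
  have : ‖(v : E n)‖ = 1 := by simp
  simp only [mem_compl_iff, mem_singleton_iff]
  intro h0
  rw [h0, norm_zero] at this
  exact zero_ne_one this

theorem exists_body_of_Rc (hn : 2 ≤ n) {f : Sph n → ℝ} (hf : IsSmooth f)
    (hpos : ∀ u w : E n, Orthonormal ℝ ![u, w] → 0 ≤ Rc f (u, w)) :
    ∃ K : ConvexBody (E n), hS K = f :=
  body_of_circles hn f hf.continuous
    (fun _ _ h => (contDiff_circle hf h).of_le two_le_infty) hpos

/-- second order necessary condition -/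
theorem second_deriv_nonneg {q : ℝ → ℝ} (hq : ContDiff ℝ 2 q)
    (h : ∀ᶠ s in 𝓝 (0 : ℝ), 2 * Real.cos s * q 0 ≤ q s + q (-s)) :
    0 ≤ q 0 + iteratedDeriv 2 q 0 := by
  by_contra hcon
  push Not at hcon
  -- r(s) = q s + q (-s) - 2 cos s q 0
  set r : ℝ → ℝ := fun s => q s + q (-s) - 2 * Real.cos s * q 0 with hr
  have hq1 : Differentiable ℝ q := hq.differentiable (by norm_num)
  have hq2 : Differentiable ℝ (deriv q) := by
    have := (contDiff_succ_iff_deriv (n := 1)).1 (by exact_mod_cast hq)
    exact this.2.2.differentiable (by norm_num)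
  have hr1 : ∀ s, HasDerivAt r (deriv q s - deriv q (-s) + 2 * Real.sin s * q 0) s := by
    intro s
    have h1 := (hq1 s).hasDerivAt
    have h2 : HasDerivAt (fun s => q (-s)) (-(deriv q (-s))) s := by
      have := (hq1 (-s)).hasDerivAt.comp s (hasDerivAt_neg s)
      simpa [Function.comp_def] using this
    have h3 : HasDerivAt (fun s => 2 * Real.cos s * q 0) (2 * (-Real.sin s) * q 0) s :=
      ((Real.hasDerivAt_cos s).const_mul 2).mul_const (q 0)
    exact ((h1.add h2).sub h3).congr_deriv (by ring)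
  have hr1' : deriv r = fun s => deriv q s - deriv q (-s) + 2 * Real.sin s * q 0 :=
    funext fun s => (hr1 s).deriv
  have hr2 : HasDerivAt (deriv r) (2 * deriv (deriv q) 0 + 2 * q 0) 0 := by
    rw [hr1']
    have h1 := (hq2 0).hasDerivAt
    have h2 : HasDerivAt (fun s => deriv q (-s)) (-(deriv (deriv q) 0)) 0 := by
      have h1' : HasDerivAt (deriv q) (deriv (deriv q) 0) (-0) := by simpa using h1
      have := h1'.comp (0 : ℝ) (hasDerivAt_neg 0)
      simpa [Function.comp_def] using this
    have h3 : HasDerivAt (fun s => 2 * Real.sin s * q 0) (2 * Real.cos 0 * q 0) 0 :=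
      ((Real.hasDerivAt_sin 0).const_mul 2).mul_const (q 0)
    exact ((h1.sub h2).add h3).congr_deriv (by rw [Real.cos_zero]; ring)
  have e2 : iteratedDeriv 2 q 0 = deriv (deriv q) 0 := by
    rw [iteratedDeriv_succ, iteratedDeriv_one]
  have hneg : deriv (deriv r) 0 < 0 := by
    rw [hr2.deriv]
    rw [e2] at hcon
    linarith
  have h0 : deriv r 0 = 0 := by rw [hr1']; simp
  have hmax := isLocalMax_of_deriv_deriv_neg hneg h0 (hr1 0).continuousAt
  have hr0 : r 0 = 0 := by simp [hr]; ring
  -- r vanishes near 0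
  have hz : ∀ᶠ s in 𝓝 (0 : ℝ), r s = 0 := by
    filter_upwards [hmax, h] with s h1 h2
    rw [hr0] at h1
    have : 0 ≤ r s := by simp only [hr]; linarith
    linarith
  have hz1 : ∀ᶠ s in 𝓝 (0 : ℝ), deriv r s = 0 := by
    have := hz.eventually_nhds
    filter_upwards [this] with s hs
    have hs' : r =ᶠ[𝓝 s] fun _ => (0 : ℝ) := hs
    rw [hs'.deriv_eq]
    simp
  have hz2 : deriv (deriv r) 0 = 0 := by
    have hs' : deriv r =ᶠ[𝓝 0] fun _ => (0 : ℝ) := hz1
    rw [hs'.deriv_eq]
    simp
  linarith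

theorem Rc_nonneg_of_circle (K : ConvexBody (E n)) {u w : E n} (h : Orthonormal ℝ ![u, w])
    (hd : ContDiff ℝ 2 (fun θ : ℝ => ext0 (hS K) (Real.cos θ • u + Real.sin θ • w))) :
    0 ≤ Rc (hS K) (u, w) := by
  have hval : ∀ θ, ext0 (hS K) (Real.cos θ • u + Real.sin θ • w) =
      supp K (Real.cos θ • u + Real.sin θ • w) := fun θ =>
    ext0_sphere (hS K) ⟨Real.cos θ • u + Real.sin θ • w, by simpa using norm_circle h θ⟩
  have h0 : ext0 (hS K) u = ext0 (hS K) (Real.cos 0 • u + Real.sin 0 • w) := by simp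
  show 0 ≤ ext0 (hS K) u + _
  rw [h0]
  refine second_deriv_nonneg hd ?_
  have hcos : ∀ᶠ s in 𝓝 (0 : ℝ), 0 < Real.cos s := by
    have : Tendsto Real.cos (𝓝 0) (𝓝 1) := by simpa using Real.continuous_cos.tendsto 0
    exact this.eventually (lt_mem_nhds one_pos)
  filter_upwards [hcos] with s hs
  simp only [hval]
  have h1 : Real.cos s • u + Real.sin s • w + (Real.cos (-s) • u + Real.sin (-s) • w) =
      (2 * Real.cos s) • (Real.cos 0 • u + Real.sin 0 • w) := by
    simp only [Real.cos_neg, Real.sin_neg, Real.cos_zero, Real.sin_zero]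
    module
  have h2 := supp_add_le K (Real.cos s • u + Real.sin s • w) (Real.cos (-s) • u + Real.sin (-s) • w)
  rw [h1, supp_smul K (by positivity)] at h2
  exact h2

theorem Rc_nonneg_of_body {K : ConvexBody (E n)} (hK : IsSmooth (hS K)) {u w : E n}
    (h : Orthonormal ℝ ![u, w]) : 0 ≤ Rc (hS K) (u, w) :=
  Rc_nonneg_of_circle K h ((contDiff_circle hK h).of_le two_le_infty)

end

end Pool.Agent.Helper115_ME
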