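import Mathlib
import Pool.Agent.Helper115_ME.RotFacts

set_option autoImplicit false

namespace Pool.Agent.Helper115_ME

open MeasureTheory Metric Set
open scoped ContDiff

noncomputable section

variable {n : ℕ}



/-! ### auxiliary lemmas (helper442) -/

/-- exchange of the derivative in a parameter with iterated derivatives in the space variable -/
theorem H442_hasDerivAt_iteratedFDeriv_family {X : Type} [NormedAddCommGroup X] [NormedSpace ℝ X]
    {U : Set X} (hU : IsOpen U) (j : ℕ) :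
    ∀ {V : Type} [NormedAddCommGroup V] [NormedSpace ℝ V] (Ψ : ℝ × X → V),
      ContDiffOn ℝ ∞ Ψ (univ ×ˢ U) → ∀ (s : ℝ) (x : X), x ∈ U →
      HasDerivAt (fun s => iteratedFDeriv ℝ j (fun y => Ψ (s, y)) x)
        (iteratedFDeriv ℝ j (fun y => fderiv ℝ Ψ (s, y) (1, 0)) x) s := by
  have hO : IsOpen ((univ : Set ℝ) ×ˢ U) := isOpen_univ.prod hU
  induction j with
  | zero =>
    intro V _ _ Ψ hΨ s x hx
    have hd : DifferentiableAt ℝ Ψ (s, x) :=
      (hΨ.contDiffAt (hO.mem_nhds ⟨mem_univ _, hx⟩)).differentiableAt (by simp)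
    have h1 : HasDerivAt (fun s => Ψ (s, x)) (fderiv ℝ Ψ (s, x) (1, 0)) s := by
      have h2 : HasDerivAt (fun s : ℝ => (s, x)) ((1 : ℝ), (0 : X)) s :=
        (hasDerivAt_id s).prodMk (hasDerivAt_const s x)
      exact hd.hasFDerivAt.comp_hasDerivAt s h2
    have h3 := (continuousMultilinearCurryFin0 ℝ X V).symm.toContinuousLinearEquiv.toContinuousLinearMap.hasFDerivAt.comp_hasDerivAt s h1
    simpa [iteratedFDeriv_zero_eq_comp, Function.comp_def] using h3
  | succ j ih =>
    intro V _ _ Ψ hΨ s x hx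
    set Ψ' : ℝ × X → (X →L[ℝ] V) := fun p =>
      (fderiv ℝ Ψ p).comp (ContinuousLinearMap.inr ℝ ℝ X) with hΨ'def
    have hfd : ContDiffOn ℝ ∞ (fderiv ℝ Ψ) (univ ×ˢ U) :=
      hΨ.fderiv_of_isOpen hO (by simp)
    have hΨ' : ContDiffOn ℝ ∞ Ψ' (univ ×ˢ U) := by
      exact hfd.clm_comp contDiffOn_const
    have key := ih Ψ' hΨ' s x hx
    -- identification of the slices
    have hslice : ∀ (s : ℝ), ∀ y ∈ U, fderiv ℝ (fun z => Ψ (s, z)) y = Ψ' (s, y) := by
      intro s y hy
      have hd : DifferentiableAt ℝ Ψ (s, y) :=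
        (hΨ.contDiffAt (hO.mem_nhds ⟨mem_univ _, hy⟩)).differentiableAt (by simp)
      have h2 : HasFDerivAt (fun z : X => (s, z)) (ContinuousLinearMap.inr ℝ ℝ X) y :=
        hasFDerivAt_prodMk_right s y
      exact (hd.hasFDerivAt.comp y h2).fderiv
    have hslice2 : ∀ (s : ℝ), ∀ y ∈ U,
        fderiv ℝ (fun z => fderiv ℝ Ψ (s, z) (1, 0)) y = fderiv ℝ Ψ' (s, y) (1, 0) := by
      intro s y hy
      have hC : ContDiffAt ℝ ∞ Ψ (s, y) := hΨ.contDiffAt (hO.mem_nhds ⟨mem_univ _, hy⟩)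
      have hd : DifferentiableAt ℝ (fderiv ℝ Ψ) (s, y) :=
        (hfd.contDiffAt (hO.mem_nhds ⟨mem_univ _, hy⟩)).differentiableAt (by simp)
      have hsymm : IsSymmSndFDerivAt ℝ Ψ (s, y) := hC.isSymmSndFDerivAt (by
        simp only [minSmoothness_of_isRCLikeNormedField]
        exact WithTop.coe_le_coe.2 (le_top : (2 : ℕ∞) ≤ ⊤))
      have h2 : HasFDerivAt (fun z : X => (s, z)) (ContinuousLinearMap.inr ℝ ℝ X) y :=
        hasFDerivAt_prodMk_right s y
      have h3 : HasFDerivAt (fun z => fderiv ℝ Ψ (s, z))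
          ((fderiv ℝ (fderiv ℝ Ψ) (s, y)).comp (ContinuousLinearMap.inr ℝ ℝ X)) y :=
        hd.hasFDerivAt.comp y h2
      have h4 : HasFDerivAt (fun z => fderiv ℝ Ψ (s, z) (1, 0))
          (((ContinuousLinearMap.apply ℝ V ((1 : ℝ), (0 : X)))).comp
            ((fderiv ℝ (fderiv ℝ Ψ) (s, y)).comp (ContinuousLinearMap.inr ℝ ℝ X))) y :=
        (ContinuousLinearMap.apply ℝ V ((1 : ℝ), (0 : X))).hasFDerivAt.comp y h3
      have h5 : HasFDerivAt Ψ'
          (((ContinuousLinearMap.compL ℝ X (ℝ × X) V).flip (ContinuousLinearMap.inr ℝ ℝ X)).comp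
            (fderiv ℝ (fderiv ℝ Ψ) (s, y))) (s, y) :=
        (((ContinuousLinearMap.compL ℝ X (ℝ × X) V).flip
          (ContinuousLinearMap.inr ℝ ℝ X)).hasFDerivAt).comp (s, y) hd.hasFDerivAt
      rw [h4.fderiv, h5.fderiv]
      ext v
      simp only [ContinuousLinearMap.comp_apply, ContinuousLinearMap.apply_apply,
        ContinuousLinearMap.flip_apply, ContinuousLinearMap.compL_apply,
        ContinuousLinearMap.inr_apply]
      exact hsymm _ _
    have hleft : ∀ s : ℝ, iteratedFDeriv ℝ (j + 1) (fun y => Ψ (s, y)) x =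
        (continuousMultilinearCurryRightEquiv' ℝ j X V).symm
          (iteratedFDeriv ℝ j (fun y => Ψ' (s, y)) x) := by
      intro s
      rw [iteratedFDeriv_succ_eq_comp_right, Function.comp_apply]
      congr 1
      apply Filter.EventuallyEq.eq_of_nhds
      apply Filter.EventuallyEq.iteratedFDeriv
      filter_upwards [hU.mem_nhds hx] with y hy
      exact hslice s y hy
    have hright : iteratedFDeriv ℝ (j + 1) (fun y => fderiv ℝ Ψ (s, y) (1, 0)) x =
        (continuousMultilinearCurryRightEquiv' ℝ j X V).symm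
          (iteratedFDeriv ℝ j (fun y => fderiv ℝ Ψ' (s, y) (1, 0)) x) := by
      rw [iteratedFDeriv_succ_eq_comp_right, Function.comp_apply]
      congr 1
      apply Filter.EventuallyEq.eq_of_nhds
      apply Filter.EventuallyEq.iteratedFDeriv
      filter_upwards [hU.mem_nhds hx] with y hy
      exact hslice2 s y hy
    rw [hright]
    simp only [hleft]
    exact ((continuousMultilinearCurryRightEquiv' ℝ j X V).symm.toContinuousLinearEquiv.toContinuousLinearMap.hasFDerivAt.comp_hasDerivAt s key)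


/-- the generator of the rotation -/
def H442_J (e w : E n) : E n →L[ℝ] E n :=
  (innerSL ℝ e).smulRight w - (innerSL ℝ w).smulRight e

theorem H442_J_apply (e w x : E n) : H442_J e w x = inner ℝ e x • w - inner ℝ w x • e := by
  simp [H442_J]

theorem H442_hasDerivAt_planeRot {e w : E n} (h : Orthonormal ℝ ![e, w]) (θ : ℝ) (x : E n) :
    HasDerivAt (fun s => planeRot h s x) (H442_J e w (planeRot h θ x)) θ := by
  obtain ⟨he, hw, hew⟩ := pair_orthonormal h
  have hwe : inner ℝ w e = (0 : ℝ) := by rw [real_inner_comm]; exact hew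
  have hee : inner ℝ e e = (1 : ℝ) := by rw [real_inner_self_eq_norm_sq, he]; norm_num
  have hww : inner ℝ w w = (1 : ℝ) := by rw [real_inner_self_eq_norm_sq, hw]; norm_num
  simp only [planeRot_apply]
  have h1 : HasDerivAt (fun s : ℝ => (Real.cos s - 1) * inner ℝ e x - Real.sin s * inner ℝ w x)
      (-Real.sin θ * inner ℝ e x - Real.cos θ * inner ℝ w x) θ :=
    (((Real.hasDerivAt_cos θ).sub_const 1).mul_const _).sub ((Real.hasDerivAt_sin θ).mul_const _)
  have h2 : HasDerivAt (fun s : ℝ => (Real.cos s - 1) * inner ℝ w x + Real.sin s * inner ℝ e x)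
      (-Real.sin θ * inner ℝ w x + Real.cos θ * inner ℝ e x) θ :=
    (((Real.hasDerivAt_cos θ).sub_const 1).mul_const _).add ((Real.hasDerivAt_sin θ).mul_const _)
  have h3 := ((hasDerivAt_const θ x).add (h1.smul_const e)).add (h2.smul_const w)
  refine h3.congr_deriv ?_
  rw [H442_J_apply]
  simp only [inner_add_right, inner_smul_right, hee, hww, hew, hwe]
  module

/-- the function `G` -/
def H442_G (e w : E n) (f : Sph n → ℝ) (x : E n) : ℝ := fderiv ℝ (ext0 f) x (H442_J e w x)

theorem H442_isOpen : IsOpen ({0}ᶜ : Set (E n)) := isOpen_compl_singleton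

theorem H442_G_smul (e w : E n) (f : Sph n → ℝ) {c : ℝ} (hc : 0 < c)
    (x : E n) : H442_G e w f (c • x) = H442_G e w f x := by
  have h1 : fderiv ℝ (fun y => ext0 f (c • y)) x = c • fderiv ℝ (ext0 f) (c • x) :=
    fderiv_comp_smul c
  have h2 : (fun y => ext0 f (c • y)) = ext0 f := by
    ext y; exact ext0_smul f hc y
  rw [h2] at h1
  unfold H442_G
  rw [h1, map_smul]
  simp

/-- the derivative of `f` along the rotation -/
def H442_gen (e w : E n) (f : SmoothFun n) : SmoothFun n :=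
  ⟨fun v => H442_G e w f.1 v, by
    have hf : ContDiffOn ℝ ∞ (ext0 f.1) {0}ᶜ := f.2
    have h1 : ContDiffOn ℝ ∞ (fderiv ℝ (ext0 f.1)) {0}ᶜ :=
      hf.fderiv_of_isOpen H442_isOpen (by simp)
    have h2 : ContDiffOn ℝ ∞ (H442_G e w f.1) {0}ᶜ :=
      h1.clm_apply (H442_J e w).contDiff.contDiffOn
    show ContDiffOn ℝ ∞ (ext0 fun v : Sph n => H442_G e w f.1 v) {0}ᶜ
    refine h2.congr ?_
    intro x hx
    have hx0 : x ≠ 0 := by simpa using hx
    rw [ext0_apply _ hx0]
    exact H442_G_smul e w f.1 (by positivity) x⟩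

theorem H442_ext0_gen (e w : E n) (f : SmoothFun n) {x : E n} (hx : x ≠ 0) :
    ext0 (H442_gen e w f).1 x = fderiv ℝ (ext0 f.1) x (H442_J e w x) := by
  rw [ext0_apply _ hx]
  exact H442_G_smul e w f.1 (by positivity) x

theorem H442_planeRot_ne {e w : E n} (h : Orthonormal ℝ ![e, w]) (θ : ℝ) {x : E n} (hx : x ≠ 0) :
    planeRot h θ x ≠ 0 := by simpa using hx

theorem H442_hasDerivAt_ext0 {e w : E n} (h : Orthonormal ℝ ![e, w]) (f : SmoothFun n)
    (θ : ℝ) (x : E n) (hx : x ≠ 0) :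
    HasDerivAt (fun s => ext0 f.1 (planeRot h s x))
      (ext0 (H442_gen e w f).1 (planeRot h θ x)) θ := by
  have hf : ContDiffOn ℝ ∞ (ext0 f.1) {0}ᶜ := f.2
  have hne := H442_planeRot_ne h θ hx
  rw [H442_ext0_gen e w f hne]
  have hd : DifferentiableAt ℝ (ext0 f.1) (planeRot h θ x) :=
    (hf.contDiffAt (H442_isOpen.mem_nhds (by simpa using hne))).differentiableAt (by simp)
  exact hd.hasFDerivAt.comp_hasDerivAt θ (H442_hasDerivAt_planeRot h θ x)

/-- the joint function -/
def H442_Psi {e w : E n} (h : Orthonormal ℝ ![e, w]) (f : SmoothFun n) : ℝ × E n → ℝ :=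
  fun p => ext0 f.1 (planeRot h p.1 p.2)

theorem H442_Psi_smooth {e w : E n} (h : Orthonormal ℝ ![e, w]) (f : SmoothFun n) :
    ContDiffOn ℝ ∞ (H442_Psi h f) (univ ×ˢ {0}ᶜ) := by
  have hf : ContDiffOn ℝ ∞ (ext0 f.1) {0}ᶜ := f.2
  have h1 : ContDiff ℝ ∞ (fun p : ℝ × E n => planeRot h p.1 p.2) := by
    simp only [planeRot_apply]
    have hc : ContDiff ℝ ∞ (fun p : ℝ × E n => Real.cos p.1) := Real.contDiff_cos.comp contDiff_fst
    have hs : ContDiff ℝ ∞ (fun p : ℝ × E n => Real.sin p.1) := Real.contDiff_sin.comp contDiff_fst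
    have hi : ∀ u : E n, ContDiff ℝ ∞ (fun p : ℝ × E n => inner ℝ u p.2) := fun u =>
      contDiff_const.inner ℝ contDiff_snd
    exact (contDiff_snd.add ((((hc.sub contDiff_const).mul (hi e)).sub (hs.mul (hi w))).smul
      contDiff_const)).add ((((hc.sub contDiff_const).mul (hi w)).add (hs.mul (hi e))).smul
      contDiff_const)
  refine hf.comp h1.contDiffOn ?_
  rintro ⟨s, x⟩ ⟨-, hx⟩
  have hx0 : x ≠ 0 := by simpa using hx
  have := H442_planeRot_ne h s hx0
  simpa using this

theorem H442_Psi_deriv {e w : E n} (h : Orthonormal ℝ ![e, w]) (f : SmoothFun n) (s : ℝ)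
    {y : E n} (hy : y ≠ 0) :
    fderiv ℝ (H442_Psi h f) (s, y) (1, 0) = H442_Psi h (H442_gen e w f) (s, y) := by
  have hO : IsOpen ((univ : Set ℝ) ×ˢ ({0}ᶜ : Set (E n))) := isOpen_univ.prod H442_isOpen
  have hd : DifferentiableAt ℝ (H442_Psi h f) (s, y) :=
    ((H442_Psi_smooth h f).contDiffAt (hO.mem_nhds ⟨mem_univ _, by simpa using hy⟩)).differentiableAt
      (by simp)
  have h2 : HasDerivAt (fun s : ℝ => (s, y)) ((1 : ℝ), (0 : E n)) s :=
    (hasDerivAt_id s).prodMk (hasDerivAt_const s y)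
  have h3 := hd.hasFDerivAt.comp_hasDerivAt s h2
  have h4 : HasDerivAt (fun s => H442_Psi h f (s, y)) (H442_Psi h (H442_gen e w f) (s, y)) s :=
    H442_hasDerivAt_ext0 h f s y hy
  exact h3.unique h4

theorem H442_deriv_iterated {e w : E n} (h : Orthonormal ℝ ![e, w]) (f : SmoothFun n) (j : ℕ)
    (s : ℝ) {x : E n} (hx : x ≠ 0) :
    HasDerivAt (fun s => iteratedFDeriv ℝ j (ext0 (smComp f (planeRot h s)).1) x)
      (iteratedFDeriv ℝ j (ext0 (smComp (H442_gen e w f) (planeRot h s)).1) x) s := by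
  have key := H442_hasDerivAt_iteratedFDeriv_family (H442_isOpen (n := n)) j (H442_Psi h f)
    (H442_Psi_smooth h f) s x (by simpa using hx)
  have e1 : ∀ (f : SmoothFun n) (s : ℝ), ext0 (smComp f (planeRot h s)).1 =
      fun y => H442_Psi h f (s, y) := by
    intro f s
    ext y
    exact ext0_comp_act f.1 (planeRot h s) y
  simp only [e1]
  refine key.congr_deriv ?_
  apply Filter.EventuallyEq.eq_of_nhds
  apply Filter.EventuallyEq.iteratedFDeriv
  filter_upwards [H442_isOpen.mem_nhds (show x ∈ ({0}ᶜ : Set (E n)) by simpa using hx)] with y hy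
  exact H442_Psi_deriv h f s (by simpa using hy)

/-- uniform bound for the iterated derivatives on the sphere -/
theorem H442_bound (f : SmoothFun n) (k : ℕ) : ∃ A : ℝ, 0 ≤ A ∧ ∀ j ≤ k, ∀ x : E n, ‖x‖ = 1 →
    ‖iteratedFDeriv ℝ j (ext0 f.1) x‖ ≤ A := by
  have hf : ContDiffOn ℝ ∞ (ext0 f.1) {0}ᶜ := f.2
  have h1 : ∀ j : ℕ, ∃ A : ℝ, 0 ≤ A ∧ ∀ x : E n, ‖x‖ = 1 →
      ‖iteratedFDeriv ℝ j (ext0 f.1) x‖ ≤ A := by
    intro j
    have hc : ContinuousOn (iteratedFDeriv ℝ j (ext0 f.1)) (Metric.sphere (0 : E n) 1) := by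
      have h2 := hf.continuousOn_iteratedFDerivWithin (m := j) (by exact_mod_cast le_top)
        H442_isOpen.uniqueDiffOn
      have h3 : ContinuousOn (iteratedFDeriv ℝ j (ext0 f.1)) ({0}ᶜ : Set (E n)) :=
        h2.congr fun x hx => (iteratedFDerivWithin_of_isOpen j H442_isOpen hx).symm
      refine h3.mono ?_
      intro x hx
      have : ‖x‖ = 1 := by simpa using hx
      intro h0
      have : x = 0 := by simpa using h0
      subst this
      simp at *
    obtain ⟨A, hA⟩ := (isCompact_sphere (0 : E n) 1).exists_bound_of_continuousOn hc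
    refine ⟨max A 0, le_max_right _ _, fun x hx => (hA x (by simpa using hx)).trans (le_max_left _ _)⟩
  choose A hA0 hA using h1
  refine ⟨∑ j ∈ Finset.range (k + 1), A j, Finset.sum_nonneg fun j _ => hA0 j, ?_⟩
  intro j hj x hx
  refine (hA j x hx).trans ?_
  exact Finset.single_le_sum (f := A) (fun i _ => hA0 i) (Finset.mem_range.2 (by omega))

/-- second order Taylor estimate from bounds of the second derivative -/
theorem H442_taylor {V : Type} [NormedAddCommGroup V] [NormedSpace ℝ V] {a b c : ℝ → V} {A : ℝ}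
    (hA : 0 ≤ A)
    (hab : ∀ s, HasDerivAt a (b s) s) (hbc : ∀ s, HasDerivAt b (c s) s) (hc : ∀ s, ‖c s‖ ≤ A)
    (θ t : ℝ) : ‖a (θ + t) - a θ - t • b θ‖ ≤ A * t ^ 2 := by
  have h1 : ∀ s, ‖b s - b θ‖ ≤ A * ‖s - θ‖ := fun s =>
    Convex.norm_image_sub_le_of_norm_hasDerivWithin_le (s := univ)
      (fun x _ => (hbc x).hasDerivWithinAt) (fun x _ => hc x) convex_univ (mem_univ _) (mem_univ _)
  have h2 : ∀ s, HasDerivAt (fun s => a s - s • b θ) (b s - b θ) s := by
    intro s
    have := (hab s).sub ((hasDerivAt_id s).smul_const (b θ))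
    rw [one_smul] at this
    exact this
  have h3 : ∀ s ∈ segment ℝ θ (θ + t), ‖b s - b θ‖ ≤ A * |t| := by
    intro s hs
    refine (h1 s).trans ?_
    refine mul_le_mul_of_nonneg_left ?_ hA
    rw [segment_eq_image] at hs
    obtain ⟨r, ⟨hr0, hr1⟩, rfl⟩ := hs
    have : (1 - r) • θ + r • (θ + t) - θ = r * t := by simp only [smul_eq_mul]; ring
    rw [this, norm_mul, Real.norm_eq_abs, Real.norm_eq_abs, abs_of_nonneg hr0]
    exact mul_le_of_le_one_left (abs_nonneg _) hr1
  have h4 := Convex.norm_image_sub_le_of_norm_hasDerivWithin_le (s := segment ℝ θ (θ + t))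
    (fun x _ => (h2 x).hasDerivWithinAt) h3 (convex_segment _ _) (left_mem_segment ℝ θ (θ + t))
    (right_mem_segment ℝ θ (θ + t))
  have h5 : a (θ + t) - (θ + t) • b θ - (a θ - θ • b θ) = a (θ + t) - a θ - t • b θ := by
    module
  rw [h5] at h4
  refine h4.trans (le_of_eq ?_)
  have : θ + t - θ = t := by ring
  rw [this, Real.norm_eq_abs, mul_assoc, abs_mul_abs_self]
  ring

/-! ### TARGET -/

theorem deriv_exchange {n : ℕ} {e w : E n} (h : Orthonormal ℝ ![e, w]) (f : SmoothFun n) :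
    ∃ g : SmoothFun n,
      (∀ (θ : ℝ) (x : E n), x ≠ 0 →
        HasDerivAt (fun s => ext0 f.1 (planeRot h s x)) (ext0 g.1 (planeRot h θ x)) θ) ∧
      ∀ μ : SmoothFun n →ₗ[ℝ] ℝ,
        (∃ (k : ℕ) (C : ℝ), ∀ (f : SmoothFun n) (M : ℝ),
          (∀ j ≤ k, ∀ x : E n, ‖x‖ = 1 → ‖iteratedFDeriv ℝ j (ext0 f.1) x‖ ≤ M) → |μ f| ≤ C * M) →
        ∀ θ, HasDerivAt (fun θ => μ (smComp f (planeRot h θ))) (μ (smComp g (planeRot h θ))) θ := by
  refine ⟨H442_gen e w f, fun θ x hx => H442_hasDerivAt_ext0 h f θ x hx, ?_⟩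
  rintro μ ⟨k, C, hμ⟩ θ
  set g := H442_gen e w f with hg
  set g₂ := H442_gen e w g with hg₂
  obtain ⟨A, hA0, hA⟩ := H442_bound g₂ k
  -- the bound for the second derivative
  have hbd : ∀ j ≤ k, ∀ x : E n, ‖x‖ = 1 → ∀ s : ℝ,
      ‖iteratedFDeriv ℝ j (ext0 (smComp g₂ (planeRot h s)).1) x‖ ≤ A := by
    intro j hj x hx s
    have e1 : ext0 (smComp g₂ (planeRot h s)).1 = ext0 g₂.1 ∘ planeRot h s := by
      ext y
      exact ext0_comp_act g₂.1 (planeRot h s) y
    rw [e1, LinearIsometryEquiv.norm_iteratedFDeriv_comp_right]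
    exact hA j hj _ (by simpa using hx)
  -- the remainder
  have hrem : ∀ t : ℝ, |μ (smComp f (planeRot h (θ + t))) - μ (smComp f (planeRot h θ)) -
      t * μ (smComp g (planeRot h θ))| ≤ |C| * A * t ^ 2 := by
    intro t
    have e2 : μ (smComp f (planeRot h (θ + t))) - μ (smComp f (planeRot h θ)) -
      t * μ (smComp g (planeRot h θ)) = μ (smComp f (planeRot h (θ + t)) -
        smComp f (planeRot h θ) - t • smComp g (planeRot h θ)) := by
      simp
    rw [e2]
    refine (hμ _ (A * t ^ 2) ?_).trans ?_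
    · intro j hj x hx
      have hx0 : x ≠ 0 := by rintro rfl; simp at hx
      have e3 : ext0 (smComp f (planeRot h (θ + t)) - smComp f (planeRot h θ) -
          t • smComp g (planeRot h θ)).1 = fun y => ext0 (smComp f (planeRot h (θ + t))).1 y -
            ext0 (smComp f (planeRot h θ)).1 y - t * ext0 (smComp g (planeRot h θ)).1 y := by
        ext y
        by_cases hy : y = 0
        · simp [ext0, hy]
        · simp [ext0, hy]
      have hsm : ∀ φ : SmoothFun n, ContDiffAt ℝ j (ext0 φ.1) x := by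
        intro φ
        have hφ : ContDiffOn ℝ ∞ (ext0 φ.1) {0}ᶜ := φ.2
        exact (hφ.contDiffAt (H442_isOpen.mem_nhds (by simpa using hx0))).of_le
          (by exact_mod_cast le_top)
      have e4 : iteratedFDeriv ℝ j (ext0 (smComp f (planeRot h (θ + t)) -
          smComp f (planeRot h θ) - t • smComp g (planeRot h θ)).1) x =
          iteratedFDeriv ℝ j (ext0 (smComp f (planeRot h (θ + t))).1) x -
          iteratedFDeriv ℝ j (ext0 (smComp f (planeRot h θ)).1) x -
          t • iteratedFDeriv ℝ j (ext0 (smComp g (planeRot h θ)).1) x := by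
        rw [e3]
        have e5 : ∀ P Q R : E n → ℝ, ContDiffAt ℝ j P x → ContDiffAt ℝ j Q x → ContDiffAt ℝ j R x →
            iteratedFDeriv ℝ j (P - Q - t • R) x = iteratedFDeriv ℝ j P x -
              iteratedFDeriv ℝ j Q x - t • iteratedFDeriv ℝ j R x := by
          intro P Q R hP hQ hR
          have hPQ : ContDiffAt ℝ j (P - Q) x := hP.sub hQ
          have htR : ContDiffAt ℝ j (t • R) x := hR.const_smul t
          rw [iteratedFDeriv_sub_apply hPQ htR,
            iteratedFDeriv_sub_apply hP hQ, iteratedFDeriv_const_smul_apply hR]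
        exact e5 _ _ _ (hsm _) (hsm _) (hsm _)
      rw [e4]
      exact H442_taylor hA0 (fun s => H442_deriv_iterated h f j s hx0)
        (fun s => H442_deriv_iterated h g j s hx0) (fun s => hbd j hj x hx s) θ t
    · rw [mul_assoc]
      exact mul_le_mul_of_nonneg_right (le_abs_self C) (by positivity)
  rw [hasDerivAt_iff_isLittleO_nhds_zero]
  refine Asymptotics.IsBigO.trans_isLittleO (g := fun t : ℝ => t ^ 2) ?_ ?_
  · refine Asymptotics.IsBigO.of_bound (|C| * A) (Filter.Eventually.of_forall fun t => ?_)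
    have := hrem t
    rw [Real.norm_eq_abs, Real.norm_eq_abs, abs_of_nonneg (sq_nonneg t)]
    simpa using this
  · have := Asymptotics.isLittleO_pow_pow (𝕜 := ℝ) (m := 1) (n := 2) (by norm_num)
    simpa using this

end

end Pool.Agent.Helper115_ME
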