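import Mathlib
import Pool.Agent.Helper115_ME.BodyCirc
import Pool.Agent.Helper115_ME.DerivEx
import Pool.Agent.Helper115_ME.PolyS

/-!
# The functional `f ↦ μ(f) + (d/dθ)² μ(f ∘ ρ_θ)` of a distribution, and the function `Rc f`
-/

set_option autoImplicit false

namespace Pool.Agent.Helper115_ME

open MeasureTheory Metric Set Filter Topology
open scoped ContDiff

noncomputable section

variable {n : ℕ}

/-- `θ ↦ μ(f ∘ ρ_θ)` -/
def circF {e w : E n} (h : Orthonormal ℝ ![e, w]) (μ : SmoothFun n →ₗ[ℝ] ℝ) (f : SmoothFun n) (θ : ℝ) : ℝ :=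
  μ (smComp f (planeRot h θ))

theorem contDiff_circF_nat {e w : E n} (h : Orthonormal ℝ ![e, w]) {μ : SmoothFun n →ₗ[ℝ] ℝ}
    (hμ : IsContFun μ) (m : ℕ) : ∀ f : SmoothFun n, ContDiff ℝ m (circF h μ f) := by
  induction m with
  | zero =>
    intro f
    obtain ⟨g, -, hg⟩ := deriv_exchange h f
    have h1 : ∀ θ, HasDerivAt (circF h μ f) (circF h μ g θ) θ := hg μ hμ
    have : Continuous (circF h μ f) := continuous_iff_continuousAt.2 fun θ => (h1 θ).continuousAt
    exact contDiff_zero.2 this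
  | succ m ih =>
    intro f
    obtain ⟨g, -, hg⟩ := deriv_exchange h f
    have h1 : ∀ θ, HasDerivAt (circF h μ f) (circF h μ g θ) θ := hg μ hμ
    have h2 : deriv (circF h μ f) = circF h μ g := funext fun θ => (h1 θ).deriv
    have h3 : ContDiff ℝ ((m : ℕ∞ω) + 1) (circF h μ f) := by
      rw [contDiff_succ_iff_deriv]
      refine ⟨fun θ => (h1 θ).differentiableAt, ?_, ?_⟩
      · intro hm
        exact absurd hm (by exact_mod_cast WithTop.coe_ne_top)
      · rw [h2]; exact ih g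
    exact_mod_cast h3

theorem contDiff_circF {e w : E n} (h : Orthonormal ℝ ![e, w]) {μ : SmoothFun n →ₗ[ℝ] ℝ}
    (hμ : IsContFun μ) (f : SmoothFun n) : ContDiff ℝ 2 (circF h μ f) :=
  contDiff_circF_nat h hμ 2 f

theorem smComp_add (f g : SmoothFun n) (ϑ : E n ≃ₗᵢ[ℝ] E n) :
    smComp (f + g) ϑ = smComp f ϑ + smComp g ϑ := rfl

theorem smComp_smul (c : ℝ) (f : SmoothFun n) (ϑ : E n ≃ₗᵢ[ℝ] E n) :
    smComp (c • f) ϑ = c • smComp f ϑ := rfl

theorem smComp_trans (f : SmoothFun n) (ϑ η : E n ≃ₗᵢ[ℝ] E n) :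
    smComp f (ϑ.trans η) = smComp (smComp f η) ϑ := rfl

/-- `f ↦ μ(f) + (d/dθ)² μ(f ∘ ρ_θ)` at `θ = 0`, as a linear map -/
def ell {e w : E n} (h : Orthonormal ℝ ![e, w]) {μ : SmoothFun n →ₗ[ℝ] ℝ} (hμ : IsContFun μ) :
    SmoothFun n →ₗ[ℝ] ℝ where
  toFun f := μ f + iteratedDeriv 2 (circF h μ f) 0
  map_add' f g := by
    have h1 : circF h μ (f + g) = circF h μ f + circF h μ g := by
      ext θ; simp [circF, smComp_add]
    rw [h1, iteratedDeriv_add (contDiff_circF h hμ f).contDiffAt (contDiff_circF h hμ g).contDiffAt,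
      map_add]
    ring
  map_smul' c f := by
    have h1 : circF h μ (c • f) = c • circF h μ f := by
      ext θ; simp [circF, smComp_smul]
    rw [h1, iteratedDeriv_const_smul (contDiff_circF h hμ f).contDiffAt, map_smul]
    simp only [smul_eq_mul, RingHom.id_apply]
    ring

theorem ell_apply {e w : E n} (h : Orthonormal ℝ ![e, w]) {μ : SmoothFun n →ₗ[ℝ] ℝ} (hμ : IsContFun μ)
    (f : SmoothFun n) : ell h hμ f = μ f + iteratedDeriv 2 (circF h μ f) 0 := rfl

/-- the second derivative in terms of a function on the sphere -/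
theorem exists_second {e w : E n} (h : Orthonormal ℝ ![e, w]) (f : SmoothFun n) :
    ∃ g : SmoothFun n, (∀ v : Sph n,
      g.1 v = iteratedDeriv 2 (fun s => ext0 f.1 (planeRot h s (v : E n))) 0) ∧
      ∀ (μ : SmoothFun n →ₗ[ℝ] ℝ) (hμ : IsContFun μ), ell h hμ f = μ f + μ g := by
  obtain ⟨g, hg1, hg2⟩ := deriv_exchange h f
  obtain ⟨k, hk1, hk2⟩ := deriv_exchange h g
  refine ⟨k, fun v => ?_, fun μ hμ => ?_⟩
  · have hv : (v : E n) ≠ 0 := by
      intro h0
      have : ‖(v : E n)‖ = 1 := by simp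
      rw [h0, norm_zero] at this
      exact zero_ne_one this
    have e1 : deriv (fun s => ext0 f.1 (planeRot h s (v : E n))) = fun s => ext0 g.1 (planeRot h s (v : E n)) :=
      funext fun θ => (hg1 θ v hv).deriv
    rw [iteratedDeriv_succ, iteratedDeriv_one, e1, (hk1 0 v hv).deriv, planeRot_zero, ext0_sphere]
  · rw [ell_apply]
    have e1 : deriv (circF h μ f) = circF h μ g := funext fun θ => (hg2 μ hμ θ).deriv
    have e2 : deriv (circF h μ g) 0 = circF h μ k 0 := (hk2 μ hμ 0).deriv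
    rw [iteratedDeriv_succ, iteratedDeriv_one, e1, e2]
    have e3 : smComp k (planeRot h 0) = k := by
      apply Subtype.ext
      funext v
      have e4 : act (planeRot h 0) v = v := Subtype.ext (planeRot_zero h _)
      show k.1 (act (planeRot h 0) v) = k.1 v
      rw [e4]
    show μ f + μ (smComp k (planeRot h 0)) = μ f + μ k
    rw [e3]

/-! ### the function `Rc f` -/

theorem ne_zero_of_norm_one {x : E n} (h : ‖x‖ = 1) : x ≠ 0 := by
  intro h0
  rw [h0, norm_zero] at h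
  exact zero_ne_one h

theorem Rc_eq {f : Sph n → ℝ} (hf : IsSmooth f) {u : E n} (hu : u ≠ 0) (w : E n) :
    Rc f (u, w) = ext0 f u + (fderiv ℝ (fderiv ℝ (ext0 f)) u w w - fderiv ℝ (ext0 f) u u) := by
  have hopen : IsOpen ({0}ᶜ : Set (E n)) := isOpen_compl_singleton
  have hd1 : ∀ x : E n, x ≠ 0 → HasFDerivAt (ext0 f) (fderiv ℝ (ext0 f) x) x := fun x hx =>
    ((ContDiffOn.contDiffAt hf (hopen.mem_nhds hx)).differentiableAt (by simp)).hasFDerivAt
  have hf1 : ContDiffOn ℝ ∞ (fderiv ℝ (ext0 f)) {0}ᶜ := ContDiffOn.fderiv_of_isOpen hf hopen (by simp)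
  have hd2 : ∀ x : E n, x ≠ 0 → HasFDerivAt (fderiv ℝ (ext0 f)) (fderiv ℝ (fderiv ℝ (ext0 f)) x) x := fun x hx =>
    ((hf1.contDiffAt (hopen.mem_nhds hx)).differentiableAt (by simp)).hasFDerivAt
  set γ : ℝ → E n := fun s => Real.cos s • u + Real.sin s • w with hγ
  have hγ0 : γ 0 = u := by simp [hγ]
  have hγ1 : ∀ s, HasDerivAt γ (- Real.sin s • u + Real.cos s • w) s := fun s =>
    ((Real.hasDerivAt_cos s).smul_const u).add ((Real.hasDerivAt_sin s).smul_const w)
  have hγc : Continuous γ := by simp only [hγ]; fun_prop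
  have hne : ∀ᶠ s in 𝓝 (0 : ℝ), γ s ≠ 0 := by
    have : Tendsto γ (𝓝 0) (𝓝 u) := by simpa [hγ0] using hγc.tendsto 0
    exact this.eventually (hopen.mem_nhds hu)
  have e1 : ∀ᶠ s in 𝓝 (0 : ℝ), deriv (fun s => ext0 f (γ s)) s =
      fderiv ℝ (ext0 f) (γ s) (- Real.sin s • u + Real.cos s • w) := by
    filter_upwards [hne] with s hs
    exact ((hd1 _ hs).comp_hasDerivAt s (hγ1 s)).deriv
  have e2 : HasDerivAt (fun s => fderiv ℝ (ext0 f) (γ s) (- Real.sin s • u + Real.cos s • w))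
      (fderiv ℝ (fderiv ℝ (ext0 f)) u w w - fderiv ℝ (ext0 f) u u) 0 := by
    have h1 : HasDerivAt (fun s => fderiv ℝ (ext0 f) (γ s)) (fderiv ℝ (fderiv ℝ (ext0 f)) u w) 0 := by
      have h2 := (hd2 (γ 0) (by rw [hγ0]; exact hu)).comp_hasDerivAt 0 (hγ1 0)
      simpa [hγ0, Function.comp_def] using h2
    have h3 : HasDerivAt (fun s : ℝ => - Real.sin s • u + Real.cos s • w) (-u) 0 := by
      have h4 : HasDerivAt (fun s : ℝ => - Real.sin s • u + Real.cos s • w)
          (-Real.cos 0 • u + (-Real.sin 0) • w) 0 :=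
        (((Real.hasDerivAt_sin 0).neg).smul_const u).add ((Real.hasDerivAt_cos 0).smul_const w)
      refine h4.congr_deriv ?_
      simp
    have h5 := h1.clm_apply h3
    simpa [hγ0, sub_eq_add_neg] using h5
  show ext0 f u + iteratedDeriv 2 (fun s : ℝ => ext0 f (γ s)) 0 = _
  rw [iteratedDeriv_succ, iteratedDeriv_one, Filter.EventuallyEq.deriv_eq e1, e2.deriv]

theorem continuousOn_Rc {f : Sph n → ℝ} (hf : IsSmooth f) :
    ContinuousOn (Rc f) {p : E n × E n | p.1 ≠ 0} := by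
  have hopen : IsOpen ({0}ᶜ : Set (E n)) := isOpen_compl_singleton
  have h0 : ContinuousOn (ext0 f) {0}ᶜ := ContDiffOn.continuousOn hf
  have hf1 : ContDiffOn ℝ ∞ (fderiv ℝ (ext0 f)) {0}ᶜ := ContDiffOn.fderiv_of_isOpen hf hopen (by simp)
  have hf2 : ContDiffOn ℝ ∞ (fderiv ℝ (fderiv ℝ (ext0 f))) {0}ᶜ := ContDiffOn.fderiv_of_isOpen hf1 hopen (by simp)
  have hm : MapsTo (Prod.fst : E n × E n → E n) {p : E n × E n | p.1 ≠ 0} {0}ᶜ := fun p hp => hp
  have c1 : ContinuousOn (fun p : E n × E n => ext0 f p.1) {p : E n × E n | p.1 ≠ 0} :=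
    h0.comp continuousOn_fst hm
  have c2 : ContinuousOn (fun p : E n × E n => fderiv ℝ (ext0 f) p.1 p.1) {p : E n × E n | p.1 ≠ 0} :=
    (hf1.continuousOn.comp continuousOn_fst hm).clm_apply continuousOn_fst
  have c3 : ContinuousOn (fun p : E n × E n => fderiv ℝ (fderiv ℝ (ext0 f)) p.1 p.2 p.2)
      {p : E n × E n | p.1 ≠ 0} :=
    ((hf2.continuousOn.comp continuousOn_fst hm).clm_apply continuousOn_snd).clm_apply continuousOn_snd
  refine (c1.add (c3.sub c2)).congr fun p hp => ?_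
  exact Rc_eq hf hp p.2

theorem Rc_add {f g : Sph n → ℝ} (hf : IsSmooth f) (hg : IsSmooth g) {p : E n × E n}
    (hp : Orthonormal ℝ ![p.1, p.2]) : Rc (f + g) p = Rc f p + Rc g p := by
  have h2 : (2 : ℕ∞ω) ≤ ∞ := two_le_infty
  have h1 : (fun s : ℝ => ext0 (f + g) (Real.cos s • p.1 + Real.sin s • p.2)) =
      (fun s : ℝ => ext0 f (Real.cos s • p.1 + Real.sin s • p.2)) +
      (fun s : ℝ => ext0 g (Real.cos s • p.1 + Real.sin s • p.2)) := by
    ext s; simp [ext0_add]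
  simp only [Rc]
  rw [h1, iteratedDeriv_add ((contDiff_circle hf hp).of_le h2).contDiffAt
    ((contDiff_circle hg hp).of_le h2).contDiffAt, ext0_add]
  simp only [Pi.add_apply]
  ring

theorem Rc_smul (c : ℝ) {f : Sph n → ℝ} (hf : IsSmooth f) {p : E n × E n}
    (hp : Orthonormal ℝ ![p.1, p.2]) : Rc (c • f) p = c * Rc f p := by
  have h2 : (2 : ℕ∞ω) ≤ ∞ := two_le_infty
  have h1 : (fun s : ℝ => ext0 (c • f) (Real.cos s • p.1 + Real.sin s • p.2)) =
      c • (fun s : ℝ => ext0 f (Real.cos s • p.1 + Real.sin s • p.2)) := by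
    ext s; simp [ext0_const_smul]
  simp only [Rc]
  rw [h1, iteratedDeriv_const_smul ((contDiff_circle hf hp).of_le h2).contDiffAt, ext0_const_smul]
  simp only [Pi.smul_apply, smul_eq_mul]
  ring

theorem Rc_comp (f : Sph n → ℝ) (ϑ : E n ≃ₗᵢ[ℝ] E n) (p : E n × E n) :
    Rc (fun v => f (act ϑ v)) p = Rc f (ϑ p.1, ϑ p.2) := by
  simp only [Rc, ext0_comp_act, map_add, map_smul]

/-- the constant function `1` -/
def oneS (n : ℕ) : SmoothFun n := ⟨fun _ => 1, isSmooth_of_contDiff (F := fun _ => 1) contDiff_const⟩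

theorem Rc_one {p : E n × E n} (hp : Orthonormal ℝ ![p.1, p.2]) : Rc (oneS n).1 p = 1 := by
  have h1 : ∀ x : E n, x ≠ 0 → ext0 (oneS n).1 x = 1 := fun x hx => by rw [ext0_apply _ hx]; rfl
  have h2 : (fun s : ℝ => ext0 (oneS n).1 (Real.cos s • p.1 + Real.sin s • p.2)) = fun _ => (1 : ℝ) :=
    funext fun s => h1 _ (ne_zero_of_norm_one (norm_circle hp s))
  simp only [Rc]
  rw [h2, h1 _ (ne_zero_of_norm_one (pair_orthonormal hp).1)]
  simp [iteratedDeriv_const]

theorem smComp_one (ϑ : E n ≃ₗᵢ[ℝ] E n) : smComp (oneS n) ϑ = oneS n := rfl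

theorem ell_one {e w : E n} (h : Orthonormal ℝ ![e, w]) {μ : SmoothFun n →ₗ[ℝ] ℝ} (hμ : IsContFun μ) :
    ell h hμ (oneS n) = μ (oneS n) := by
  rw [ell_apply]
  have h1 : circF h μ (oneS n) = fun _ => μ (oneS n) := rfl
  rw [h1]
  simp [iteratedDeriv_const]

end

end Pool.Agent.Helper115_ME
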