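import Mathlib
import Pool.Agent.H212R2.KLS.L1
set_option autoImplicit false

namespace Pool.Agent.Helper115_ME

open scoped ContDiff
open MeasureTheory Set Filter Topology
open Pool.Agent.H212R2.KLS (L1_kernel L1_unif ev)

variable {n : ℕ}

/-- convolution with the Landau kernel -/
noncomputable def cv {W : Type*} [NormedAddCommGroup W] [NormedSpace ℝ W] (N : ℕ)
    (Φ : EuclideanSpace ℝ (Fin n) → W) (x : EuclideanSpace ℝ (Fin n)) : W :=
  (∫ z in Metric.closedBall (0 : EuclideanSpace ℝ (Fin n)) 4,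
      (1 - ((4 : ℝ) ^ 2)⁻¹ * ‖z‖ ^ 2) ^ N)⁻¹ •
    ∫ z in Metric.closedBall (0 : EuclideanSpace ℝ (Fin n)) 4,
      (1 - ((4 : ℝ) ^ 2)⁻¹ * ‖z‖ ^ 2) ^ N • Φ (x - z)

/-- differentiation under the integral sign -/
theorem cv_hasFDerivAt {W : Type*} [NormedAddCommGroup W] [NormedSpace ℝ W] [CompleteSpace W]
    (N : ℕ) (Φ : EuclideanSpace ℝ (Fin n) → W) (hf : ContDiff ℝ 1 Φ) (hc' : HasCompactSupport Φ)
    (x : EuclideanSpace ℝ (Fin n)) : HasFDerivAt (cv N Φ) (cv N (fderiv ℝ Φ) x) x := by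
  have hfc : Continuous Φ := hf.continuous
  have hfd : Continuous (fderiv ℝ Φ) := hf.continuous_fderiv (by norm_num)
  have hfdcs : HasCompactSupport (fderiv ℝ Φ) := hc'.fderiv ℝ
  obtain ⟨B, hB⟩ := hfd.bounded_above_of_compact_support hfdcs
  set s : Set (EuclideanSpace ℝ (Fin n)) := Metric.closedBall 0 4 with hs
  set c : EuclideanSpace ℝ (Fin n) → ℝ := fun z => 1 - ((4 : ℝ) ^ 2)⁻¹ * ‖z‖ ^ 2 with hc
  have hcc : Continuous c := by
    rw [hc]; fun_prop
  have hcb : ∀ z ∈ s, |c z| ≤ 1 := by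
    intro z hz
    have hy' : ‖z‖ ≤ 4 := by simpa [hs] using hz
    have h1 : ‖z‖ ^ 2 ≤ 4 ^ 2 := by gcongr
    have h2 : ((4 : ℝ) ^ 2)⁻¹ * ‖z‖ ^ 2 ≤ 1 := by
      rw [inv_mul_le_iff₀ (by positivity), mul_one]
      exact h1
    have h3 : 0 ≤ ((4 : ℝ) ^ 2)⁻¹ * ‖z‖ ^ 2 := by positivity
    simp only [hc]
    rw [abs_le]
    constructor <;> linarith
  have hmain : HasFDerivAt (fun x => ∫ z in s, c z ^ N • Φ (x - z))
      (∫ z in s, c z ^ N • fderiv ℝ Φ (x - z)) x := by
    apply hasFDerivAt_integral_of_dominated_of_fderiv_le (μ := volume.restrict s)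
      (F := fun x z => c z ^ N • Φ (x - z))
      (F' := fun x z => c z ^ N • fderiv ℝ Φ (x - z)) (x₀ := x) (bound := fun _ => B)
      (s := Set.univ) Filter.univ_mem
    · filter_upwards with x'
      apply Continuous.aestronglyMeasurable
      fun_prop
    · apply ContinuousOn.integrableOn_compact (isCompact_closedBall _ _)
      apply Continuous.continuousOn
      fun_prop
    · apply Continuous.aestronglyMeasurable
      fun_prop
    · rw [ae_restrict_iff' measurableSet_closedBall]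
      filter_upwards with z hz x' _
      rw [norm_smul, norm_pow, Real.norm_eq_abs]
      have h1 : |c z| ^ N ≤ 1 := pow_le_one₀ (abs_nonneg _) (hcb z hz)
      calc |c z| ^ N * ‖fderiv ℝ Φ (x' - z)‖ ≤ 1 * B := by
            gcongr
            exact hB _
        _ = B := one_mul _
    · have : IntegrableOn (fun _ : EuclideanSpace ℝ (Fin n) => B) s volume := by
        apply ContinuousOn.integrableOn_compact (isCompact_closedBall _ _)
        exact continuousOn_const
      exact this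
    · filter_upwards with z x' _
      have h1 : HasFDerivAt Φ (fderiv ℝ Φ (x' - z)) (x' - z) :=
        (hf.differentiable (by norm_num)).differentiableAt.hasFDerivAt
      have h2 : HasFDerivAt (fun x => Φ (x - z)) (fderiv ℝ Φ (x' - z)) x' :=
        h1.comp x' ((hasFDerivAt_id x').sub_const z)
      exact h2.const_smul (c z ^ N)
  exact hmain.const_smul _

/-- the convolution commutes with continuous linear maps -/
theorem cv_clm {W W' : Type*} [NormedAddCommGroup W] [NormedSpace ℝ W] [CompleteSpace W]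
    [NormedAddCommGroup W'] [NormedSpace ℝ W'] [CompleteSpace W'] (A : W →L[ℝ] W')
    (N : ℕ) (Φ : EuclideanSpace ℝ (Fin n) → W) (hf : Continuous Φ) (x : EuclideanSpace ℝ (Fin n)) :
    A (cv N Φ x) = cv N (fun y => A (Φ y)) x := by
  unfold cv
  rw [map_smul, ← ContinuousLinearMap.integral_comp_comm]
  · simp only [map_smul]
  · apply ContinuousOn.integrableOn_compact (isCompact_closedBall _ _)
    apply Continuous.continuousOn
    fun_prop

theorem cv_iter (N : ℕ) (G : EuclideanSpace ℝ (Fin n) → ℝ) (hG : ContDiff ℝ ∞ G)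
    (hc : HasCompactSupport G) (j : ℕ) :
    iteratedFDeriv ℝ j (cv N G) = cv N (iteratedFDeriv ℝ j G) := by
  induction j with
  | zero =>
    funext x
    have h1 := cv_clm (continuousMultilinearCurryFin0 ℝ (EuclideanSpace ℝ (Fin n))
      ℝ).symm.toContinuousLinearEquiv.toContinuousLinearMap N G hG.continuous x
    rw [iteratedFDeriv_zero_eq_comp]
    exact h1
  | succ j ih =>
    have hcs : HasCompactSupport (iteratedFDeriv ℝ j G) := hc.iteratedFDeriv (𝕜 := ℝ) j
    have hsm : ContDiff ℝ 1 (iteratedFDeriv ℝ j G) :=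
      hG.iteratedFDeriv_right (m := 1) (by norm_cast; exact le_top)
    funext x
    rw [iteratedFDeriv_succ_eq_comp_left, Function.comp_apply, ih,
      (cv_hasFDerivAt N _ hsm hcs x).fderiv, iteratedFDeriv_succ_eq_comp_left]
    have h1 := cv_clm
      (continuousMultilinearCurryLeftEquiv ℝ (fun _ : Fin (j + 1) => EuclideanSpace ℝ (Fin n))
        ℝ).symm.toContinuousLinearEquiv.toContinuousLinearMap N
      (fderiv ℝ (iteratedFDeriv ℝ j G)) (hsm.continuous_fderiv (by norm_num)) x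
    exact h1

/-- the compactly supported case -/
theorem dense_core (G : EuclideanSpace ℝ (Fin n) → ℝ) (hG : ContDiff ℝ ∞ G)
    (hsupp : ∀ y, 2 < ‖y‖ → G y = 0) (k : ℕ) {ε : ℝ} (hε : 0 < ε) :
    ∃ P : MvPolynomial (Fin n) ℝ, ∀ j ≤ k, ∀ x : EuclideanSpace ℝ (Fin n), ‖x‖ ≤ 1 →
      ‖iteratedFDeriv ℝ j G x -
        iteratedFDeriv ℝ j (fun y : EuclideanSpace ℝ (Fin n) => MvPolynomial.eval y.ofLp P) x‖ ≤ ε := by
  have hfcs : HasCompactSupport G := by
    apply HasCompactSupport.intro (isCompact_closedBall (0 : EuclideanSpace ℝ (Fin n)) 2)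
    intro x hx
    apply hsupp
    simpa using hx
  have hcont : ∀ j : ℕ, Continuous (iteratedFDeriv ℝ j G) := fun j =>
    hG.continuous_iteratedFDeriv (by norm_cast; exact le_top)
  choose Nf hNf using fun j : ℕ => L1_unif (volume : Measure (EuclideanSpace ℝ (Fin n)))
    (iteratedFDeriv ℝ j G) (hcont j) 1 4 ε (by norm_num) hε
  set N := (Finset.range (k + 1)).sup Nf with hN
  have hN' : ∀ j ≤ k, Nf j ≤ N := fun j hj => Finset.le_sup (Finset.mem_range.mpr (by omega))
  -- the polynomial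
  set c : EuclideanSpace ℝ (Fin n) → ℝ := fun z => 1 - ((4 : ℝ) ^ 2)⁻¹ * ‖z‖ ^ 2 with hc
  set s : Set (EuclideanSpace ℝ (Fin n)) := Metric.closedBall 0 4 with hs
  set M : ℝ := (∫ z in s, c z ^ N)⁻¹ with hM
  let P : MvPolynomial (Fin n ⊕ Fin n) ℝ :=
    (1 - MvPolynomial.C (((4 : ℝ) ^ 2)⁻¹) *
      ∑ i, (MvPolynomial.X (Sum.inl i) - MvPolynomial.X (Sum.inr i)) ^ 2) ^ N
  have hPev : ∀ x y : EuclideanSpace ℝ (Fin n),
      MvPolynomial.eval (Sum.elim x.ofLp y.ofLp) P = c (x - y) ^ N := by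
    intro x y
    simp only [P, hc, map_pow, map_sub, map_one, map_mul, MvPolynomial.eval_C, map_sum,
      MvPolynomial.eval_X, Sum.elim_inl, Sum.elim_inr]
    rw [EuclideanSpace.norm_sq_eq]
    simp
  obtain ⟨Q, hQ⟩ := L1_kernel P G hG.continuous hfcs
  have hHQ : ∀ x : EuclideanSpace ℝ (Fin n), ‖x‖ < 2 →
      MvPolynomial.eval x.ofLp (MvPolynomial.C M * Q) = cv N G x := by
    intro x hx
    have e : MvPolynomial.eval x.ofLp (MvPolynomial.C M * Q) = M * ev Q x := by simp [ev]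
    rw [e, hQ]
    unfold cv
    rw [smul_eq_mul]
    congr 1
    rw [setIntegral_eq_integral_of_forall_compl_eq_zero]
    · rw [← integral_sub_left_eq_self
        (fun y => MvPolynomial.eval (Sum.elim x.ofLp y.ofLp) P * G y) volume x]
      apply integral_congr_ae
      filter_upwards with z
      rw [hPev, sub_sub_cancel]
      rfl
    · intro z hz
      have hz' : 4 < ‖z‖ := by simpa [hs] using hz
      have h1 : ‖z‖ ≤ ‖x‖ + ‖x - z‖ := by
        have := norm_sub_le x (x - z)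
        rwa [sub_sub_cancel] at this
      rw [hsupp (x - z) (by linarith), smul_zero]
  refine ⟨MvPolynomial.C M * Q, fun j hj x hx => ?_⟩
  have hnhds : (fun y : EuclideanSpace ℝ (Fin n) =>
      MvPolynomial.eval y.ofLp (MvPolynomial.C M * Q)) =ᶠ[𝓝 x] cv N G := by
    have : Metric.ball (0 : EuclideanSpace ℝ (Fin n)) 2 ∈ 𝓝 x := by
      apply Metric.isOpen_ball.mem_nhds
      rw [mem_ball_zero_iff]
      linarith
    filter_upwards [this] with y hy
    apply hHQ
    simpa using hy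
  rw [(Filter.EventuallyEq.iteratedFDeriv ℝ hnhds j).eq_of_nhds, cv_iter N G hG hfcs j, norm_sub_rev]
  exact hNf j N (hN' j hj) x hx

theorem poly_smooth (P : MvPolynomial (Fin n) ℝ) :
    ContDiff ℝ ∞ (fun y : EuclideanSpace ℝ (Fin n) => MvPolynomial.eval y.ofLp P) := by
  induction P using MvPolynomial.induction_on with
  | C a => simp only [MvPolynomial.eval_C]; exact contDiff_const
  | add p q hp hq => simp only [map_add]; exact hp.add hq
  | mul_X p i hp =>
    simp only [map_mul, MvPolynomial.eval_X]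
    exact hp.mul (by fun_prop)

theorem poly_dense {n : ℕ} (F : EuclideanSpace ℝ (Fin n) → ℝ) (hF : ContDiffOn ℝ ∞ F {0}ᶜ) (k : ℕ)
    {ε : ℝ} (hε : 0 < ε) :
    ∃ P : MvPolynomial (Fin n) ℝ, ∀ j ≤ k, ∀ x : EuclideanSpace ℝ (Fin n), ‖x‖ = 1 →
      ‖iteratedFDeriv ℝ j (fun y : EuclideanSpace ℝ (Fin n) => F y - MvPolynomial.eval y.ofLp P) x‖ ≤ ε := by
  let χ₁ : ContDiffBump (0 : EuclideanSpace ℝ (Fin n)) := ⟨1 / 4, 1 / 2, by norm_num, by norm_num⟩
  let χ₂ : ContDiffBump (0 : EuclideanSpace ℝ (Fin n)) := ⟨3 / 2, 2, by norm_num, by norm_num⟩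
  set G : EuclideanSpace ℝ (Fin n) → ℝ := fun y => χ₂ y * ((1 - χ₁ y) * F y) with hG
  have hGs : ContDiff ℝ ∞ G := by
    rw [contDiff_iff_contDiffAt]
    intro x
    by_cases hx : x = 0
    · have h0 : G =ᶠ[𝓝 x] fun _ => 0 := by
        have : Metric.ball (0 : EuclideanSpace ℝ (Fin n)) (1 / 4) ∈ 𝓝 x := by
          rw [hx]; exact Metric.ball_mem_nhds _ (by norm_num)
        filter_upwards [this] with y hy
        have : χ₁ y = 1 := χ₁.one_of_mem_closedBall (Metric.ball_subset_closedBall hy)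
        simp only [hG, this]; ring
      exact contDiffAt_const.congr_of_eventuallyEq h0
    · have hF' : ContDiffAt ℝ ∞ F x := hF.contDiffAt (isOpen_compl_singleton.mem_nhds hx)
      exact χ₂.contDiff.contDiffAt.mul ((contDiffAt_const.sub χ₁.contDiff.contDiffAt).mul hF')
  obtain ⟨P, hP⟩ := dense_core G hGs (by
    intro y hy
    have : χ₂ y = 0 := by
      apply χ₂.zero_of_le_dist
      rw [dist_zero_right]
      exact hy.le
    simp only [hG, this, zero_mul]) k hε
  refine ⟨P, fun j hj x hx => ?_⟩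
  have heq : (fun y : EuclideanSpace ℝ (Fin n) => F y - MvPolynomial.eval y.ofLp P) =ᶠ[𝓝 x]
      (fun y : EuclideanSpace ℝ (Fin n) => G y - MvPolynomial.eval y.ofLp P) := by
    have h1 : Metric.ball (0 : EuclideanSpace ℝ (Fin n)) (3 / 2) ∈ 𝓝 x := by
      apply Metric.isOpen_ball.mem_nhds
      rw [mem_ball_zero_iff, hx]
      norm_num
    have h2 : (Metric.closedBall (0 : EuclideanSpace ℝ (Fin n)) (1 / 2))ᶜ ∈ 𝓝 x := by
      apply Metric.isClosed_closedBall.isOpen_compl.mem_nhds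
      rw [mem_compl_iff, mem_closedBall_zero_iff, hx]
      norm_num
    filter_upwards [h1, h2] with y hy1 hy2
    have a1 : χ₂ y = 1 := χ₂.one_of_mem_closedBall (Metric.ball_subset_closedBall hy1)
    have a2 : χ₁ y = 0 := by
      apply χ₁.zero_of_le_dist
      rw [mem_compl_iff, Metric.mem_closedBall, not_le] at hy2
      exact hy2.le
    simp only [hG, a1, a2]; ring
  rw [(Filter.EventuallyEq.iteratedFDeriv ℝ heq j).eq_of_nhds]
  have hs : iteratedFDeriv ℝ j (fun y : EuclideanSpace ℝ (Fin n) => G y - MvPolynomial.eval y.ofLp P) x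
      = iteratedFDeriv ℝ j G x -
        iteratedFDeriv ℝ j (fun y : EuclideanSpace ℝ (Fin n) => MvPolynomial.eval y.ofLp P) x := by
    exact iteratedFDeriv_sub_apply (hGs.contDiffAt.of_le (by norm_cast; exact le_top))
      ((poly_smooth P).contDiffAt.of_le (by norm_cast; exact le_top))
  rw [hs]
  exact hP j hj x hx.le

theorem poly_dense_sphere {n : ℕ} (F : EuclideanSpace ℝ (Fin n) → ℝ) (hF : ContDiffOn ℝ ∞ F {0}ᶜ)
    (hhom : ∀ c : ℝ, 0 < c → ∀ x, F (c • x) = F x) (k : ℕ) {ε : ℝ} (hε : 0 < ε) :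
    ∃ P : MvPolynomial (Fin n) ℝ, ∀ j ≤ k, ∀ x : EuclideanSpace ℝ (Fin n), ‖x‖ = 1 →
      ‖iteratedFDeriv ℝ j (fun y : EuclideanSpace ℝ (Fin n) =>
        F y - MvPolynomial.eval (‖y‖⁻¹ • y).ofLp P) x‖ ≤ ε := by
  -- the retraction
  set Nr : EuclideanSpace ℝ (Fin n) → EuclideanSpace ℝ (Fin n) := fun y => ‖y‖⁻¹ • y with hNr
  have hNs : ContDiffOn ℝ ∞ Nr {0}ᶜ := by
    intro y hy
    have hy' : y ≠ 0 := hy
    have h1 : ContDiffAt ℝ ∞ (fun y : EuclideanSpace ℝ (Fin n) => ‖y‖) y := contDiffAt_norm ℝ hy'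
    exact ((h1.inv (norm_ne_zero_iff.mpr hy')).smul contDiffAt_id).contDiffWithinAt
  have hopen : IsOpen ({0}ᶜ : Set (EuclideanSpace ℝ (Fin n))) := isOpen_compl_singleton
  have hbd : ∀ i : ℕ, ∃ B : ℝ, ∀ x : EuclideanSpace ℝ (Fin n), ‖x‖ = 1 →
      ‖iteratedFDerivWithin ℝ i Nr {0}ᶜ x‖ ≤ B := by
    intro i
    have hcont : ContinuousOn (iteratedFDerivWithin ℝ i Nr {0}ᶜ) {0}ᶜ :=
      hNs.continuousOn_iteratedFDerivWithin (by norm_cast; exact le_top) hopen.uniqueDiffOn
    have hsub : Metric.sphere (0 : EuclideanSpace ℝ (Fin n)) 1 ⊆ {0}ᶜ := by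
      intro y hy h0
      rw [mem_singleton_iff] at h0
      rw [h0] at hy
      simp at hy
    obtain ⟨B, hB⟩ := (isCompact_sphere (0 : EuclideanSpace ℝ (Fin n)) 1).exists_bound_of_continuousOn
      (hcont.mono hsub)
    exact ⟨B, fun x hx => hB x (by simpa using hx)⟩
  choose B hB using hbd
  set D : ℝ := 1 + ∑ i ∈ Finset.range (k + 1), |B i| with hD
  have hD1 : 1 ≤ D := by
    have : 0 ≤ ∑ i ∈ Finset.range (k + 1), |B i| := Finset.sum_nonneg fun i _ => abs_nonneg _
    linarith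
  have hBD : ∀ i ≤ k, B i ≤ D := by
    intro i hi
    have : |B i| ≤ ∑ i ∈ Finset.range (k + 1), |B i| :=
      Finset.single_le_sum (f := fun i => |B i|) (fun i _ => abs_nonneg _)
        (Finset.mem_range.mpr (by omega))
    have := le_abs_self (B i)
    linarith
  set ε' : ℝ := ε / ((k.factorial : ℝ) * D ^ k) with hε'
  have hfac : (0 : ℝ) < k.factorial := by exact_mod_cast k.factorial_pos
  have hε'0 : 0 < ε' := by positivity
  obtain ⟨P, hP⟩ := poly_dense F hF k hε'0
  refine ⟨P, fun j hj x hx => ?_⟩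
  set g : EuclideanSpace ℝ (Fin n) → ℝ := fun y => F y - MvPolynomial.eval y.ofLp P with hg
  have hgs : ContDiffOn ℝ ∞ g {0}ᶜ := hF.sub (poly_smooth P).contDiffOn
  have hx0 : x ∈ ({0}ᶜ : Set (EuclideanSpace ℝ (Fin n))) := by
    intro h0
    rw [mem_singleton_iff] at h0
    rw [h0] at hx
    simp at hx
  have heq : (fun y : EuclideanSpace ℝ (Fin n) => F y - MvPolynomial.eval (‖y‖⁻¹ • y).ofLp P)
      =ᶠ[𝓝 x] (g ∘ Nr) := by
    filter_upwards [hopen.mem_nhds hx0] with y hy
    have hy' : y ≠ 0 := hy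
    simp only [hg, Function.comp, hNr]
    rw [hhom _ (inv_pos.mpr (norm_pos_iff.mpr hy'))]
  rw [(Filter.EventuallyEq.iteratedFDeriv ℝ heq j).eq_of_nhds, ← iteratedFDerivWithin_of_isOpen j hopen hx0]
  have hmaps : MapsTo Nr {0}ᶜ {0}ᶜ := by
    intro y hy
    have hy' : y ≠ 0 := hy
    show Nr y ≠ 0
    simp only [hNr]
    exact smul_ne_zero (inv_ne_zero (norm_ne_zero_iff.mpr hy')) hy'
  have hNx : ‖Nr x‖ = 1 := by
    simp only [hNr, norm_smul, norm_inv, norm_norm, hx]
    norm_num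
  have hNx0 : Nr x ∈ ({0}ᶜ : Set (EuclideanSpace ℝ (Fin n))) := hmaps hx0
  have key := norm_iteratedFDerivWithin_comp_le (n := j) (N := ∞) hgs hNs (by norm_cast; exact le_top)
    hopen.uniqueDiffOn hopen.uniqueDiffOn hmaps hx0 (C := ε') (D := D)
    (by
      intro i hi
      rw [iteratedFDerivWithin_of_isOpen i hopen hNx0]
      exact hP i (by omega) _ hNx)
    (by
      intro i hi1 hi
      refine (hB i x hx).trans ((hBD i (by omega)).trans ?_)
      exact le_self_pow₀ hD1 (by omega))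
  refine key.trans ?_
  have h1 : (j.factorial : ℝ) ≤ k.factorial := by exact_mod_cast Nat.factorial_le hj
  have h2 : D ^ j ≤ D ^ k := pow_le_pow_right₀ hD1 hj
  calc (j.factorial : ℝ) * ε' * D ^ j ≤ k.factorial * ε' * D ^ k := by gcongr
    _ = ε := by rw [hε']; field_simp

end Pool.Agent.Helper115_ME
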