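import Mathlib
set_option autoImplicit false

namespace Pool.Agent.Helper115_ME

open Polynomial

/-- the operator `L` -/
noncomputable def Lop (N : ℝ) (p : ℝ[X]) : ℝ[X] :=
  (1 - X ^ 2) * derivative (derivative p) - C N * X * derivative p + C N * p

theorem Lop_add (N : ℝ) (p p' : ℝ[X]) : Lop N (p + p') = Lop N p + Lop N p' := by
  simp only [Lop, derivative_add]; ring

theorem Lop_smul (N c : ℝ) (p : ℝ[X]) : Lop N (C c * p) = C c * Lop N p := by
  simp only [Lop, derivative_C_mul]; ring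

theorem Lop_X (N : ℝ) (j : ℕ) : Lop N (X ^ (j + 2)) =
    C (((j : ℝ) + 2) * (j + 1)) * X ^ j - C (((j : ℝ) + 1) * (j + 2 + N)) * X ^ (j + 2) := by
  have h1 : derivative (X ^ (j + 2) : ℝ[X]) = C ((j : ℝ) + 2) * X ^ (j + 1) := by
    rw [derivative_X_pow]; push_cast; rfl
  have h2 : derivative (C ((j : ℝ) + 2) * X ^ (j + 1) : ℝ[X]) =
      C (((j : ℝ) + 2) * (j + 1)) * X ^ j := by
    rw [derivative_C_mul, derivative_X_pow, C_mul]
    push_cast
    rw [mul_assoc]
  have h3 : (C (2 : ℝ) : ℝ[X]) = 2 := map_ofNat C 2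
  rw [Lop, h1, h2]
  simp only [C_mul, C_add, C_1, h3]
  ring

theorem solve_alg {N : ℝ} (hN : 0 < N) (Q : ℝ[X]) :
    ∃ (p : ℝ[X]) (α : ℝ), Q = Lop N p + C α * X := by
  have hpow : ∀ k : ℕ, ∃ (p : ℝ[X]) (α : ℝ), (X ^ k : ℝ[X]) = Lop N p + C α * X := by
    intro k
    induction k using Nat.strong_induction_on with
    | _ k ih =>
      match k with
      | 0 =>
        refine ⟨C N⁻¹, 0, ?_⟩
        simp only [Lop, derivative_C, derivative_zero, mul_zero, pow_zero, C_0, zero_mul, add_zero,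
          sub_zero, zero_add]
        rw [← C_mul, mul_inv_cancel₀ hN.ne', C_1]
      | 1 => exact ⟨0, 1, by simp [Lop]⟩
      | (j + 2) =>
        obtain ⟨p, α, h⟩ := ih j (by omega)
        have hL := Lop_X N j
        set D : ℝ := ((j : ℝ) + 1) * (j + 2 + N) with hD
        have hD0 : D ≠ 0 := by positivity
        refine ⟨C D⁻¹ * (C (((j : ℝ) + 2) * (j + 1)) * p + C (-1) * X ^ (j + 2)),
          D⁻¹ * (((j : ℝ) + 2) * (j + 1) * α), ?_⟩
        rw [Lop_smul, Lop_add, Lop_smul, Lop_smul, hL]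
        have h3 : Lop N p = X ^ j - C α * X := by rw [h]; ring
        rw [h3]
        have h4 : (C D⁻¹ : ℝ[X]) * C D = 1 := by rw [← C_mul, inv_mul_cancel₀ hD0, C_1]
        simp only [C_mul (a := D⁻¹), C_mul (a := ((j : ℝ) + 2) * (j + 1)), C_neg, C_1]
        linear_combination -(X ^ (j + 2)) * h4
  induction Q using Polynomial.induction_on' with
  | add Q Q' h h' =>
    obtain ⟨p, α, h⟩ := h
    obtain ⟨p', α', h'⟩ := h'
    exact ⟨p + p', α + α', by rw [Lop_add, C_add, h, h']; ring⟩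
  | monomial k c =>
    obtain ⟨p, α, h⟩ := hpow k
    refine ⟨C c * p, c * α, ?_⟩
    rw [Lop_smul, ← C_mul_X_pow_eq_monomial, h, C_mul]
    ring

theorem hasDerivAt_W {N : ℝ} (hN : 2 ≤ N) (t : ℝ) :
    HasDerivAt (fun t : ℝ => (1 - t ^ 2) ^ (N / 2)) (-N * t * (1 - t ^ 2) ^ ((N - 2) / 2)) t := by
  have h1 : HasDerivAt (fun t : ℝ => 1 - t ^ 2) (-(2 * t)) t := by
    have := (hasDerivAt_pow 2 t).const_sub 1
    simpa using this
  have h2 := h1.rpow_const (p := N / 2) (Or.inr (by linarith))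
  have e : N / 2 - 1 = (N - 2) / 2 := by ring
  rw [e] at h2
  convert h2 using 1
  ring

theorem W_eq {N : ℝ} (hN : 2 ≤ N) {t : ℝ} (ht : t ∈ Set.Icc (-1 : ℝ) 1) :
    (1 - t ^ 2) ^ (N / 2) = (1 - t ^ 2) ^ ((N - 2) / 2) * (1 - t ^ 2) := by
  have h0 : 0 ≤ 1 - t ^ 2 := by nlinarith [ht.1, ht.2]
  rw [← Real.rpow_add_one' h0 (by have : (0:ℝ) < (N - 2) / 2 + 1 := by linarith
                                  exact this.ne')]
  congr 1
  ring

theorem hasDerivAt_F {N : ℝ} (hN : 2 ≤ N) (p : ℝ[X]) {t : ℝ} (ht : t ∈ Set.Icc (-1 : ℝ) 1) :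
    HasDerivAt (fun t : ℝ => (1 - t ^ 2) ^ (N / 2) * (p.eval t - t * (derivative p).eval t))
      (-(t * (1 - t ^ 2) ^ ((N - 2) / 2) * (Lop N p).eval t)) t := by
  have h1 := (hasDerivAt_W hN t).mul ((p.hasDerivAt t).sub
    ((hasDerivAt_id t).mul ((derivative p).hasDerivAt t)))
  refine h1.congr_deriv ?_
  simp only [Lop, eval_add, eval_sub, eval_mul, eval_C, eval_X, eval_pow, eval_one, id,
    Pi.mul_apply, Pi.sub_apply]
  rw [W_eq hN ht]
  ring

theorem zonal_solve {n : ℕ} (hn : 3 ≤ n) (q : ℝ[X]) {M : ℝ}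
    (hq : ∀ t ∈ Set.Icc (-1 : ℝ) 1, |q.eval t| ≤ M)
    (h0 : ∫ t in (-1 : ℝ)..1, q.eval t * t * (1 - t ^ 2) ^ (((n : ℝ) - 3) / 2) = 0) :
    ∃ p : ℝ[X],
      (1 - X ^ 2) * derivative (derivative p) - C ((n : ℝ) - 1) * X * derivative p + C ((n : ℝ) - 1) * p
        = C ((n : ℝ) - 1) * q ∧
      (∀ t ∈ Set.Icc (-1 : ℝ) 1, |p.eval t - t * (derivative p).eval t| ≤ M) ∧
      (∀ t ∈ Set.Icc (-1 : ℝ) 1,
        |(1 - t ^ 2) * (derivative (derivative p)).eval t + p.eval t - t * (derivative p).eval t|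
          ≤ (2 * n - 3) * M) := by
  have hn' : (3 : ℝ) ≤ n := by exact_mod_cast hn
  set N : ℝ := (n : ℝ) - 1 with hNdef
  have hN : 2 ≤ N := by linarith
  have hN0 : 0 < N := by linarith
  have hexp : ((n : ℝ) - 3) / 2 = (N - 2) / 2 := by rw [hNdef]; ring
  have hM : 0 ≤ M := (abs_nonneg _).trans (hq 0 (by constructor <;> norm_num))
  obtain ⟨p, α, hp⟩ := solve_alg hN0 (C N * q)
  have hwc : Continuous (fun t : ℝ => (1 - t ^ 2) ^ ((N - 2) / 2)) :=
    (by fun_prop : Continuous (fun t : ℝ => 1 - t ^ 2)).rpow_const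
      fun t => Or.inr (by linarith)
  have hW1 : ∀ t : ℝ, t ^ 2 = 1 → (1 - t ^ 2) ^ (N / 2) = 0 := fun t ht => by
    rw [ht, sub_self, Real.zero_rpow (by positivity)]
  -- integral of the image of `L`
  have hLc : Continuous (fun t : ℝ => -(t * (1 - t ^ 2) ^ ((N - 2) / 2) * (Lop N p).eval t)) :=
    ((continuous_id.mul hwc).mul (Lop N p).continuous).neg
  have hI : ∫ t in (-1 : ℝ)..1, -(t * (1 - t ^ 2) ^ ((N - 2) / 2) * (Lop N p).eval t) = 0 := by
    rw [intervalIntegral.integral_eq_sub_of_hasDerivAt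
      (f := fun t : ℝ => (1 - t ^ 2) ^ (N / 2) * (p.eval t - t * (derivative p).eval t))
      (fun t ht => hasDerivAt_F hN p (by rwa [Set.uIcc_of_le (by norm_num)] at ht))
      (hLc.intervalIntegrable _ _)]
    rw [hW1 1 (by norm_num), hW1 (-1) (by norm_num)]
    ring
  have hα : α = 0 := by
    have h2 : ∀ t : ℝ, α * (t ^ 2 * (1 - t ^ 2) ^ ((N - 2) / 2)) =
        N * (q.eval t * t * (1 - t ^ 2) ^ ((N - 2) / 2)) +
          -(t * (1 - t ^ 2) ^ ((N - 2) / 2) * (Lop N p).eval t) := by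
      intro t
      have h3 := congrArg (fun P => eval t P) hp
      simp only [eval_mul, eval_C, eval_add, eval_X] at h3
      linear_combination (-(t * (1 - t ^ 2) ^ ((N - 2) / 2))) * h3
    have h3 : ∫ t in (-1 : ℝ)..1, α * (t ^ 2 * (1 - t ^ 2) ^ ((N - 2) / 2)) = 0 := by
      simp only [h2]
      rw [intervalIntegral.integral_add, intervalIntegral.integral_const_mul, hI]
      · rw [hexp] at h0
        rw [h0]; ring
      · exact (continuous_const.mul ((q.continuous.mul continuous_id).mul hwc)).intervalIntegrable _ _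
      · exact hLc.intervalIntegrable _ _
    rw [intervalIntegral.integral_const_mul] at h3
    refine (mul_eq_zero.1 h3).resolve_right (ne_of_gt ?_)
    refine intervalIntegral.integral_pos (by norm_num)
      ((continuous_pow 2).mul hwc).continuousOn ?_ ?_
    · intro t ht
      have : 0 ≤ 1 - t ^ 2 := by nlinarith [ht.1, ht.2]
      positivity
    · refine ⟨1 / 2, by constructor <;> norm_num, ?_⟩
      have : (0:ℝ) < 1 - (1 / 2) ^ 2 := by norm_num
      positivity
  rw [hα, C_0, zero_mul, add_zero] at hp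
  have hpt : ∀ t : ℝ, N * q.eval t = (1 - t ^ 2) * (derivative (derivative p)).eval t +
      N * (p.eval t - t * (derivative p).eval t) := by
    intro t
    have h3 := congrArg (fun P => eval t P) hp
    simp only [Lop, eval_mul, eval_C, eval_add, eval_X, eval_sub, eval_pow, eval_one] at h3
    linear_combination h3
  -- the bound for `r`
  have hLq : ∀ t : ℝ, (Lop N p).eval t = N * q.eval t := fun t => by
    rw [← hp, eval_mul, eval_C]
  have hbound : ∀ σ : ℝ, |σ| = 1 → ∀ t ∈ Set.Icc (-1 : ℝ) 1,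
      0 ≤ (1 - t ^ 2) ^ (N / 2) * (M + σ * (p.eval t - t * (derivative p).eval t)) := by
    intro σ hσ
    let f : ℝ → ℝ := fun t => (1 - t ^ 2) ^ (N / 2) *
      (M + σ * (p.eval t - t * (derivative p).eval t))
    have hf : ∀ t ∈ Set.Icc (-1 : ℝ) 1, HasDerivAt f
        (-(N * t * (1 - t ^ 2) ^ ((N - 2) / 2) * (M + σ * q.eval t))) t := by
      intro t ht
      have h1 := ((hasDerivAt_W hN t).mul_const M).add ((hasDerivAt_F hN p ht).const_mul σ)
      have e : f = fun t => (1 - t ^ 2) ^ (N / 2) * M + σ * ((1 - t ^ 2) ^ (N / 2) *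
          (p.eval t - t * (derivative p).eval t)) := by
        funext t; simp only [f]; ring
      rw [e]
      refine h1.congr_deriv ?_
      rw [hLq]
      ring
    have hnn : ∀ t ∈ Set.Icc (-1 : ℝ) 1, 0 ≤ N * (1 - t ^ 2) ^ ((N - 2) / 2) * (M + σ * q.eval t) := by
      intro t ht
      have h1 : 0 ≤ 1 - t ^ 2 := by nlinarith [ht.1, ht.2]
      have h2 : 0 ≤ M + σ * q.eval t := by
        have h3 : |σ * q.eval t| ≤ M := by rw [abs_mul, hσ, one_mul]; exact hq t ht
        linarith [neg_abs_le (σ * q.eval t)]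
      positivity
    have hfc : ContinuousOn f (Set.Icc (-1 : ℝ) 1) := fun t ht =>
      (hf t ht).continuousAt.continuousWithinAt
    intro t ht
    change 0 ≤ f t
    rcases le_total 0 t with h | h
    · have hanti : AntitoneOn f (Set.Icc 0 1) := by
        refine antitoneOn_of_deriv_nonpos (convex_Icc 0 1)
          (hfc.mono (Set.Icc_subset_Icc (by norm_num) le_rfl)) ?_ ?_
        · intro x hx
          rw [interior_Icc] at hx
          exact (hf x ⟨by linarith [hx.1], hx.2.le⟩).differentiableAt.differentiableWithinAt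
        · intro x hx
          rw [interior_Icc] at hx
          have hx' : x ∈ Set.Icc (-1 : ℝ) 1 := ⟨by linarith [hx.1], hx.2.le⟩
          rw [(hf x hx').deriv]
          have := mul_nonneg hx.1.le (hnn x hx')
          linarith
      have h1 := hanti ⟨h, ht.2⟩ ⟨zero_le_one, le_rfl⟩ ht.2
      have h2 : f 1 = 0 := by simp only [f]; rw [hW1 1 (by norm_num), zero_mul]
      linarith
    · have hmono : MonotoneOn f (Set.Icc (-1) 0) := by
        refine monotoneOn_of_deriv_nonneg (convex_Icc (-1) 0)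
          (hfc.mono (Set.Icc_subset_Icc le_rfl (by norm_num))) ?_ ?_
        · intro x hx
          rw [interior_Icc] at hx
          exact (hf x ⟨hx.1.le, by linarith [hx.2]⟩).differentiableAt.differentiableWithinAt
        · intro x hx
          rw [interior_Icc] at hx
          have hx' : x ∈ Set.Icc (-1 : ℝ) 1 := ⟨hx.1.le, by linarith [hx.2]⟩
          rw [(hf x hx').deriv]
          have := mul_nonneg (neg_nonneg.2 hx.2.le) (hnn x hx')
          linarith
      have h1 := hmono ⟨le_rfl, by norm_num⟩ ⟨ht.1, h⟩ ht.1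
      have h2 : f (-1) = 0 := by simp only [f]; rw [hW1 (-1) (by norm_num), zero_mul]
      linarith
  have hr : ∀ t ∈ Set.Icc (-1 : ℝ) 1, |p.eval t - t * (derivative p).eval t| ≤ M := by
    have hcl : IsClosed {t : ℝ | |p.eval t - t * (derivative p).eval t| ≤ M} :=
      isClosed_le (((p.continuous).sub (continuous_id.mul (derivative p).continuous)).abs)
        continuous_const
    have hsub : Set.Ioo (-1 : ℝ) 1 ⊆ {t : ℝ | |p.eval t - t * (derivative p).eval t| ≤ M} := by
      intro t ht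
      have h1 : 0 < 1 - t ^ 2 := by nlinarith [ht.1, ht.2]
      have h2 : 0 < (1 - t ^ 2) ^ (N / 2) := Real.rpow_pos_of_pos h1 _
      have h3 := hbound 1 (by simp) t ⟨ht.1.le, ht.2.le⟩
      have h4 := hbound (-1) (by simp) t ⟨ht.1.le, ht.2.le⟩
      have h5 := nonneg_of_mul_nonneg_right h3 h2
      have h6 := nonneg_of_mul_nonneg_right h4 h2
      simp only [Set.mem_ofPred_eq]
      rw [abs_le]
      constructor <;> linarith
    intro t ht
    have := closure_minimal hsub hcl
    rw [closure_Ioo (by norm_num)] at this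
    exact this ht
  refine ⟨p, hp.symm, hr, ?_⟩
  intro t ht
  have e : (1 - t ^ 2) * (derivative (derivative p)).eval t + p.eval t - t * (derivative p).eval t =
      N * q.eval t - (N - 1) * (p.eval t - t * (derivative p).eval t) := by
    linear_combination -(hpt t)
  rw [e]
  have h1 : |N * q.eval t| ≤ N * M := by
    rw [abs_mul, abs_of_pos hN0]; exact mul_le_mul_of_nonneg_left (hq t ht) hN0.le
  have h2 : |(N - 1) * (p.eval t - t * (derivative p).eval t)| ≤ (N - 1) * M := by
    rw [abs_mul, abs_of_pos (show 0 < N - 1 by linarith)]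
    exact mul_le_mul_of_nonneg_left (hr t ht) (by linarith)
  have h3 := abs_sub (N * q.eval t) ((N - 1) * (p.eval t - t * (derivative p).eval t))
  have h4 : (2 * (n : ℝ) - 3) * M = N * M + (N - 1) * M := by rw [hNdef]; ring
  rw [h4]
  linarith

end Pool.Agent.Helper115_ME
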