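import Mathlib
import Pool.Agent.Helper115_ME.Ell
import Pool.Agent.Helper115_ME.Average
import Pool.Agent.Helper115_ME.ZonalSolve
import Pool.Agent.Helper115_ME.PolyDense

/-!
# A zonal distribution which satisfies the convexity condition is bounded for the sup norm
-/

set_option autoImplicit false

namespace Pool.Agent.Helper115_ME

open MeasureTheory Metric Set Filter Topology
open scoped ContDiff

noncomputable section

variable {n : ℕ}

theorem second_deriv_poly (p : Polynomial ℝ) (a b : ℝ) :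
    iteratedDeriv 2 (fun s : ℝ => p.eval (Real.cos s * a + Real.sin s * b)) 0 =
      (Polynomial.derivative (Polynomial.derivative p)).eval a * b ^ 2 -
        (Polynomial.derivative p).eval a * a := by
  have h1 : ∀ s, HasDerivAt (fun s : ℝ => Real.cos s * a + Real.sin s * b)
      (-Real.sin s * a + Real.cos s * b) s := fun s =>
    ((Real.hasDerivAt_cos s).mul_const a).add ((Real.hasDerivAt_sin s).mul_const b)
  have h2 : ∀ (q : Polynomial ℝ) s, HasDerivAt (fun s : ℝ => q.eval (Real.cos s * a + Real.sin s * b))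
      ((Polynomial.derivative q).eval (Real.cos s * a + Real.sin s * b) *
        (-Real.sin s * a + Real.cos s * b)) s := fun q s =>
    (q.hasDerivAt _).comp s (h1 s)
  have e1 : deriv (fun s : ℝ => p.eval (Real.cos s * a + Real.sin s * b)) = fun s =>
      (Polynomial.derivative p).eval (Real.cos s * a + Real.sin s * b) *
        (-Real.sin s * a + Real.cos s * b) := funext fun s => (h2 p s).deriv
  have h3 : HasDerivAt (fun s : ℝ => -Real.sin s * a + Real.cos s * b)
      (-Real.cos 0 * a + -Real.sin 0 * b) 0 :=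
    (((Real.hasDerivAt_sin 0).neg).mul_const a).add ((Real.hasDerivAt_cos 0).mul_const b)
  have h4 := (h2 (Polynomial.derivative p) 0).mul h3
  rw [iteratedDeriv_succ, iteratedDeriv_one, e1]
  refine h4.deriv.trans ?_
  simp
  ring

theorem ext0_zonS {e : E n} (p : Polynomial ℝ) {x : E n} (hx : ‖x‖ = 1) :
    ext0 (zonS e p).1 x = p.eval (inner ℝ e x) :=
  ext0_sphere (zonS e p).1 ⟨x, by simpa using hx⟩

theorem Rc_zonS {e : E n} (p : Polynomial ℝ) {u v : E n} (huv : Orthonormal ℝ ![u, v]) :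
    Rc (zonS e p).1 (u, v) = p.eval (inner ℝ e u) - inner ℝ e u * (Polynomial.derivative p).eval (inner ℝ e u) +
      (Polynomial.derivative (Polynomial.derivative p)).eval (inner ℝ e u) * (inner ℝ e v) ^ 2 := by
  have h1 : (fun s : ℝ => ext0 (zonS e p).1 (Real.cos s • u + Real.sin s • v)) =
      fun s : ℝ => p.eval (Real.cos s * inner ℝ e u + Real.sin s * inner ℝ e v) := by
    ext s
    rw [ext0_zonS p (norm_circle huv s), inner_add_right, inner_smul_right, inner_smul_right]
  show ext0 (zonS e p).1 u + iteratedDeriv 2 (fun s : ℝ => ext0 (zonS e p).1 (Real.cos s • u + Real.sin s • v)) 0 = _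
  rw [h1, second_deriv_poly, ext0_zonS p (pair_orthonormal huv).1]
  ring

/-- the function `v ↦ q(⟨e, v⟩) ⟨w, v⟩²` -/
def sqS (e w : E n) (q : Polynomial ℝ) : SmoothFun n :=
  ⟨fun v => q.eval (inner ℝ e (v : E n)) * (inner ℝ w (v : E n)) ^ 2,
    isSmooth_of_contDiff (F := fun x => q.eval (inner ℝ e x) * (inner ℝ w x) ^ 2)
      ((contDiff_zonal e q).mul ((contDiff_const.inner ℝ contDiff_id).pow 2))⟩

theorem inner_planeRot_fst {e w : E n} (h : Orthonormal ℝ ![e, w]) (s : ℝ) (x : E n) :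
    inner ℝ e (planeRot h s x) = Real.cos s * inner ℝ e x + Real.sin s * (-inner ℝ w x) := by
  obtain ⟨he, hw, hew⟩ := pair_orthonormal h
  rw [planeRot_apply]
  simp only [inner_add_right, inner_smul_right, hew, real_inner_self_eq_norm_sq, he]
  ring

theorem ell_zonS_aux {e w : E n} (h : Orthonormal ℝ ![e, w]) {μ : SmoothFun n →ₗ[ℝ] ℝ} (hμ : IsContFun μ)
    (p : Polynomial ℝ) :
    ell h hμ (zonS e p) = μ (zonS e p) + (μ (sqS e w (Polynomial.derivative (Polynomial.derivative p))) -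
      μ (zonS e (Polynomial.X * Polynomial.derivative p))) := by
  obtain ⟨g, hg1, hg2⟩ := exists_second h (zonS e p)
  rw [hg2 μ hμ, ← map_sub]
  congr 2
  apply Subtype.ext
  funext v
  rw [hg1 v]
  have h1 : (fun s : ℝ => ext0 (zonS e p).1 (planeRot h s (v : E n))) =
      fun s : ℝ => p.eval (Real.cos s * inner ℝ e (v : E n) + Real.sin s * (-inner ℝ w (v : E n))) := by
    ext s
    rw [ext0_zonS p (by rw [LinearIsometryEquiv.norm_map]; simp), inner_planeRot_fst]
  rw [h1, second_deriv_poly]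
  show _ = (Polynomial.derivative (Polynomial.derivative p)).eval (inner ℝ e (v : E n)) * (inner ℝ w (v : E n)) ^ 2 -
    (Polynomial.X * Polynomial.derivative p).eval (inner ℝ e (v : E n))
  simp
  ring

theorem sqS_eq {e w w' : E n} (hn : 3 ≤ n) (h : Orthonormal ℝ ![e, w]) (h' : Orthonormal ℝ ![e, w'])
    {μ : SmoothFun n →ₗ[ℝ] ℝ} (hz : IsZonalFun e μ) (q : Polynomial ℝ) :
    μ (sqS e w q) = μ (sqS e w' q) := by
  obtain ⟨ϑ, hϑ, he, hw⟩ := exists_rot_two hn h h'
  have hz' : μ (smComp (sqS e w' q) ϑ) = μ (sqS e w' q) := hz ϑ hϑ he (sqS e w' q)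
  rw [← hz']
  congr 1
  apply Subtype.ext
  funext v
  show q.eval (inner ℝ e (v : E n)) * (inner ℝ w (v : E n)) ^ 2 =
    q.eval (inner ℝ e (ϑ (v : E n))) * (inner ℝ w' (ϑ (v : E n))) ^ 2
  have e1 : inner ℝ e (ϑ (v : E n)) = (inner ℝ e (v : E n) : ℝ) := by
    conv_lhs => rw [← he]
    rw [LinearIsometryEquiv.inner_map_map]
  have e2 : inner ℝ w' (ϑ (v : E n)) = (inner ℝ w (v : E n) : ℝ) := by
    rw [← hw, LinearIsometryEquiv.inner_map_map]
  rw [e1, e2]

theorem exists_basis (hn : 1 ≤ n) {e : E n} (he : ‖e‖ = 1) :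
    ∃ (b : OrthonormalBasis (Fin n) ℝ (E n)) (i : Fin n), b i = e := by
  have hcard : Module.finrank ℝ (E n) = Fintype.card (Fin n) := by simp
  set i : Fin n := ⟨0, hn⟩
  have hv : Orthonormal ℝ (({i} : Set (Fin n)).domRestrict (fun _ => e)) := by
    refine ⟨fun j => he, fun j k hjk => ?_⟩
    exact absurd (Subsingleton.elim j k) hjk
  obtain ⟨b, hb⟩ := Orthonormal.exists_orthonormalBasis_extension_of_card_eq hcard hv
  exact ⟨b, i, hb i rfl⟩

theorem sum_sqS (hn : 3 ≤ n) {e w : E n} (h : Orthonormal ℝ ![e, w])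
    {μ : SmoothFun n →ₗ[ℝ] ℝ} (hz : IsZonalFun e μ) (q : Polynomial ℝ) :
    ((n : ℝ) - 1) * μ (sqS e w q) = μ (zonS e ((1 - Polynomial.X ^ 2) * q)) := by
  obtain ⟨b, i, hb⟩ := exists_basis (by omega) (pair_orthonormal h).1
  have h1 : ∑ j ∈ Finset.univ.erase i, sqS e (b j) q = zonS e ((1 - Polynomial.X ^ 2) * q) := by
    apply Subtype.ext
    funext v
    have h2 : (∑ j ∈ Finset.univ.erase i, sqS e (b j) q).1 v =
        ∑ j ∈ Finset.univ.erase i, q.eval (inner ℝ e (v : E n)) * (inner ℝ (b j) (v : E n)) ^ 2 := by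
      rw [Submodule.coe_sum, Finset.sum_apply]
      rfl
    rw [h2, ← Finset.mul_sum]
    have h3 : ∑ j, (inner ℝ (b j) (v : E n)) ^ 2 = (1 : ℝ) := by
      have := b.sum_sq_norm_inner_right (v : E n)
      simpa using this
    rw [← Finset.add_sum_erase _ _ (Finset.mem_univ i), hb] at h3
    have h4 : ∑ j ∈ Finset.univ.erase i, (inner ℝ (b j) (v : E n)) ^ 2 = (1 : ℝ) - (inner ℝ e (v : E n)) ^ 2 := by
      linarith
    rw [h4]
    show _ = ((1 - Polynomial.X ^ 2) * q).eval (inner ℝ e (v : E n))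
    simp
    ring
  rw [← h1, map_sum]
  have h5 : ∀ j ∈ Finset.univ.erase i, μ (sqS e (b j) q) = μ (sqS e w q) := by
    intro j hj
    have hji : j ≠ i := Finset.ne_of_mem_erase hj
    refine sqS_eq hn (orthonormal_pair (pair_orthonormal h).1 (b.orthonormal.1 j) ?_) h hz q
    rw [← hb]
    exact b.orthonormal.2 hji.symm
  rw [Finset.sum_congr rfl h5, Finset.sum_const, Finset.card_erase_of_mem (Finset.mem_univ i)]
  simp only [Finset.card_univ, Fintype.card_fin, nsmul_eq_mul]
  rw [Nat.cast_sub (by omega)]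
  simp

theorem zonS_add (e : E n) (p q : Polynomial ℝ) : zonS e (p + q) = zonS e p + zonS e q := by
  apply Subtype.ext; funext v
  show (p + q).eval _ = p.eval _ + q.eval _
  simp

theorem zonS_C_mul (e : E n) (c : ℝ) (q : Polynomial ℝ) : zonS e (Polynomial.C c * q) = c • zonS e q := by
  apply Subtype.ext; funext v
  show (Polynomial.C c * q).eval _ = c * q.eval _
  simp

theorem zonS_sub (e : E n) (p q : Polynomial ℝ) : zonS e (p - q) = zonS e p - zonS e q := by
  apply Subtype.ext; funext v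
  show (p - q).eval _ = p.eval _ - q.eval _
  simp

theorem ell_zonS (hn : 3 ≤ n) {e w : E n} (h : Orthonormal ℝ ![e, w]) {μ : SmoothFun n →ₗ[ℝ] ℝ}
    (hμ : IsContFun μ) (hz : IsZonalFun e μ) (p : Polynomial ℝ) :
    ((n : ℝ) - 1) * ell h hμ (zonS e p) =
      μ (zonS e ((1 - Polynomial.X ^ 2) * Polynomial.derivative (Polynomial.derivative p) -
        Polynomial.C ((n : ℝ) - 1) * Polynomial.X * Polynomial.derivative p +
        Polynomial.C ((n : ℝ) - 1) * p)) := by
  rw [ell_zonS_aux, zonS_add, zonS_sub, mul_assoc (Polynomial.C ((n : ℝ) - 1)), zonS_C_mul, zonS_C_mul,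
    map_add, map_sub, map_smul, map_smul, ← sum_sqS hn h hz]
  simp only [smul_eq_mul]
  ring

theorem Rc_comb (a b : ℝ) (f g : SmoothFun n) {p : E n × E n} (hp : Orthonormal ℝ ![p.1, p.2]) :
    Rc (a • f + b • g : SmoothFun n).1 p = a * Rc f.1 p + b * Rc g.1 p := by
  have hf : IsSmooth (a • f : SmoothFun n).1 := (a • f : SmoothFun n).2
  have hg : IsSmooth (b • g : SmoothFun n).1 := (b • g : SmoothFun n).2
  have h1 : (a • f + b • g : SmoothFun n).1 = (a • f : SmoothFun n).1 + (b • g : SmoothFun n).1 := rfl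
  have h2 : (a • f : SmoothFun n).1 = a • f.1 := rfl
  have h3 : (b • g : SmoothFun n).1 = b • g.1 := rfl
  rw [h1, Rc_add hf hg hp, h2, h3, Rc_smul a f.2 hp, Rc_smul b g.2 hp]

theorem ell_comb_nonneg {e w : E n} (h : Orthonormal ℝ ![e, w]) {μ : SmoothFun n →ₗ[ℝ] ℝ}
    (hμ : IsContFun μ)
    (hpos : ∀ f : SmoothFun n, (∀ u v : E n, Orthonormal ℝ ![u, v] → 0 ≤ Rc f.1 (u, v)) → 0 ≤ ell h hμ f)
    (a b : ℝ) (f g : SmoothFun n)
    (H : ∀ u v : E n, Orthonormal ℝ ![u, v] → 0 ≤ a * Rc f.1 (u, v) + b * Rc g.1 (u, v)) :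
    0 ≤ a * ell h hμ f + b * ell h hμ g := by
  have h1 := hpos (a • f + b • g) fun u v huv => by
    rw [Rc_comb a b f g (p := (u, v)) huv]; exact H u v huv
  rw [map_add, map_smul, map_smul] at h1
  exact h1

/-- the bound for zonal polynomials orthogonal to the linear ones -/
theorem bound_zonS (hn : 3 ≤ n) {e w : E n} (h : Orthonormal ℝ ![e, w]) {μ : SmoothFun n →ₗ[ℝ] ℝ}
    (hμ : IsContFun μ) (hz : IsZonalFun e μ)
    (hpos : ∀ f : SmoothFun n, (∀ u v : E n, Orthonormal ℝ ![u, v] → 0 ≤ Rc f.1 (u, v)) → 0 ≤ ell h hμ f)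
    (q : Polynomial ℝ) {M : ℝ} (hq : ∀ t ∈ Set.Icc (-1 : ℝ) 1, |q.eval t| ≤ M)
    (h0 : ∫ t in (-1 : ℝ)..1, q.eval t * t * (1 - t ^ 2) ^ (((n : ℝ) - 3) / 2) = 0) :
    |μ (zonS e q)| ≤ (2 * n - 3) * M * μ (oneS n) := by
  obtain ⟨p, hp1, hp2, hp3⟩ := zonal_solve hn q hq h0
  have hn' : (3 : ℝ) ≤ n := by exact_mod_cast hn
  have hM : 0 ≤ M := (abs_nonneg _).trans (hq 0 (by norm_num))
  have he1 := (pair_orthonormal h).1
  -- ell (zonS p) = μ (zonS q)
  have h1 : ell h hμ (zonS e p) = μ (zonS e q) := by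
    have := ell_zonS hn h hμ hz p
    rw [hp1, zonS_C_mul, map_smul, smul_eq_mul] at this
    exact mul_left_cancel₀ (by linarith) this
  have hRc : ∀ u v : E n, Orthonormal ℝ ![u, v] → |Rc (zonS e p).1 (u, v)| ≤ (2 * n - 3) * M := by
    intro u v huv
    obtain ⟨hu, hv, huv0⟩ := pair_orthonormal huv
    rw [Rc_zonS p huv]
    set a : ℝ := inner ℝ e u with ha
    set b : ℝ := inner ℝ e v with hb
    -- Bessel
    have hab : a ^ 2 + b ^ 2 ≤ 1 := by
      have h2 : ‖e - a • u - b • v‖ ^ 2 = 1 - a ^ 2 - b ^ 2 := by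
        have hvu0 : inner ℝ v u = (0 : ℝ) := by rw [real_inner_comm]; exact huv0
        rw [← real_inner_self_eq_norm_sq]
        simp only [inner_sub_left, inner_sub_right, inner_smul_left, inner_smul_right,
          real_inner_self_eq_norm_sq, he1, hu, hv, huv0, hvu0, RCLike.conj_to_real,
          real_inner_comm e u, real_inner_comm e v]
        rw [← ha, ← hb]
        ring
      have := sq_nonneg ‖e - a • u - b • v‖
      linarith
    have ha1 : a ∈ Set.Icc (-1 : ℝ) 1 := by
      constructor <;> nlinarith [sq_nonneg b]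
    have A1 := hp2 a ha1
    have A2 := hp3 a ha1
    set r := p.eval a - a * (Polynomial.derivative p).eval a with hr
    set s := (Polynomial.derivative (Polynomial.derivative p)).eval a with hs
    have A2' : |(1 - a ^ 2) * s + r| ≤ (2 * n - 3) * M := by
      have : (1 - a ^ 2) * s + r = (1 - a ^ 2) * s + p.eval a - a * (Polynomial.derivative p).eval a := by
        rw [hr]; ring
      rw [this]; exact A2
    have hB : M ≤ (2 * n - 3) * M := by nlinarith
    rw [abs_le] at A1 A2' ⊢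
    -- r + s b² is a convex combination of r and r + s (1 - a²)
    have hb2 : 0 ≤ b ^ 2 := sq_nonneg b
    have hb3 : b ^ 2 ≤ 1 - a ^ 2 := by linarith
    rcases le_total 0 s with hs0 | hs0
    · constructor
      · nlinarith [mul_nonneg hs0 hb2]
      · nlinarith [mul_le_mul_of_nonneg_left hb3 hs0]
    · constructor
      · nlinarith [mul_le_mul_of_nonpos_left hb3 hs0]
      · nlinarith [mul_nonneg (neg_nonneg.2 hs0) hb2]
  have key : ∀ ε : ℝ, ε = 1 ∨ ε = -1 → 0 ≤ ε * μ (zonS e q) + (2 * n - 3) * M * μ (oneS n) := by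
    intro ε hε
    have h2 := ell_comb_nonneg h hμ hpos ε ((2 * n - 3) * M) (zonS e p) (oneS n) (by
      intro u v huv
      rw [Rc_one (p := (u, v)) huv]
      have := abs_le.1 (hRc u v huv)
      rcases hε with rfl | rfl <;> linarith)
    rw [ell_one, h1] at h2
    exact h2
  have k1 := key 1 (Or.inl rfl)
  have k2 := key (-1) (Or.inr rfl)
  rw [abs_le]
  constructor <;> linarith

end

end Pool.Agent.Helper115_ME
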