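import Mathlib
import Pool.Agent.Helper115_ME.Bound

/-!
# Boundedness for the sup norm, continued
-/

set_option autoImplicit false

namespace Pool.Agent.Helper115_ME

open MeasureTheory Metric Set Filter Topology
open scoped ContDiff

noncomputable section

variable {n : ℕ}

theorem oneS_nonneg {e w : E n} (h : Orthonormal ℝ ![e, w]) {μ : SmoothFun n →ₗ[ℝ] ℝ}
    (hμ : IsContFun μ)
    (hpos : ∀ f : SmoothFun n, (∀ u v : E n, Orthonormal ℝ ![u, v] → 0 ≤ Rc f.1 (u, v)) → 0 ≤ ell h hμ f) :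
    0 ≤ μ (oneS n) := by
  rw [← ell_one h hμ]
  refine hpos _ fun u v huv => ?_
  rw [Rc_one (p := (u, v)) huv]
  exact zero_le_one

/-- the bound for all zonal polynomials -/
theorem bound_zonS_all (hn : 3 ≤ n) {e w : E n} (h : Orthonormal ℝ ![e, w]) {μ : SmoothFun n →ₗ[ℝ] ℝ}
    (hμ : IsContFun μ) (hz : IsZonalFun e μ)
    (hpos : ∀ f : SmoothFun n, (∀ u v : E n, Orthonormal ℝ ![u, v] → 0 ≤ Rc f.1 (u, v)) → 0 ≤ ell h hμ f) :
    ∃ C : ℝ, 0 ≤ C ∧ ∀ (q : Polynomial ℝ) (M : ℝ), (∀ t ∈ Set.Icc (-1 : ℝ) 1, |q.eval t| ≤ M) →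
      |μ (zonS e q)| ≤ C * M := by
  have hn' : (3 : ℝ) ≤ n := by exact_mod_cast hn
  set W : ℝ → ℝ := fun t => (1 - t ^ 2) ^ (((n : ℝ) - 3) / 2) with hW
  have hWc : Continuous W := by
    refine Continuous.rpow_const (by fun_prop) fun x => Or.inr ?_
    linarith
  have hW0 : ∀ t ∈ Set.Icc (-1 : ℝ) 1, 0 ≤ W t := fun t ht =>
    Real.rpow_nonneg (by nlinarith [ht.1, ht.2]) _
  set I2 : ℝ := ∫ t in (-1 : ℝ)..1, t * t * W t with hI2
  set I0 : ℝ := ∫ t in (-1 : ℝ)..1, W t with hI0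
  have hI2pos : 0 < I2 := by
    refine intervalIntegral.integral_pos (by norm_num) (by fun_prop) (fun x hx => ?_) ⟨1 / 2, by norm_num, ?_⟩
    · exact mul_nonneg (mul_self_nonneg x) (hW0 x ⟨hx.1.le, hx.2⟩)
    · have : 0 < W (1 / 2) := Real.rpow_pos_of_pos (by norm_num) _
      positivity
  have hI0nn : 0 ≤ I0 := intervalIntegral.integral_nonneg (by norm_num) hW0
  have h1 := oneS_nonneg h hμ hpos
  refine ⟨(2 * n - 3) * (1 + I0 / I2) * μ (oneS n) + I0 / I2 * |μ (zonS e Polynomial.X)|, ?_, ?_⟩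
  · have : 0 ≤ I0 / I2 := div_nonneg hI0nn hI2pos.le
    have h3 : (0 : ℝ) ≤ 2 * n - 3 := by linarith
    positivity
  · intro q M hq
    have hM : 0 ≤ M := (abs_nonneg _).trans (hq 0 (by norm_num))
    set a : ℝ := (∫ t in (-1 : ℝ)..1, q.eval t * t * W t) / I2 with ha
    have hqc : Continuous fun t : ℝ => q.eval t := q.continuous
    have hint : |∫ t in (-1 : ℝ)..1, q.eval t * t * W t| ≤ M * I0 := by
      rw [hI0, ← intervalIntegral.integral_const_mul]
      refine (intervalIntegral.abs_integral_le_integral_abs (by norm_num)).trans ?_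
      refine intervalIntegral.integral_mono_on (by norm_num) ?_ ?_ fun t ht => ?_
      · exact (Continuous.intervalIntegrable (by fun_prop) _ _)
      · exact (Continuous.intervalIntegrable (by fun_prop) _ _)
      · rw [abs_mul, abs_mul, abs_of_nonneg (hW0 t ht)]
        refine mul_le_mul_of_nonneg_right ?_ (hW0 t ht)
        have ht1 : |t| ≤ 1 := abs_le.2 ⟨ht.1, ht.2⟩
        calc |q.eval t| * |t| ≤ M * 1 := mul_le_mul (hq t ht) ht1 (abs_nonneg _) hM
          _ = M := mul_one _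
    have ha1 : |a| ≤ I0 / I2 * M := by
      rw [ha, abs_div, abs_of_pos hI2pos, div_le_iff₀ hI2pos]
      calc _ ≤ M * I0 := hint
        _ = I0 / I2 * M * I2 := by field_simp
    set q0 : Polynomial ℝ := q - Polynomial.C a * Polynomial.X with hq0
    have hq0e : ∀ t, q0.eval t = q.eval t - a * t := fun t => by simp [hq0]
    have hq0M : ∀ t ∈ Set.Icc (-1 : ℝ) 1, |q0.eval t| ≤ (1 + I0 / I2) * M := by
      intro t ht
      rw [hq0e]
      have ht1 : |t| ≤ 1 := abs_le.2 ⟨ht.1, ht.2⟩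
      calc |q.eval t - a * t| ≤ |q.eval t| + |a * t| := abs_sub _ _
        _ ≤ M + I0 / I2 * M := by
          refine add_le_add (hq t ht) ?_
          rw [abs_mul]
          calc |a| * |t| ≤ |a| * 1 := mul_le_mul_of_nonneg_left ht1 (abs_nonneg _)
            _ = |a| := mul_one _
            _ ≤ _ := ha1
        _ = _ := by ring
    have hq00 : ∫ t in (-1 : ℝ)..1, q0.eval t * t * (1 - t ^ 2) ^ (((n : ℝ) - 3) / 2) = 0 := by
      have e1 : ∀ t : ℝ, q0.eval t * t * (1 - t ^ 2) ^ (((n : ℝ) - 3) / 2) =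
          q.eval t * t * W t - a * (t * t * W t) := by
        intro t; rw [hq0e]; simp only [hW]; ring
      simp_rw [e1]
      rw [intervalIntegral.integral_sub (Continuous.intervalIntegrable (by fun_prop) _ _)
        (Continuous.intervalIntegrable (by fun_prop) _ _), intervalIntegral.integral_const_mul, ← hI2, ha]
      field_simp
      ring
    have hb := bound_zonS hn h hμ hz hpos q0 hq0M hq00
    have e2 : zonS e q = zonS e q0 + a • zonS e Polynomial.X := by
      rw [← zonS_C_mul, ← zonS_add]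
      congr 1
      rw [hq0]; ring
    rw [e2, map_add, map_smul, smul_eq_mul]
    calc |μ (zonS e q0) + a * μ (zonS e Polynomial.X)|
        ≤ |μ (zonS e q0)| + |a * μ (zonS e Polynomial.X)| := abs_add_le _ _
      _ ≤ (2 * n - 3) * ((1 + I0 / I2) * M) * μ (oneS n) + I0 / I2 * M * |μ (zonS e Polynomial.X)| := by
          refine add_le_add hb ?_
          rw [abs_mul]
          exact mul_le_mul_of_nonneg_right ha1 (abs_nonneg _)
      _ = _ := by ring

/-- the bound for smooth functions -/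
theorem bound_smooth (hn : 3 ≤ n) {e w : E n} (h : Orthonormal ℝ ![e, w]) {μ : SmoothFun n →ₗ[ℝ] ℝ}
    (hμ : IsContFun μ) (hz : IsZonalFun e μ)
    (hpos : ∀ f : SmoothFun n, (∀ u v : E n, Orthonormal ℝ ![u, v] → 0 ≤ Rc f.1 (u, v)) → 0 ≤ ell h hμ f) :
    ∃ C : ℝ, 0 ≤ C ∧ ∀ (f : SmoothFun n) (M : ℝ), (∀ v, |f.1 v| ≤ M) → |μ f| ≤ C * M := by
  obtain ⟨C, hC0, hC⟩ := bound_zonS_all hn h hμ hz hpos
  have hpoly : ∀ (P : MvPolynomial (Fin n) ℝ) (M : ℝ),
      (∀ v : Sph n, |MvPolynomial.eval (v : E n).ofLp P| ≤ M) → |μ (polyS P)| ≤ C * M := by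
    intro P M hM
    obtain ⟨q, hq1, hq2⟩ := average_poly hn e (pair_orthonormal h).1 P hM
    rw [hq2 μ hz]
    exact hC q M hq1
  obtain ⟨k, C₁, hk⟩ := hμ
  refine ⟨C, hC0, fun f M hM => ?_⟩
  refine le_of_forall_pos_le_add fun δ hδ => ?_
  set A : ℝ := |C₁| + C + 1 with hA
  have hA0 : 0 < A := by positivity
  obtain ⟨P, hP⟩ := poly_dense_sphere (ext0 f.1) f.2 (fun c hc x => ext0_smul f.1 hc x) k
    (ε := δ / A) (by positivity)
  have hopen : IsOpen ({0}ᶜ : Set (E n)) := isOpen_compl_singleton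
  -- the difference
  have hdiff : ∀ x : E n, x ≠ 0 → ext0 (f - polyS P).1 x =
      ext0 f.1 x - MvPolynomial.eval (‖x‖⁻¹ • x).ofLp P := by
    intro x hx
    rw [ext0_apply _ hx, ext0_apply _ hx]
    rfl
  have h1 : |μ (f - polyS P)| ≤ C₁ * (δ / A) := by
    refine hk _ _ fun j hj x hx => ?_
    have hx0 : x ≠ 0 := ne_zero_of_norm_one hx
    have h2 : ext0 (f - polyS P).1 =ᶠ[𝓝 x] fun y => ext0 f.1 y - MvPolynomial.eval (‖y‖⁻¹ • y).ofLp P := by
      filter_upwards [hopen.mem_nhds hx0] with y hy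
      exact hdiff y hy
    rw [(h2.iteratedFDeriv ℝ j).eq_of_nhds]
    exact hP j hj x hx
  have h3 : ∀ v : Sph n, |f.1 v - MvPolynomial.eval (v : E n).ofLp P| ≤ δ / A := by
    intro v
    have hv : ‖(v : E n)‖ = 1 := by simp
    have h4 := hP 0 (Nat.zero_le _) (v : E n) hv
    rw [norm_iteratedFDeriv_zero, hv, Real.norm_eq_abs, ext0_sphere] at h4
    simpa using h4
  have h5 : |μ (polyS P)| ≤ C * (M + δ / A) := by
    refine hpoly P _ fun v => ?_
    have h6 := h3 v
    have h7 := hM v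
    have h8 : MvPolynomial.eval (v : E n).ofLp P = f.1 v - (f.1 v - MvPolynomial.eval (v : E n).ofLp P) := by ring
    rw [h8]
    exact (abs_sub _ _).trans (add_le_add h7 h6)
  have h9 : μ f = μ (f - polyS P) + μ (polyS P) := by rw [← map_add]; congr 1; abel
  rw [h9]
  have hd : 0 ≤ δ / A := by positivity
  calc |μ (f - polyS P) + μ (polyS P)| ≤ |μ (f - polyS P)| + |μ (polyS P)| := abs_add_le _ _
    _ ≤ |C₁| * (δ / A) + C * (M + δ / A) :=
        add_le_add (h1.trans (mul_le_mul_of_nonneg_right (le_abs_self _) hd)) h5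
    _ = C * M + (|C₁| + C) * (δ / A) := by ring
    _ ≤ C * M + A * (δ / A) := by
        refine add_le_add le_rfl (mul_le_mul_of_nonneg_right ?_ hd)
        rw [hA]; linarith
    _ = C * M + δ := by field_simp

end

end Pool.Agent.Helper115_ME
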