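import Mathlib
set_option autoImplicit false
namespace Pool.Agent.Helper115_ME

open scoped ContDiff

/-- Gibbs inequality. -/
theorem gibbs {ι : Type*} (t : Finset ι) (p a : ι → ℝ) (hp : ∀ i ∈ t, 0 < p i)
    (hsum : ∑ i ∈ t, p i = 1) (ht : t.Nonempty) {s : ℝ} (hs : 0 < s) :
    ∑ i ∈ t, p i * a i - s * ∑ i ∈ t, p i * Real.log (p i) ≤
      s * Real.log (∑ i ∈ t, Real.exp (a i / s)) := by
  set W := ∑ i ∈ t, Real.exp (a i / s) with hW
  have hWpos : 0 < W := Finset.sum_pos (fun i _ => Real.exp_pos _) ht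
  have hterm : ∀ i ∈ t, p i * (a i / s - Real.log (p i) - Real.log W) ≤
      Real.exp (a i / s) / W - p i := by
    intro i hi
    have hpi := hp i hi
    have hpos : 0 < Real.exp (a i / s) / (p i * W) := by positivity
    have h1 := Real.log_le_sub_one_of_pos hpos
    rw [Real.log_div (Real.exp_pos _).ne' (mul_pos hpi hWpos).ne', Real.log_exp,
      Real.log_mul hpi.ne' hWpos.ne'] at h1
    have h2 := mul_le_mul_of_nonneg_left h1 hpi.le
    have h3 : p i * (Real.exp (a i / s) / (p i * W) - 1) = Real.exp (a i / s) / W - p i := by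
      field_simp
    rw [h3] at h2
    calc p i * (a i / s - Real.log (p i) - Real.log W)
        = p i * (a i / s - (Real.log (p i) + Real.log W)) := by ring
      _ ≤ _ := h2
  have hsum' := Finset.sum_le_sum hterm
  have hr : ∑ i ∈ t, (Real.exp (a i / s) / W - p i) = 0 := by
    rw [Finset.sum_sub_distrib, hsum, ← Finset.sum_div, ← hW, div_self hWpos.ne', sub_self]
  have hl : ∑ i ∈ t, p i * (a i / s - Real.log (p i) - Real.log W) =
      (∑ i ∈ t, p i * a i) / s - ∑ i ∈ t, p i * Real.log (p i) - Real.log W := by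
    have : ∀ i ∈ t, p i * (a i / s - Real.log (p i) - Real.log W) =
        p i * a i / s - p i * Real.log (p i) - p i * Real.log W := by
      intro i _
      ring
    rw [Finset.sum_congr rfl this, Finset.sum_sub_distrib, Finset.sum_sub_distrib,
      ← Finset.sum_div, ← Finset.sum_mul, hsum, one_mul]
  rw [hr, hl] at hsum'
  have h4 := mul_le_mul_of_nonneg_left hsum' hs.le
  have h5 : s * ((∑ i ∈ t, p i * a i) / s - ∑ i ∈ t, p i * Real.log (p i) - Real.log W) =
      ∑ i ∈ t, p i * a i - s * ∑ i ∈ t, p i * Real.log (p i) - s * Real.log W := by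
    field_simp
  rw [h5, mul_zero] at h4
  linarith

/-- Each term is a lower bound. -/
theorem le_logsum {ι : Type*} (t : Finset ι) (a : ι → ℝ) {i : ι} (hi : i ∈ t) {s : ℝ}
    (hs : 0 < s) : a i ≤ s * Real.log (∑ i ∈ t, Real.exp (a i / s)) := by
  have h1 : Real.exp (a i / s) ≤ ∑ i ∈ t, Real.exp (a i / s) :=
    Finset.single_le_sum (f := fun i => Real.exp (a i / s)) (fun j _ => (Real.exp_pos _).le) hi
  have h2 := Real.log_le_log (Real.exp_pos _) h1
  rw [Real.log_exp] at h2
  have h3 := mul_le_mul_of_nonneg_left h2 hs.le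
  have h4 : s * (a i / s) = a i := by field_simp
  linarith

/-- Upper bound of the log-sum-exp function. -/
theorem logsum_le {ι : Type*} (t : Finset ι) (a : ι → ℝ) (ht : t.Nonempty) {s M : ℝ}
    (hs : 0 < s) (hM : ∀ i ∈ t, a i ≤ M) :
    s * Real.log (∑ i ∈ t, Real.exp (a i / s)) ≤ M + s * Real.log t.card := by
  have hcard : (0 : ℝ) < t.card := by exact_mod_cast ht.card_pos
  have h1 : ∑ i ∈ t, Real.exp (a i / s) ≤ t.card * Real.exp (M / s) := by
    rw [← nsmul_eq_mul]
    refine Finset.sum_le_card_nsmul _ _ _ fun i hi => ?_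
    exact Real.exp_le_exp.2 (div_le_div_of_nonneg_right (hM i hi) hs.le)
  have hpos : 0 < ∑ i ∈ t, Real.exp (a i / s) := Finset.sum_pos (fun i _ => Real.exp_pos _) ht
  have h2 := Real.log_le_log hpos h1
  rw [Real.log_mul hcard.ne' (Real.exp_pos _).ne', Real.log_exp] at h2
  have h3 := mul_le_mul_of_nonneg_left h2 hs.le
  have h4 : s * (Real.log t.card + M / s) = M + s * Real.log t.card := by
    field_simp
    ring
  linarith

/-- Subadditivity. -/
theorem logsum_add {ι : Type*} (t : Finset ι) (a b : ι → ℝ) (ht : t.Nonempty) {s r w : ℝ}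
    (hs : 0 < s) (hr : 0 < r) (hw : 0 < w) (hwsr : w ≤ s + r) :
    w * Real.log (∑ i ∈ t, Real.exp ((a i + b i) / w)) ≤
      s * Real.log (∑ i ∈ t, Real.exp (a i / s)) + r * Real.log (∑ i ∈ t, Real.exp (b i / r)) := by
  set Z := ∑ i ∈ t, Real.exp ((a i + b i) / w) with hZ
  have hZpos : 0 < Z := Finset.sum_pos (fun i _ => Real.exp_pos _) ht
  set p : ι → ℝ := fun i => Real.exp ((a i + b i) / w) / Z with hp
  have hppos : ∀ i ∈ t, 0 < p i := fun i _ => div_pos (Real.exp_pos _) hZpos
  have hpsum : ∑ i ∈ t, p i = 1 := by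
    rw [hp, ← Finset.sum_div, ← hZ, div_self hZpos.ne']
  have hple : ∀ i ∈ t, p i ≤ 1 := by
    intro i hi
    rw [← hpsum]
    exact Finset.single_le_sum (fun j hj => (hppos j hj).le) hi
  have hH : ∑ i ∈ t, p i * Real.log (p i) ≤ 0 := by
    refine Finset.sum_nonpos fun i hi => ?_
    exact mul_nonpos_of_nonneg_of_nonpos (hppos i hi).le
      (Real.log_nonpos (hppos i hi).le (hple i hi))
  have g1 := gibbs t p a hppos hpsum ht hs
  have g2 := gibbs t p b hppos hpsum ht hr
  have hlog : ∀ i ∈ t, p i * Real.log (p i) = p i * (a i + b i) / w - p i * Real.log Z := by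
    intro i _
    rw [hp]
    simp only
    rw [Real.log_div (Real.exp_pos _).ne' hZpos.ne', Real.log_exp]
    ring
  have heq : ∑ i ∈ t, p i * Real.log (p i) = (∑ i ∈ t, p i * (a i + b i)) / w - Real.log Z := by
    rw [Finset.sum_congr rfl hlog, Finset.sum_sub_distrib, ← Finset.sum_div, ← Finset.sum_mul,
      hpsum, one_mul]
  have heq2 : w * Real.log Z = ∑ i ∈ t, p i * (a i + b i) - w * ∑ i ∈ t, p i * Real.log (p i) := by
    rw [heq]
    field_simp
    ring
  have hsplit : ∑ i ∈ t, p i * (a i + b i) = ∑ i ∈ t, p i * a i + ∑ i ∈ t, p i * b i := by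
    rw [← Finset.sum_add_distrib]
    exact Finset.sum_congr rfl fun i _ => by ring
  rw [heq2, hsplit]
  nlinarith [mul_nonneg (sub_nonneg.2 hwsr) (neg_nonneg.2 hH)]

theorem exists_smooth_sublinear {n : ℕ} (K : ConvexBody (EuclideanSpace ℝ (Fin n))) {ε : ℝ} (hε : 0 < ε) :
    ∃ q : EuclideanSpace ℝ (Fin n) → ℝ, ContDiffOn ℝ ∞ q {0}ᶜ ∧
      (∀ x y, q (x + y) ≤ q x + q y) ∧
      (∀ c : ℝ, 0 ≤ c → ∀ x, q (c • x) = c * q x) ∧
      ∀ u : EuclideanSpace ℝ (Fin n), ‖u‖ = 1 →
        |sSup ((fun x => inner ℝ x u) '' (K : Set (EuclideanSpace ℝ (Fin n)))) - q u| ≤ ε := by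
  obtain ⟨T, hTK, hTfin, hTcov⟩ := K.isCompact.finite_cover_balls hε
  set t : Finset (EuclideanSpace ℝ (Fin n)) := hTfin.toFinset with htdef
  have ht : t.Nonempty := by
    obtain ⟨x, hx⟩ := K.nonempty
    obtain ⟨y, hy, _⟩ := Set.mem_iUnion₂.1 (hTcov hx)
    exact ⟨y, hTfin.mem_toFinset.2 hy⟩
  have hcard : (1 : ℝ) ≤ t.card := by exact_mod_cast ht.card_pos
  have hlogN : 0 ≤ Real.log t.card := Real.log_nonneg hcard
  set τ : ℝ := ε / (Real.log t.card + 1) with hτ
  have hτpos : 0 < τ := div_pos hε (by linarith)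
  have hτN : τ * Real.log t.card ≤ ε := by
    rw [hτ, div_mul_eq_mul_div, div_le_iff₀ (by linarith)]
    nlinarith
  refine ⟨fun u => τ * ‖u‖ * Real.log (∑ x ∈ t, Real.exp (inner ℝ x u / (τ * ‖u‖))), ?_, ?_, ?_, ?_⟩
  · intro u hu
    have hu0 : u ≠ 0 := hu
    refine ContDiffAt.contDiffWithinAt ?_
    have hnorm : ContDiffAt ℝ ∞ (fun v : EuclideanSpace ℝ (Fin n) => τ * ‖v‖) u :=
      contDiffAt_const.mul (contDiffAt_norm ℝ hu0)
    refine hnorm.mul ?_
    refine ContDiffAt.log ?_ ?_
    · refine ContDiffAt.sum fun x _ => ?_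
      refine ContDiffAt.exp ?_
      refine ContDiffAt.div ?_ hnorm ?_
      · exact contDiffAt_const.inner ℝ contDiffAt_id
      · exact (mul_pos hτpos (norm_pos_iff.2 hu0)).ne'
    · exact (Finset.sum_pos (fun i _ => Real.exp_pos _) ht).ne'
  · intro u v
    simp only
    rcases eq_or_ne u 0 with rfl | hu
    · simp
    rcases eq_or_ne v 0 with rfl | hv
    · simp
    have hu' : 0 < τ * ‖u‖ := mul_pos hτpos (norm_pos_iff.2 hu)
    have hv' : 0 < τ * ‖v‖ := mul_pos hτpos (norm_pos_iff.2 hv)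
    rcases eq_or_ne (u + v) 0 with huv | huv
    · obtain ⟨x, hx⟩ := ht
      have h1 := le_logsum t (fun x => inner ℝ x u) hx hu'
      have h2 := le_logsum t (fun x => inner ℝ x v) hx hv'
      have h3 : inner ℝ x u + inner ℝ x v = (0 : ℝ) := by
        rw [← inner_add_right, huv, inner_zero_right]
      rw [huv]
      simp only [norm_zero, mul_zero, zero_mul]
      
      linarith
    · have huv' : 0 < τ * ‖u + v‖ := mul_pos hτpos (norm_pos_iff.2 huv)
      have hle : τ * ‖u + v‖ ≤ τ * ‖u‖ + τ * ‖v‖ := by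
        rw [← mul_add]
        exact mul_le_mul_of_nonneg_left (norm_add_le u v) hτpos.le
      have := logsum_add t (fun x => inner ℝ x u) (fun x => inner ℝ x v) ht hu' hv' huv' hle
      simp only [inner_add_right]
      exact this
  · intro c hc u
    simp only
    rcases eq_or_lt_of_le hc with rfl | hc'
    · simp
    have e1 : ‖c • u‖ = c * ‖u‖ := by rw [norm_smul, Real.norm_of_nonneg hc]
    have e2 : ∀ x : EuclideanSpace ℝ (Fin n),
        inner ℝ x (c • u) / (τ * ‖c • u‖) = inner ℝ x u / (τ * ‖u‖) := by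
      intro x
      rw [e1, inner_smul_right, mul_left_comm, mul_div_mul_left _ _ hc'.ne']
    simp only [e2]
    rw [e1]
    ring
  · intro u hu
    have hτu : τ * ‖u‖ = τ := by rw [hu, mul_one]
    simp only
    rw [hτu]
    have hbdd : BddAbove ((fun x => inner ℝ x u) '' (K : Set (EuclideanSpace ℝ (Fin n)))) := by
      refine (K.isCompact.image ?_).bddAbove
      fun_prop
    have hlow : sSup ((fun x => inner ℝ x u) '' (K : Set (EuclideanSpace ℝ (Fin n)))) ≤
        τ * Real.log (∑ x ∈ t, Real.exp (inner ℝ x u / τ)) + ε := by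
      refine csSup_le (K.nonempty.image _) ?_
      rintro _ ⟨x, hx, rfl⟩
      obtain ⟨y, hy, hxy⟩ := Set.mem_iUnion₂.1 (hTcov hx)
      have hyt : y ∈ t := hTfin.mem_toFinset.2 hy
      have h1 := le_logsum t (fun x => inner ℝ x u) hyt hτpos
      have h2 : inner ℝ x u = inner ℝ y u + inner ℝ (x - y) u := by
        rw [← inner_add_left]
        congr 1
        abel
      have h3 : inner ℝ (x - y) u ≤ ε := by
        refine (real_inner_le_norm _ _).trans ?_
        rw [hu, mul_one, ← dist_eq_norm]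
        exact (Metric.mem_ball.1 hxy).le
      simp only at h1 ⊢
      linarith
    have hup : τ * Real.log (∑ x ∈ t, Real.exp (inner ℝ x u / τ)) ≤
        sSup ((fun x => inner ℝ x u) '' (K : Set (EuclideanSpace ℝ (Fin n)))) + ε := by
      refine (logsum_le t (fun x => inner ℝ x u) ht hτpos (M := sSup ((fun x => inner ℝ x u) ''
        (K : Set (EuclideanSpace ℝ (Fin n))))) ?_).trans ?_
      · intro y hy
        exact le_csSup hbdd ⟨y, hTK (hTfin.mem_toFinset.1 hy), rfl⟩
      · linarith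
    rw [abs_le]
    constructor <;> linarith

end Pool.Agent.Helper115_ME
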