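import Mathlib
import Pool.Agent.Helper115_ME.Supp
import Pool.Agent.Helper115_ME.SmoothApprox
import Pool.Agent.Helper115_ME.RotFacts

/-!
# Construction of admissible maps from a bounded functional
-/

set_option autoImplicit false

namespace Pool.Agent.Helper115_ME

open MeasureTheory Metric Set Filter Topology
open scoped ContDiff

noncomputable section

variable {n : ℕ}

theorem continuous_act (ϑ : E n ≃ₗᵢ[ℝ] E n) : Continuous (act ϑ) :=
  Continuous.subtype_mk (ϑ.continuous.comp continuous_subtype_val) _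

theorem continuous_hS (K : ConvexBody (E n)) : Continuous (hS K) :=
  (continuous_supp K).comp continuous_subtype_val

/-- `h_K ∘ ϑ` as a continuous function on the sphere -/
def hSC (K : ConvexBody (E n)) (ϑ : E n ≃ₗᵢ[ℝ] E n) : C(Sph n, ℝ) :=
  ⟨fun v => hS K (act ϑ v), (continuous_hS K).comp (continuous_act ϑ)⟩

theorem norm_coe_sph (v : Sph n) : ‖(v : E n)‖ = 1 := by simp

/-- smooth bodies are dense -/
theorem exists_smooth_body (K : ConvexBody (E n)) {ε : ℝ} (hε : 0 < ε) :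
    ∃ L : ConvexBody (E n), IsSmooth (hS L) ∧ ∀ u : E n, ‖u‖ = 1 → |supp K u - supp L u| ≤ ε := by
  obtain ⟨q, hq, hadd, hhom, hclose⟩ := exists_smooth_sublinear K hε
  obtain ⟨L, hL⟩ := exists_body q hadd hhom
  refine ⟨L, ?_, fun u hu => ?_⟩
  · have h1 : ∀ x ∈ ({0}ᶜ : Set (E n)), ext0 (hS L) x = ‖x‖⁻¹ * q x := by
      intro x hx
      have hx0 : x ≠ 0 := by simpa using hx
      rw [ext0_apply _ hx0]
      show supp L (‖x‖⁻¹ • x) = _
      rw [hL, hhom _ (by positivity)]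
    refine ContDiffOn.congr ?_ h1
    have h2 : ContDiffOn ℝ ∞ (fun x : E n => ‖x‖⁻¹) {0}ᶜ := by
      intro x hx
      have hx0 : x ≠ 0 := by simpa using hx
      exact ((contDiffAt_norm ℝ hx0).inv (norm_ne_zero_iff.2 hx0)).contDiffWithinAt
    exact h2.mul hq
  · rw [hL]; exact hclose u hu

theorem norm_hSC_sub_le (K L : ConvexBody (E n)) (ϑ : E n ≃ₗᵢ[ℝ] E n) {ε : ℝ} (hε : 0 ≤ ε)
    (h : ∀ u : E n, ‖u‖ = 1 → |supp K u - supp L u| ≤ ε) : ‖hSC K ϑ - hSC L ϑ‖ ≤ ε := by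
  rw [ContinuousMap.norm_le _ hε]
  intro v
  exact h _ (norm_coe_sph _)

theorem construct (hn : 2 ≤ n) (e : Sph n) (Λ : C(Sph n, ℝ) →L[ℝ] ℝ)
    (hL : ∀ K : ConvexBody (E n), IsSmooth (hS K) →
      ∃ L : ConvexBody (E n), ∀ ϑ : E n ≃ₗᵢ[ℝ] E n, IsRot ϑ → hS L (act ϑ e) = Λ (hSC K ϑ)) :
    ∃ T : ConvexBody (E n) → ConvexBody (E n), Admissible T ∧
      ∀ (K : ConvexBody (E n)) (ϑ : E n ≃ₗᵢ[ℝ] E n), IsRot ϑ → hS (T K) (act ϑ e) = Λ (hSC K ϑ) := by
  -- every body has an image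
  have key : ∀ K : ConvexBody (E n), ∃ L : ConvexBody (E n), ∀ ϑ : E n ≃ₗᵢ[ℝ] E n, IsRot ϑ →
      hS L (act ϑ e) = Λ (hSC K ϑ) := by
    intro K
    have happ : ∀ j : ℕ, ∃ L : ConvexBody (E n), IsSmooth (hS L) ∧
        ∀ u : E n, ‖u‖ = 1 → |supp K u - supp L u| ≤ 1 / ((j : ℝ) + 1) := fun j =>
      exists_smooth_body K (by positivity)
    choose Kj hKj hKj' using happ
    choose Lj hLj using fun j => hL (Kj j) (hKj j)
    have hrot : ∀ u : E n, ‖u‖ = 1 → ∃ ϑ : E n ≃ₗᵢ[ℝ] E n, IsRot ϑ ∧ ϑ (e : E n) = u := fun u hu =>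
      exists_rot_one hn (norm_coe_sph e) hu
    -- the limit function
    have hdiff : ∀ (j : ℕ) (ϑ : E n ≃ₗᵢ[ℝ] E n), IsRot ϑ →
        |Λ (hSC K ϑ) - supp (Lj j) (ϑ (e : E n))| ≤ ‖Λ‖ * (1 / ((j : ℝ) + 1)) := by
      intro j ϑ hϑ
      have h1 : supp (Lj j) (ϑ (e : E n)) = Λ (hSC (Kj j) ϑ) := hLj j ϑ hϑ
      rw [h1, ← map_sub, ← Real.norm_eq_abs]
      refine (Λ.le_opNorm _).trans ?_
      exact mul_le_mul_of_nonneg_left (norm_hSC_sub_le K (Kj j) ϑ (by positivity) (hKj' j))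
        (norm_nonneg _)
    have hε : Tendsto (fun j : ℕ => ‖Λ‖ * (1 / ((j : ℝ) + 1))) atTop (𝓝 0) := by
      simpa using (tendsto_one_div_add_atTop_nhds_zero_nat (𝕜 := ℝ)).const_mul ‖Λ‖
    have hlim : ∀ ϑ : E n ≃ₗᵢ[ℝ] E n, IsRot ϑ →
        Tendsto (fun j => supp (Lj j) (ϑ (e : E n))) atTop (𝓝 (Λ (hSC K ϑ))) := by
      intro ϑ hϑ
      rw [tendsto_iff_norm_sub_tendsto_zero]
      refine squeeze_zero (fun _ => norm_nonneg _) (fun j => ?_) hε
      rw [Real.norm_eq_abs, abs_sub_comm]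
      exact hdiff j ϑ hϑ
    have hconv : ∀ x : E n, ∃ a, Tendsto (fun j => supp (Lj j) x) atTop (𝓝 a) := by
      intro x
      by_cases hx : x = 0
      · refine ⟨0, ?_⟩
        have : ∀ j, supp (Lj j) x = 0 := fun j => by
          rw [hx]; simpa using supp_smul (Lj j) (le_refl (0 : ℝ)) 0
        simp [this]
      · have hx' : ‖‖x‖⁻¹ • x‖ = 1 := by simp [norm_smul, hx]
        obtain ⟨ϑ, hϑ, hϑe⟩ := hrot _ hx'
        refine ⟨‖x‖ * Λ (hSC K ϑ), ?_⟩
        have h2 := (hlim ϑ hϑ).const_mul ‖x‖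
        rw [hϑe] at h2
        refine h2.congr fun j => ?_
        rw [supp_smul _ (by positivity), ← mul_assoc, mul_inv_cancel₀ (by simpa using hx), one_mul]
    choose p hp using hconv
    obtain ⟨L, hLp⟩ := exists_body p
      (fun x y => le_of_tendsto_of_tendsto' (hp (x + y)) ((hp x).add (hp y))
        fun j => supp_add_le _ _ _)
      (fun c hc x => tendsto_nhds_unique (hp (c • x))
        (((hp x).const_mul c).congr fun j => (supp_smul _ hc x).symm))
    refine ⟨L, fun ϑ hϑ => ?_⟩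
    show supp L (ϑ (e : E n)) = _
    rw [hLp]
    exact tendsto_nhds_unique (hp _) (hlim ϑ hϑ)
  choose T hT using key
  refine ⟨T, ⟨?_, ?_, ?_⟩, hT⟩
  · -- continuity
    have hlip : LipschitzWith ‖Λ‖₊ T := by
      refine LipschitzWith.of_dist_le_mul fun K L => ?_
      refine dist_le_of_supp (by positivity) fun u hu => ?_
      obtain ⟨ϑ, hϑ, hϑe⟩ := exists_rot_one hn (norm_coe_sph e) hu
      rw [← hϑe]
      have h1 := hT K ϑ hϑ
      have h2 := hT L ϑ hϑ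
      change supp (T K) (ϑ (e : E n)) = _ at h1
      change supp (T L) (ϑ (e : E n)) = _ at h2
      rw [h1, h2, ← map_sub, ← Real.norm_eq_abs]
      refine (Λ.le_opNorm _).trans ?_
      rw [coe_nnnorm]
      refine mul_le_mul_of_nonneg_left (norm_hSC_sub_le K L ϑ dist_nonneg fun v hv => ?_)
        (norm_nonneg _)
      simpa [hv] using abs_supp_sub_le K L v
    exact hlip.continuous
  · intro K L u
    obtain ⟨ϑ, hϑ, hϑe⟩ := exists_rot_one hn (norm_coe_sph e) (norm_coe_sph u)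
    have hu : u = act ϑ e := by ext1; exact hϑe.symm
    rw [hu, hT _ ϑ hϑ, hT _ ϑ hϑ, hT _ ϑ hϑ, ← map_add]
    congr 1
    ext v
    exact supp_add_body K L _
  · intro η hη K L hLK
    refine image_of_supp η fun u hu => ?_
    obtain ⟨ϑ, hϑ, hϑe⟩ := exists_rot_one hn (norm_coe_sph e) hu
    have h1 := hT K ϑ hϑ
    have h2 := hT L (ϑ.trans η) (isRot_trans hϑ hη)
    change supp (T K) (ϑ (e : E n)) = _ at h1
    change supp (T L) (η (ϑ (e : E n))) = _ at h2
    rw [← hϑe, h1, h2]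
    congr 1
    ext v
    exact supp_image η hLK _

end

end Pool.Agent.Helper115_ME
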