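import Mathlib
set_option autoImplicit false
/-!
Riesz extension and the Riesz-Markov-Kakutani theorem.
-/
namespace Pool.Agent.Helper115_ME

open MeasureTheory

open scoped CompactlySupported in
theorem dual_measure {Ω : Type} [TopologicalSpace Ω] [CompactSpace Ω] [T2Space Ω] [MeasurableSpace Ω]
    [BorelSpace Ω] {V : Type} [AddCommGroup V] [Module ℝ V] (D : V →ₗ[ℝ] C(Ω, ℝ)) (one : V)
    (hone : ∀ x, D one x = 1) (ℓ : V →ₗ[ℝ] ℝ) (hℓ : ∀ f, (∀ x, 0 ≤ D f x) → 0 ≤ ℓ f) :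
    ∃ ν : Measure Ω, IsFiniteMeasure ν ∧ ∀ f, ℓ f = ∫ x, D f x ∂ν := by
  have hker : LinearMap.ker D ≤ LinearMap.ker ℓ := by
    intro f hf
    rw [LinearMap.mem_ker] at hf ⊢
    have h1 := hℓ f fun x => by rw [hf]; simp
    have h2 := hℓ (-f) fun x => by rw [map_neg, hf]; simp
    rw [map_neg] at h2
    linarith
  let ℓ' : LinearMap.range D →ₗ[ℝ] ℝ :=
    ((LinearMap.ker D).liftQ ℓ hker).comp D.quotKerEquivRange.symm.toLinearMap
  have hℓ' : ∀ (v : V) (h : D v ∈ LinearMap.range D), ℓ' ⟨D v, h⟩ = ℓ v := by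
    intro v h
    have h1 : D.quotKerEquivRange.symm ⟨D v, h⟩ = (LinearMap.ker D).mkQ v := by
      rw [LinearEquiv.symm_apply_eq]
      apply Subtype.ext
      rw [Submodule.mkQ_apply, LinearMap.quotKerEquivRange_apply_mk]
    change ((LinearMap.ker D).liftQ ℓ hker) (D.quotKerEquivRange.symm ⟨D v, h⟩) = ℓ v
    rw [h1, Submodule.mkQ_apply, Submodule.liftQ_apply]
  let s : PointedCone ℝ C(Ω, ℝ) := PointedCone.positive ℝ C(Ω, ℝ)
  have hs : ∀ f : C(Ω, ℝ), f ∈ s ↔ 0 ≤ f := fun f => PointedCone.mem_positive ..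
  obtain ⟨g, hg1, hg2⟩ := riesz_extension s ⟨LinearMap.range D, ℓ'⟩
    (by
      rintro ⟨x, v, rfl⟩ hx
      have h1 : ℓ' ⟨D v, LinearMap.mem_range_self _ _⟩ = ℓ v := hℓ' v _
      have h2 : 0 ≤ ℓ v := hℓ v fun y => (hs _).1 hx y
      rw [← h1] at h2
      exact h2)
    (by
      intro y
      refine ⟨⟨D (‖y‖ • one), LinearMap.mem_range_self _ _⟩, ?_⟩
      rw [hs]
      intro x
      have h1 : D (‖y‖ • one) x = ‖y‖ := by
        rw [map_smul, ContinuousMap.smul_apply, hone, smul_eq_mul, mul_one]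
      have h2 := y.norm_coe_le_norm x
      rw [Real.norm_eq_abs] at h2
      have h3 := (abs_le.1 h2).1
      change 0 ≤ D (‖y‖ • one) x + y x
      rw [h1]; linarith)
  let Λ₀ : C_c(Ω, ℝ) →ₗ[ℝ] ℝ :=
    { toFun := fun f => g f.toContinuousMap
      map_add' := fun a b => by
        rw [← map_add]; rfl
      map_smul' := fun c a => by
        rw [RingHom.id_apply, ← map_smul]; rfl }
  let Λ : C_c(Ω, ℝ) →ₚ[ℝ] ℝ := PositiveLinearMap.mk₀ Λ₀ fun f hf => hg2 _ ((hs _).2 fun x => hf x)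
  refine ⟨RealRMK.rieszMeasure Λ, ?_, fun f => ?_⟩
  · have : (RealRMK.rieszMeasure Λ).Regular := inferInstance
    infer_instance
  · have h1 := RealRMK.integral_rieszMeasure Λ (CompactlySupportedContinuousMap.continuousMapEquiv (D f))
    have h2 : Λ (CompactlySupportedContinuousMap.continuousMapEquiv (D f)) = g (D f) := rfl
    have h3 := hg1 ⟨D f, LinearMap.mem_range_self _ _⟩
    change g (D f) = ℓ' ⟨D f, _⟩ at h3
    rw [hℓ'] at h3
    rw [← h3, ← h2, ← h1]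
    rfl

end Pool.Agent.Helper115_ME
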