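import Mathlib
import Pool.Agent.Helper115_ME.Bound2
import Pool.Agent.Helper115_ME.Construct
import Pool.Agent.Helper115_ME.Dual

/-!
# Zonal distributions which generate an admissible map
-/

set_option autoImplicit false

namespace Pool.Agent.Helper115_ME

open MeasureTheory Metric Set Filter Topology
open scoped ContDiff

noncomputable section

variable {n : ℕ}

/-! ### continuity in the direction -/

theorem norm_planeRot_sub_le {e w : E n} (h : Orthonormal ℝ ![e, w]) (θ : ℝ) (x : E n) :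
    ‖planeRot h θ x - x‖ ≤ √(2 - 2 * Real.cos θ) * ‖x‖ := by
  obtain ⟨he, hw, hew⟩ := pair_orthonormal h
  have hwe : inner ℝ w e = (0 : ℝ) := by rw [real_inner_comm]; exact hew
  set a : ℝ := inner ℝ e x with ha
  set b : ℝ := inner ℝ w x with hb
  have hcs := Real.sin_sq_add_cos_sq θ
  have hb2 : a ^ 2 + b ^ 2 ≤ ‖x‖ ^ 2 := by
    have h2 : ‖x - a • e - b • w‖ ^ 2 = ‖x‖ ^ 2 - a ^ 2 - b ^ 2 := by
      rw [← real_inner_self_eq_norm_sq]
      simp only [inner_sub_left, inner_sub_right, inner_smul_left, inner_smul_right,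
        real_inner_self_eq_norm_sq, he, hw, hew, hwe, RCLike.conj_to_real,
        real_inner_comm e x, real_inner_comm w x]
      rw [← ha, ← hb]
      ring
    have := sq_nonneg ‖x - a • e - b • w‖
    linarith
  have h1 : ‖planeRot h θ x - x‖ ^ 2 = (2 - 2 * Real.cos θ) * (a ^ 2 + b ^ 2) := by
    have h3 : planeRot h θ x - x = ((Real.cos θ - 1) * a - Real.sin θ * b) • e +
        ((Real.cos θ - 1) * b + Real.sin θ * a) • w := by
      rw [planeRot_apply]; abel
    rw [h3, ← real_inner_self_eq_norm_sq]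
    simp only [inner_add_left, inner_add_right, inner_smul_left, inner_smul_right,
      real_inner_self_eq_norm_sq, he, hw, hew, hwe, RCLike.conj_to_real]
    ring_nf
    nlinarith [hcs]
  have h2 : 0 ≤ 2 - 2 * Real.cos θ := by linarith [Real.cos_le_one θ]
  refine abs_le_of_sq_le_sq' ?_ (by positivity) |>.2
  rw [mul_pow, Real.sq_sqrt h2, h1]
  exact mul_le_mul_of_nonneg_left hb2 h2

theorem exists_close_rot {u u' : E n} (hu : ‖u‖ = 1) (hu' : ‖u'‖ = 1) (hne : u' ≠ u) (hne' : u' ≠ -u) :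
    ∃ η : E n ≃ₗᵢ[ℝ] E n, IsRot η ∧ η u = u' ∧ ∀ x, ‖η x - x‖ ≤ ‖u' - u‖ * ‖x‖ := by
  set c : ℝ := inner ℝ u u' with hc
  have hc1 : |c| ≤ 1 := by
    have := abs_real_inner_le_norm u u'
    rwa [hu, hu', one_mul] at this
  set z : E n := u' - c • u with hz
  have hzn : ‖z‖ ^ 2 = 1 - c ^ 2 := by
    rw [← real_inner_self_eq_norm_sq, hz]
    simp only [inner_sub_left, inner_sub_right, inner_smul_left, inner_smul_right,
      real_inner_self_eq_norm_sq, hu, hu', RCLike.conj_to_real, real_inner_comm u u']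
    rw [← hc]; ring
  have hz0 : z ≠ 0 := by
    intro h0
    have h1 : u' = c • u := by rw [← sub_eq_zero]; exact h0
    have h2 : ‖u'‖ = |c| := by rw [h1, norm_smul, hu, mul_one, Real.norm_eq_abs]
    rw [hu'] at h2
    rcases eq_or_eq_neg_of_abs_eq h2.symm with h3 | h3
    · rw [h3, one_smul] at h1; exact hne h1
    · rw [h3, neg_smul, one_smul] at h1; exact hne' h1
  have hzn0 : 0 < ‖z‖ := norm_pos_iff.2 hz0
  set w : E n := ‖z‖⁻¹ • z with hw
  have huz : inner ℝ u z = (0 : ℝ) := by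
    rw [hz, inner_sub_right, inner_smul_right, real_inner_self_eq_norm_sq, hu, ← hc]; ring
  have h : Orthonormal ℝ ![u, w] := by
    refine orthonormal_pair hu ?_ ?_
    · rw [hw, norm_smul, norm_inv, norm_norm, inv_mul_cancel₀ hzn0.ne']
    · rw [hw, inner_smul_right, huz, mul_zero]
  obtain ⟨hc2, hc3⟩ := abs_le.1 hc1
  set θ : ℝ := Real.arccos c with hθ
  have hcos : Real.cos θ = c := Real.cos_arccos hc2 hc3
  have hsin : Real.sin θ = ‖z‖ := by
    rw [hθ, Real.sin_arccos, ← hzn, Real.sqrt_sq hzn0.le]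
  refine ⟨planeRot h θ, isRot_planeRot h θ, ?_, fun x => ?_⟩
  · rw [planeRot_fst, hcos, hsin, hw, smul_smul, mul_inv_cancel₀ hzn0.ne', one_smul, hz]
    abel
  · refine (norm_planeRot_sub_le h θ x).trans (mul_le_mul_of_nonneg_right (le_of_eq ?_) (norm_nonneg _))
    rw [hcos]
    have h1 : ‖u' - u‖ ^ 2 = 2 - 2 * c := by
      rw [← real_inner_self_eq_norm_sq]
      simp only [inner_sub_left, inner_sub_right, real_inner_self_eq_norm_sq, hu, hu',
        real_inner_comm u u']
      rw [← hc]; ring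
    rw [← h1, Real.sqrt_sq (norm_nonneg _)]

theorem supp_lipschitz (K : ConvexBody (E n)) : ∃ R : ℝ, 0 ≤ R ∧ ∀ x y, |supp K x - supp K y| ≤ R * ‖x - y‖ := by
  obtain ⟨R, hR⟩ := K.isCompact.isBounded.exists_norm_le
  have key : ∀ x y, supp K x - supp K y ≤ |R| * ‖x - y‖ := by
    intro x y
    obtain ⟨z, hz, h⟩ := exists_supp_eq K x
    have h1 := inner_le_supp K hz y
    have h2 : inner ℝ z x - inner ℝ z y ≤ ‖z‖ * ‖x - y‖ := by
      rw [← inner_sub_right]; exact real_inner_le_norm _ _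
    have h3 : ‖z‖ * ‖x - y‖ ≤ |R| * ‖x - y‖ :=
      mul_le_mul_of_nonneg_right ((hR z hz).trans (le_abs_self _)) (norm_nonneg _)
    linarith
  refine ⟨|R|, abs_nonneg _, fun x y => ?_⟩
  rw [abs_le]
  constructor
  · have := key y x
    rw [norm_sub_rev] at this
    linarith
  · exact key x y

/-- (2) ⇒ (1): a zonal distribution satisfying the convexity condition generates an admissible map -/
theorem generates_of_pos (hn : 3 ≤ n) (e : Sph n) {w : E n} (h : Orthonormal ℝ ![(e : E n), w])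
    {μ : SmoothFun n →ₗ[ℝ] ℝ} (hμ : IsContFun μ) (hz : IsZonalFun (e : E n) μ)
    (hpos : ∀ f : SmoothFun n, (∀ u v : E n, Orthonormal ℝ ![u, v] → 0 ≤ Rc f.1 (u, v)) → 0 ≤ ell h hμ f) :
    ∃ T : ConvexBody (E n) → ConvexBody (E n), Admissible T ∧ Generates e μ T := by
  have hn2 : 2 ≤ n := by omega
  obtain ⟨C, hC0, hC⟩ := bound_smooth hn h hμ hz hpos
  -- extension to the continuous functions
  let S : Submodule ℝ C(Sph n, ℝ) :=
    { carrier := {f | IsSmooth (f : Sph n → ℝ)}
      add_mem' := fun {f g} hf hg => (SmoothFun n).add_mem hf hg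
      zero_mem' := (SmoothFun n).zero_mem
      smul_mem' := fun c f hf => (SmoothFun n).smul_mem c hf }
  let μ₀ : S →ₗ[ℝ] ℝ :=
    { toFun := fun f => μ ⟨(f.1 : Sph n → ℝ), f.2⟩
      map_add' := fun f g => by
        rw [← map_add]; rfl
      map_smul' := fun c f => by
        rw [RingHom.id_apply, ← map_smul]; rfl }
  let μ₁ : StrongDual ℝ S := μ₀.mkContinuous C fun f => by
    refine hC _ _ fun v => ?_
    exact (f.1).norm_coe_le_norm v
  obtain ⟨Λ, hΛ, -⟩ := _root_.exists_extension_norm_eq S μ₁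
  have hΛ' : ∀ (K : ConvexBody (E n)) (hK : IsSmooth (hS K)) (ϑ : E n ≃ₗᵢ[ℝ] E n),
      Λ (hSC K ϑ) = μ (smComp ⟨hS K, hK⟩ ϑ) := by
    intro K hK ϑ
    have hmem : hSC K ϑ ∈ S := (smComp ⟨hS K, hK⟩ ϑ).2
    exact hΛ ⟨hSC K ϑ, hmem⟩
  have hL : ∀ K : ConvexBody (E n), IsSmooth (hS K) →
      ∃ L : ConvexBody (E n), ∀ ϑ : E n ≃ₗᵢ[ℝ] E n, IsRot ϑ → hS L (act ϑ e) = Λ (hSC K ϑ) := by
    intro K hK
    set k : SmoothFun n := ⟨hS K, hK⟩ with hk
    have hrot : ∀ u : Sph n, ∃ ϑ : E n ≃ₗᵢ[ℝ] E n, IsRot ϑ ∧ ϑ (e : E n) = (u : E n) := fun u =>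
      exists_rot_one hn2 (norm_coe_sph e) (norm_coe_sph u)
    choose R hR hRe using hrot
    set H : Sph n → ℝ := fun u => μ (smComp k (R u)) with hH
    -- well defined
    have hwell : ∀ ϑ : E n ≃ₗᵢ[ℝ] E n, IsRot ϑ → H (act ϑ e) = μ (smComp k ϑ) := by
      intro ϑ hϑ
      set u : Sph n := act ϑ e with hu
      have h1 : (ϑ.trans (R u).symm) (e : E n) = (e : E n) := by
        show (R u).symm (ϑ (e : E n)) = (e : E n)
        rw [LinearIsometryEquiv.symm_apply_eq, hRe]
        rfl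
      have h2 : smComp k ϑ = smComp (smComp k (R u)) (ϑ.trans (R u).symm) := by
        apply Subtype.ext
        funext v
        have e4 : act ϑ v = act (R u) (act (ϑ.trans (R u).symm) v) := by
          apply Subtype.ext
          show ϑ (v : E n) = R u ((R u).symm (ϑ (v : E n)))
          rw [LinearIsometryEquiv.apply_symm_apply]
        show k.1 (act ϑ v) = k.1 (act (R u) (act (ϑ.trans (R u).symm) v))
        rw [← e4]
      rw [h2]
      exact (hz _ (isRot_trans hϑ (isRot_symm (hR u))) h1 (smComp k (R u))).symm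
    have hcirc : ∀ (u v : E n), Orthonormal ℝ ![u, v] → ∃ ϑ : E n ≃ₗᵢ[ℝ] E n, IsRot ϑ ∧ ϑ (e : E n) = u ∧ ϑ w = v ∧
        ∀ θ, ext0 H (Real.cos θ • u + Real.sin θ • v) = circF h μ (smComp k ϑ) θ := by
      intro u v huv
      obtain ⟨ϑ, hϑ, h1, h2⟩ := exists_rot_two hn h huv
      refine ⟨ϑ, hϑ, h1, h2, fun θ => ?_⟩
      have h3 : Real.cos θ • u + Real.sin θ • v = (act ((planeRot h θ).trans ϑ) e : E n) := by
        show _ = ϑ (planeRot h θ (e : E n))
        rw [planeRot_fst, map_add, map_smul, map_smul, h1, h2]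
      rw [h3, ext0_sphere, hwell _ (isRot_trans (isRot_planeRot h θ) hϑ), smComp_trans]
      rfl
    -- continuity
    obtain ⟨Rad, hRad0, hRad⟩ := supp_lipschitz K
    have hHΛ : ∀ (u : Sph n) (ϑ : E n ≃ₗᵢ[ℝ] E n), IsRot ϑ → ϑ (e : E n) = u → H u = Λ (hSC K ϑ) := by
      intro u ϑ hϑ hu
      have h1 : u = act ϑ e := Subtype.ext hu.symm
      rw [h1, hwell ϑ hϑ, hΛ' K hK ϑ]
    have hcont : Continuous H := by
      rw [continuous_iff_continuousAt]
      intro u
      have hest : ∀ u' : Sph n, u' ≠ u → (u' : E n) ≠ -(u : E n) →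
          |H u' - H u| ≤ ‖Λ‖ * (Rad * ‖(u' : E n) - (u : E n)‖) := by
        intro u' h1 h2
        obtain ⟨η, hη, hηu, hηx⟩ := exists_close_rot (norm_coe_sph u) (norm_coe_sph u')
          (fun h3 => h1 (Subtype.ext h3)) h2
        rw [hHΛ u (R u) (hR u) (hRe u), hHΛ u' ((R u).trans η) (isRot_trans (hR u) hη) (by
          show η (R u (e : E n)) = _
          rw [hRe u, hηu]), ← map_sub, ← Real.norm_eq_abs]
        refine (Λ.le_opNorm _).trans (mul_le_mul_of_nonneg_left ?_ (norm_nonneg _))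
        rw [ContinuousMap.norm_le _ (by positivity)]
        intro v
        show ‖supp K (η (R u (v : E n))) - supp K (R u (v : E n))‖ ≤ _
        rw [Real.norm_eq_abs]
        refine (hRad _ _).trans (mul_le_mul_of_nonneg_left ?_ hRad0)
        refine (hηx _).trans (le_of_eq ?_)
        rw [LinearIsometryEquiv.norm_map, norm_coe_sph, mul_one]
      rw [ContinuousAt, tendsto_iff_norm_sub_tendsto_zero]
      have hlim : Tendsto (fun u' : Sph n => ‖Λ‖ * (Rad * ‖(u' : E n) - (u : E n)‖)) (𝓝 u) (𝓝 0) := by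
        have hc : Continuous (fun u' : Sph n => ‖Λ‖ * (Rad * ‖(u' : E n) - (u : E n)‖)) := by fun_prop
        simpa using hc.tendsto u
      have hnear : ∀ᶠ u' : Sph n in 𝓝 u, (u' : E n) ≠ -(u : E n) := by
        have hc : Continuous (fun u' : Sph n => (u' : E n)) := continuous_subtype_val
        have h3 : (u : E n) ≠ -(u : E n) := by
          intro h4
          have h5 : inner ℝ (u : E n) (u : E n) = -inner ℝ (u : E n) (u : E n) := by
            conv_lhs => rw [h4]
            rw [inner_neg_left, inner_neg_right, neg_neg, ← inner_neg_right, ← h4]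
          rw [real_inner_self_eq_norm_sq, norm_coe_sph] at h5
          norm_num at h5
        exact (hc.tendsto u).eventually (isOpen_ne.mem_nhds h3)
      refine squeeze_zero' (Eventually.of_forall fun _ => norm_nonneg _) ?_ hlim
      filter_upwards [hnear] with u' hu'
      by_cases h1 : u' = u
      · subst h1; simp
      · rw [Real.norm_eq_abs]; exact hest u' h1 hu'
    obtain ⟨L, hL⟩ := body_of_circles hn2 H hcont
      (by
        intro u v huv
        obtain ⟨ϑ, hϑ, h1, h2, h3⟩ := hcirc u v huv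
        have h4 : (fun θ : ℝ => ext0 H (Real.cos θ • u + Real.sin θ • v)) = circF h μ (smComp k ϑ) :=
          funext h3
        rw [h4]
        exact contDiff_circF h hμ _)
      (by
        intro u v huv
        obtain ⟨ϑ, hϑ, h1, h2, h3⟩ := hcirc u v huv
        have h4 : (fun θ : ℝ => ext0 H (Real.cos θ • u + Real.sin θ • v)) = circF h μ (smComp k ϑ) :=
          funext h3
        have h5 : ext0 H u = μ (smComp k ϑ) := by
          have h6 := h3 0
          rw [Real.cos_zero, Real.sin_zero, one_smul, zero_smul, add_zero] at h6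
          rw [h6]
          show μ (smComp (smComp k ϑ) (planeRot h 0)) = _
          congr 1
          apply Subtype.ext
          funext v
          have e4 : act (planeRot h 0) v = v := Subtype.ext (planeRot_zero h _)
          show k.1 (act ϑ (act (planeRot h 0) v)) = k.1 (act ϑ v)
          rw [e4]
        have h7 : Rc H (u, v) = ell h hμ (smComp k ϑ) := by
          show ext0 H u + iteratedDeriv 2 (fun θ : ℝ => ext0 H (Real.cos θ • u + Real.sin θ • v)) 0 = _
          rw [h4, h5, ell_apply]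
        rw [h7]
        refine hpos _ fun u' v' huv' => ?_
        have h8 : Rc (smComp k ϑ).1 (u', v') = Rc (hS K) (ϑ u', ϑ v') := Rc_comp (hS K) ϑ (u', v')
        rw [h8]
        refine Rc_nonneg_of_body hK ?_
        obtain ⟨p1, p2, p3⟩ := pair_orthonormal huv'
        exact orthonormal_pair (by rw [LinearIsometryEquiv.norm_map, p1])
          (by rw [LinearIsometryEquiv.norm_map, p2]) (by rw [LinearIsometryEquiv.inner_map_map, p3]))
    refine ⟨L, fun ϑ hϑ => ?_⟩
    rw [hL, hwell ϑ hϑ, hΛ' K hK ϑ]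
  obtain ⟨T, hT, hT2⟩ := construct hn2 e Λ hL
  refine ⟨T, hT, fun K hK ϑ hϑ => ?_⟩
  rw [hT2 K ϑ hϑ]
  exact hΛ' K hK ϑ

/-- (1) ⇒ (2) -/
theorem pos_of_generates (hn : 3 ≤ n) (e : Sph n) {w : E n} (h : Orthonormal ℝ ![(e : E n), w])
    {μ : SmoothFun n →ₗ[ℝ] ℝ} (hμ : IsContFun μ) {T : ConvexBody (E n) → ConvexBody (E n)}
    (hgen : Generates e μ T) (f : SmoothFun n)
    (hf : ∀ u v : E n, Orthonormal ℝ ![u, v] → 0 ≤ Rc f.1 (u, v)) : 0 ≤ ell h hμ f := by
  obtain ⟨K, hK⟩ := exists_body_of_Rc (by omega) f.2 hf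
  have hKs : hS K ∈ SmoothFun n := by rw [hK]; exact f.2
  have hfK : f = ⟨hS K, hKs⟩ := Subtype.ext hK.symm
  have h1 : ∀ θ, ext0 (hS (T K)) (Real.cos θ • (e : E n) + Real.sin θ • w) = circF h μ f θ := by
    intro θ
    have h3 : Real.cos θ • (e : E n) + Real.sin θ • w = (act (planeRot h θ) e : E n) := by
      show _ = planeRot h θ (e : E n)
      rw [planeRot_fst]
    rw [h3, ext0_sphere, hgen K hKs _ (isRot_planeRot h θ), hfK]
    rfl
  have h2 : (fun θ : ℝ => ext0 (hS (T K)) (Real.cos θ • (e : E n) + Real.sin θ • w)) = circF h μ f :=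
    funext h1
  have h3 := Rc_nonneg_of_circle (T K) h (by rw [h2]; exact contDiff_circF h hμ f)
  have h4 : ext0 (hS (T K)) (e : E n) = μ f := by
    have h6 := h1 0
    rw [Real.cos_zero, Real.sin_zero, one_smul, zero_smul, add_zero] at h6
    rw [h6]
    show μ (smComp f (planeRot h 0)) = _
    congr 1
    apply Subtype.ext
    funext v
    have e4 : act (planeRot h 0) v = v := Subtype.ext (planeRot_zero h _)
    show f.1 (act (planeRot h 0) v) = f.1 v
    rw [e4]
  have h5 : Rc (hS (T K)) ((e : E n), w) = ell h hμ f := by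
    show ext0 (hS (T K)) (e : E n) +
      iteratedDeriv 2 (fun θ : ℝ => ext0 (hS (T K)) (Real.cos θ • (e : E n) + Real.sin θ • w)) 0 = _
    rw [h2, h4, ell_apply]
  rw [← h5]
  exact h3

end

end Pool.Agent.Helper115_ME
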