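import Mathlib
import Pool.Agent.Helper115_ME.Gen

/-!
# The dual form of the convexity condition: a positive measure on orthonormal pairs
-/

set_option autoImplicit false

namespace Pool.Agent.Helper115_ME

open MeasureTheory Metric Set Filter Topology
open scoped ContDiff

noncomputable section

variable {n : ℕ}

/-- orthonormal pairs -/
def IsPair (p : E n × E n) : Prop := Orthonormal ℝ ![p.1, p.2]

/-- `μ(f) + (d/dθ)² μ(f ∘ ρ_θ)` at `θ = 0`, where `ρ_θ = planeRot h θ` is the rotation by the angle `θ` in the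
plane of `e, w`, from `e` towards `w` -/
def curv {e w : E n} (h : Orthonormal ℝ ![e, w]) (μ : Distr n) (f : SmoothFun n) : ℝ :=
  val μ f + iteratedDeriv 2 (fun θ : ℝ => val μ (smComp f (planeRot h θ))) 0

/-- the set of orthonormal pairs -/
def pairs (n : ℕ) : Set (E n × E n) := {p | Orthonormal ℝ ![p.1, p.2]}

theorem mem_pairs {p : E n × E n} : p ∈ pairs n ↔ (‖p.1‖ = 1 ∧ ‖p.2‖ = 1 ∧ inner ℝ p.1 p.2 = (0 : ℝ)) :=
  ⟨fun h => pair_orthonormal h, fun h => orthonormal_pair h.1 h.2.1 h.2.2⟩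

theorem isClosed_pairs : IsClosed (pairs n) := by
  have h : pairs n = {p : E n × E n | ‖p.1‖ = 1} ∩ ({p | ‖p.2‖ = 1} ∩ {p | inner ℝ p.1 p.2 = (0 : ℝ)}) := by
    ext p; exact mem_pairs
  rw [h]
  refine IsClosed.inter ?_ (IsClosed.inter ?_ ?_)
  · exact isClosed_eq (by fun_prop) continuous_const
  · exact isClosed_eq (by fun_prop) continuous_const
  · exact isClosed_eq (by fun_prop) continuous_const

theorem isCompact_pairs : IsCompact (pairs n) := by
  refine Metric.isCompact_of_isClosed_isBounded isClosed_pairs ?_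
  refine (isBounded_iff_subset_closedBall 0).2 ⟨1, fun p hp => ?_⟩
  obtain ⟨h1, h2, -⟩ := mem_pairs.1 hp
  rw [mem_closedBall_zero_iff, Prod.norm_def, h1, h2]
  simp

/-- `f ↦ Rc f` as a linear map to the continuous functions on the compact set of orthonormal pairs -/
def RcL (n : ℕ) : SmoothFun n →ₗ[ℝ] C(pairs n, ℝ) where
  toFun f := ⟨fun p => Rc f.1 p.1, by
    have h := continuousOn_Rc f.2
    refine h.comp_continuous continuous_subtype_val fun p => ?_
    exact ne_zero_of_norm_one (mem_pairs.1 p.2).1⟩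
  map_add' f g := by
    ext p
    exact Rc_add f.2 g.2 p.2
  map_smul' c f := by
    ext p
    exact Rc_smul c f.2 p.2

/-- (2) ⇒ (3) -/
theorem exists_measure {e w : E n} (h : Orthonormal ℝ ![e, w])
    {μ : SmoothFun n →ₗ[ℝ] ℝ} (hμ : IsContFun μ)
    (hpos : ∀ f : SmoothFun n, (∀ u v : E n, Orthonormal ℝ ![u, v] → 0 ≤ Rc f.1 (u, v)) → 0 ≤ ell h hμ f) :
    ∃ ν : Measure (E n × E n), IsFiniteMeasure ν ∧ (∀ᵐ p ∂ν, Orthonormal ℝ ![p.1, p.2]) ∧
      ∀ f : SmoothFun n, ell h hμ f = ∫ p, Rc f.1 p ∂ν := by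
  have : CompactSpace (pairs n) := isCompact_iff_compactSpace.1 isCompact_pairs
  obtain ⟨ν, hν, hνf⟩ := dual_measure (Ω := pairs n) (RcL n) (oneS n)
    (fun p => Rc_one (p := p.1) p.2) (ell h hμ) (fun f hf => hpos f fun u v huv => hf ⟨(u, v), huv⟩)
  have hemb : MeasurableEmbedding (Subtype.val : pairs n → E n × E n) :=
    MeasurableEmbedding.subtype_coe isClosed_pairs.measurableSet
  refine ⟨ν.map Subtype.val, inferInstance, ?_, fun f => ?_⟩
  · rw [hemb.ae_map_iff]
    exact Eventually.of_forall fun p => p.2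
  · rw [hemb.integral_map, hνf]
    rfl

/-- (3) ⇒ (2) -/
theorem pos_of_measure {ν : Measure (E n × E n)} (hν : ∀ᵐ p ∂ν, Orthonormal ℝ ![p.1, p.2])
    (f : SmoothFun n) (hf : ∀ u v : E n, Orthonormal ℝ ![u, v] → 0 ≤ Rc f.1 (u, v)) :
    0 ≤ ∫ p, Rc f.1 p ∂ν := by
  refine integral_nonneg_of_ae ?_
  filter_upwards [hν] with p hp
  exact hf p.1 p.2 hp

end

end Pool.Agent.Helper115_ME
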